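import Pool.Agent.H48.CR.Pass
import Pool.Agent.H33.CR.GB

/-!
# CR T0: the map `f_N` in the chart, over the top

`n = q_N`. `FN c N w = w + (p n + 1) + δ N w`, so `f_N (W N w) = W N (FN c N w)`; `p n + 1 = q p_N`.
`top_mem_Wd`, `top_mem_Wi`: for `Im w > r` all distances to the holes are `> r`, and `-Im w < 0`.
`FN_iter`: induction on `k`. Let `x_i = FN^[i] w`, `‖x_i - (w + i (p n + 1))‖ ≤ 1/8` for `i < k`; then `Im x_i ≥ M - 1/8 > R + 1`
(so `top_mem_Wd`, `top_mem_Wi`, `map` apply) and, with `d_i = max M |Re w + i - m_i n|`, `m_i = round ((Re w + i) / n)`, all distances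
of `x_i` to the holes are `≥ d_i / 2` (`|Re x_i - j n| ≥ |Re w + i - (j - i p) n| - 1/8 ≥ |Re w + i - m_i n| - 1/8`, `M ≥ 8`), so `‖δ N x_i‖ ≤ C (d_i/2)^(-(1+1/q))`
(`δ_small` with `r = d_i / 2 ≥ R`). By `sum_bound` (`x0 = Re w`, `r = M`) the sum over `i < k ≤ n` is `≤ T M^(-1/q)`, and this is `≤ 1/8` for `M ≥ M1`.
`FN^[k] w - (w + k (p n + 1)) = ∑_{i<k} δ N x_i`.
-/

set_option autoImplicit false

open Set Filter Topology Metric

namespace Pool.Agent.CR

variable {p q s e : ℕ}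

/-- the map `f_N` in the chart -/
noncomputable def FN (c : Chart p q s e) (N : ℕ) (w : ℂ) : ℂ := w + (p * qN q e N + 1) + c.δ N w

theorem top_mem_Wd {n R r : ℝ} (hR : 0 ≤ R) (hr : R ≤ r) {w : ℂ} (hw : r < w.im) : w ∈ Wd n R := by
  intro k
  constructor
  · have h1 : |w.im| ≤ ‖w - k * n‖ := by
      have h2 := Complex.abs_im_le_norm (w - k * n)
      have e1 : (w - k * n : ℂ).im = w.im := by simp
      rwa [e1] at h2
    have h3 := le_abs_self w.im
    linarith
  · have h1 := abs_nonneg (w.re - k * n)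
    linarith

theorem top_mem_Wi {n R : ℝ} (hR : 0 ≤ R) {w : ℂ} (hw : R + 1 < w.im) : w + 1 ∈ Wi n R := by
  intro k
  have e0 : (w + 1).im = w.im := by simp
  constructor
  · have h1 : |w.im| ≤ ‖w + 1 - k * n‖ := by
      have h2 := Complex.abs_im_le_norm (w + 1 - k * n)
      have e1 : (w + 1 - k * n : ℂ).im = w.im := by simp
      rwa [e1] at h2
    have h3 := le_abs_self w.im
    linarith
  · have h1 := abs_nonneg ((w + 1).re - k * n)
    rw [e0]
    linarith

/-- `p n + 1 = q p_N` -/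
theorem q_pN (hs : q * s = p * e + 1) (N : ℕ) : q * pN p s N = p * qN q e N + 1 := by
  unfold pN qN
  have : q * (p * N + s) = p * (q * N) + q * s := by ring
  rw [this, hs]
  ring

theorem FN_iter (hq : 0 < q) (c : Chart p q s e) : ∃ T M1 : ℝ, 0 < T ∧ c.R + 8 ≤ M1 ∧ 60 ≤ M1 ∧
    (∀ M ≥ M1, T * M ^ (-(1 / (q : ℝ))) ≤ 1 / 8) ∧
    ∀ M ≥ M1, ∀ N ≥ c.N0, ∀ w : ℂ, M ≤ w.im → ∀ k ≤ qN q e N,
      ‖(FN c N)^[k] w - (w + k * (p * qN q e N + 1))‖ ≤ T * M ^ (-(1 / (q : ℝ))) ∧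
      ∑ i ∈ Finset.range k, ‖c.δ N ((FN c N)^[i] w)‖ ≤ T * M ^ (-(1 / (q : ℝ))) ∧
      (f (lN p q s e N))^[k] (c.W N w) = c.W N ((FN c N)^[k] w) := by
  have hq' : (0 : ℝ) < q := by exact_mod_cast hq
  have ha : (0 : ℝ) < 1 / (q : ℝ) := by positivity
  obtain ⟨C1, hC1, hsum⟩ := sum_bound ha
  have hC := c.C_pos
  have hR := c.R_ge
  obtain ⟨T, hTdef⟩ : ∃ T : ℝ, T = c.C * 2 ^ (1 + 1 / (q : ℝ)) * C1 := ⟨_, rfl⟩
  have hT : 0 < T := by
    rw [hTdef]
    positivity
  obtain ⟨M1, hM1⟩ : ∃ M1 : ℝ, M1 = max (max (2 * c.R + 8) 60) ((8 * T) ^ (q : ℝ)) := ⟨_, rfl⟩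
  have h1 : 2 * c.R + 8 ≤ M1 := by
    rw [hM1]
    exact (le_max_left _ _).trans (le_max_left _ _)
  have h2 : 60 ≤ M1 := by
    rw [hM1]
    exact (le_max_right _ _).trans (le_max_left _ _)
  have h3 : (8 * T) ^ (q : ℝ) ≤ M1 := by
    rw [hM1]
    exact le_max_right _ _
  have h4 : ∀ M ≥ M1, T * M ^ (-(1 / (q : ℝ))) ≤ 1 / 8 := by
    intro M hM
    have hM0 : 0 < M := by linarith
    have h5 : 8 * T ≤ M ^ (1 / (q : ℝ)) := by
      have h6 : ((8 * T) ^ (q : ℝ)) ^ (1 / (q : ℝ)) ≤ M ^ (1 / (q : ℝ)) :=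
        Real.rpow_le_rpow (by positivity) (h3.trans hM) ha.le
      rw [← Real.rpow_mul (by positivity), mul_one_div_cancel hq'.ne', Real.rpow_one] at h6
      exact h6
    rw [Real.rpow_neg hM0.le, ← div_eq_mul_inv, div_le_iff₀ (by positivity)]
    linarith
  refine ⟨T, M1, hT, by linarith, h2, h4, ?_⟩
  intro M hM N hN w hw
  have hMM := h4 M hM
  have hn100 := c.n_ge N hN
  have hn0 : (0 : ℝ) < (qN q e N : ℝ) := by linarith
  obtain ⟨m, hm⟩ : ∃ m : ℕ → ℤ, m = fun i : ℕ => round ((w.re + i) / (qN q e N : ℝ)) := ⟨_, rfl⟩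
  obtain ⟨d, hd⟩ : ∃ d : ℕ → ℝ, d = fun i : ℕ => max M |w.re + i - m i * (qN q e N : ℝ)| := ⟨_, rfl⟩
  have hdM : ∀ i, M ≤ d i := by
    intro i
    rw [hd]
    exact le_max_left _ _
  have hkey : ∀ (i : ℕ) (x : ℂ), ‖x - (w + i * (p * qN q e N + 1))‖ ≤ 1 / 8 →
      x ∈ Wd (qN q e N) c.R ∧ x + 1 ∈ Wi (qN q e N) c.R ∧
        ‖c.δ N x‖ ≤ c.C * (d i / 2) ^ (-(1 + 1 / (q : ℝ))) := by
    intro i x hx
    have him : M - 1 / 8 ≤ x.im := by
      have h5 := (Complex.abs_im_le_norm (x - (w + i * (p * qN q e N + 1)))).trans hx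
      have e1 : (x - (w + i * (p * qN q e N + 1))).im = x.im - w.im := by simp
      rw [e1] at h5
      have h6 := abs_le.1 h5
      linarith [h6.1]
    have hre : |x.re - (w.re + i * (p * qN q e N + 1))| ≤ 1 / 8 := by
      have h5 := (Complex.abs_re_le_norm (x - (w + i * (p * qN q e N + 1)))).trans hx
      have e1 : (x - (w + i * (p * qN q e N + 1))).re = x.re - (w.re + i * (p * qN q e N + 1)) := by simp
      rwa [e1] at h5
    have hxd : x ∈ Wd (qN q e N) c.R := top_mem_Wd (r := c.R) (by linarith) le_rfl (by linarith)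
    have hxi : x + 1 ∈ Wi (qN q e N) c.R := top_mem_Wi (by linarith) (by linarith)
    refine ⟨hxd, hxi, (c.δ_small N hN x hxd hxi).2 (d i / 2) ?_ ?_⟩
    · have := hdM i
      linarith
    · intro j
      have a1 : |x.im| ≤ ‖x - j * qN q e N‖ := by
        have h5 := Complex.abs_im_le_norm (x - j * qN q e N)
        have e1 : (x - j * qN q e N).im = x.im := by simp
        rwa [e1] at h5
      have a2 : |x.re - j * qN q e N| ≤ ‖x - j * qN q e N‖ := by
        have h5 := Complex.abs_re_le_norm (x - j * qN q e N)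
        have e1 : (x - j * qN q e N).re = x.re - j * qN q e N := by simp
        rwa [e1] at h5
      have a3 : |w.re + i - ((j - i * p : ℤ) : ℝ) * (qN q e N : ℝ)| ≤ |x.re - j * qN q e N| + 1 / 8 := by
        have e1 : w.re + i - ((j - i * p : ℤ) : ℝ) * (qN q e N : ℝ) =
            (x.re - j * qN q e N) - (x.re - (w.re + i * (p * qN q e N + 1))) := by
          push_cast
          ring
        rw [e1]
        refine (abs_sub _ _).trans ?_
        linarith
      have a4 : |w.re + i - m i * (qN q e N : ℝ)| ≤ |w.re + i - ((j - i * p : ℤ) : ℝ) * (qN q e N : ℝ)| := by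
        have h5 := round_le ((w.re + i) / (qN q e N : ℝ)) (j - i * p)
        have h6 : ∀ z : ℤ, |w.re + i - z * (qN q e N : ℝ)| = |(w.re + i) / (qN q e N : ℝ) - z| * (qN q e N : ℝ) := by
          intro z
          rw [← abs_of_pos hn0, ← abs_mul, abs_of_pos hn0]
          congr 1
          field_simp
        rw [h6, h6, hm]
        exact mul_le_mul_of_nonneg_right h5 hn0.le
      have a5 : d i ≤ ‖x - j * qN q e N‖ + 1 / 8 := by
        rw [hd]
        refine max_le ?_ ?_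
        · have := le_abs_self x.im
          linarith
        · linarith
      have := hdM i
      linarith
  have hSB : ∀ k : ℕ, k ≤ qN q e N →
      (∀ i < k, ‖c.δ N ((FN c N)^[i] w)‖ ≤ c.C * (d i / 2) ^ (-(1 + 1 / (q : ℝ)))) →
      ∑ i ∈ Finset.range k, ‖c.δ N ((FN c N)^[i] w)‖ ≤ T * M ^ (-(1 / (q : ℝ))) := by
    intro k hk hi
    have b1 : ∑ i ∈ Finset.range k, ‖c.δ N ((FN c N)^[i] w)‖ ≤
        ∑ i ∈ Finset.range k, c.C * 2 ^ (1 + 1 / (q : ℝ)) * d i ^ (-(1 + 1 / (q : ℝ))) := by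
      apply Finset.sum_le_sum
      intro i hik
      refine (hi i (Finset.mem_range.1 hik)).trans (le_of_eq ?_)
      have hdi : 0 ≤ d i := by
        have := hdM i
        linarith
      rw [Real.div_rpow hdi (by norm_num), Real.rpow_neg (by norm_num : (0 : ℝ) ≤ 2), div_inv_eq_mul]
      ring
    refine b1.trans ?_
    rw [← Finset.mul_sum, hTdef, mul_assoc (c.C * 2 ^ (1 + 1 / (q : ℝ))) C1]
    apply mul_le_mul_of_nonneg_left _ (by positivity)
    refine hsum (qN q e N : ℝ) k M w.re d (by linarith) (by exact_mod_cast hk) (by linarith) ?_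
    intro i _
    refine ⟨hdM i, m i, ?_⟩
    rw [hd]
    exact le_max_right _ _
  have hmain : ∀ k : ℕ, k ≤ qN q e N →
      (FN c N)^[k] w - (w + k * (p * qN q e N + 1)) = ∑ i ∈ Finset.range k, c.δ N ((FN c N)^[i] w) ∧
      (∀ i < k, ‖c.δ N ((FN c N)^[i] w)‖ ≤ c.C * (d i / 2) ^ (-(1 + 1 / (q : ℝ)))) ∧
      (f (lN p q s e N))^[k] (c.W N w) = c.W N ((FN c N)^[k] w) := by
    intro k
    induction k with
    | zero =>
      intro _
      refine ⟨by simp, fun i hi => absurd hi (Nat.not_lt_zero i), by simp⟩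
    | succ k ih =>
      intro hk
      obtain ⟨c1, c2, c3⟩ := ih (by omega)
      have c4 := hSB k (by omega) c2
      have c5 : ‖(FN c N)^[k] w - (w + k * (p * qN q e N + 1))‖ ≤ 1 / 8 := by
        rw [c1]
        exact ((norm_sum_le _ _).trans c4).trans hMM
      obtain ⟨k1, k2, k3⟩ := hkey k _ c5
      refine ⟨?_, ?_, ?_⟩
      · rw [Finset.sum_range_succ, ← c1, Function.iterate_succ_apply']
        unfold FN
        push_cast
        ring
      · intro i hi
        rcases Nat.lt_succ_iff_lt_or_eq.1 hi with hi | hi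
        · exact c2 i hi
        · rw [hi]
          exact k3
      · rw [Function.iterate_succ_apply', c3, c.map N hN _ k1 k2, Function.iterate_succ_apply']
        congr 1
        unfold FN
        ring
  intro k hk
  obtain ⟨c1, c2, c3⟩ := hmain k hk
  have c4 := hSB k hk c2
  refine ⟨?_, c4, c3⟩
  rw [c1]
  exact (norm_sum_le _ _).trans c4

end Pool.Agent.CR
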