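import Pool.Agent.H24.CR.T0

/-!
# CR T1: the return map in the chart

`HN c N w = FN^[n] w - n (p n + 1)`, `n (p n + 1) = p_N (q n)` (`q_pN`), so `h_N (W N w) = W N (HN c N w)`.
`δ_per`: `map` at `w` and at `w + q n`; `W N (w + q n) = W N w` (`per`), so by `inj` the two image points (both in `Wd`, by `top_mem_Wd`)
differ by a multiple of `q n`; `‖δ N (w + q n) - δ N w‖ ≤ 1/4 < q n`. `FN_per`: from `δ_per` by induction on `|k|`.
`FN_iter_per`: induction on `j` (`FN_iter` with `M = M1` keeps the imaginary parts `≥ M1 - 1/8 > R + 1`).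
`HN_est`: `FN_iter` with `k = n`. `HN_W`: `FN_iter` (`k = n`) and `per` (`p_N` times). `FN_iter_diff`: induction, `δ_diff` on the open set `R + 1 < Im w`.
`HN_FN`: `FN^[n] (FN w) = FN (FN^[n] w)`, and `FN (x - p_N (q n)) = FN x - p_N (q n)` by `FN_per`.
-/

set_option autoImplicit false

open Set Filter Topology Metric

namespace Pool.Agent.CR

variable {p q s e : ℕ}

/-- constants of `FN_iter` -/
noncomputable def Chart.TT (c : Chart p q s e) (hq : 0 < q) : ℝ := (FN_iter hq c).choose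

noncomputable def Chart.M1 (c : Chart p q s e) (hq : 0 < q) : ℝ := (FN_iter hq c).choose_spec.choose

theorem Chart.TT_pos (c : Chart p q s e) (hq : 0 < q) : 0 < c.TT hq :=
  (FN_iter hq c).choose_spec.choose_spec.1

theorem Chart.M1_ge (c : Chart p q s e) (hq : 0 < q) : c.R + 8 ≤ c.M1 hq :=
  (FN_iter hq c).choose_spec.choose_spec.2.1

theorem Chart.M1_ge' (c : Chart p q s e) (hq : 0 < q) : 60 ≤ c.M1 hq :=
  (FN_iter hq c).choose_spec.choose_spec.2.2.1

theorem Chart.TT_le (c : Chart p q s e) (hq : 0 < q) :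
    ∀ M ≥ c.M1 hq, c.TT hq * M ^ (-(1 / (q : ℝ))) ≤ 1 / 8 :=
  (FN_iter hq c).choose_spec.choose_spec.2.2.2.1

theorem Chart.FN_est (c : Chart p q s e) (hq : 0 < q) :
    ∀ M ≥ c.M1 hq, ∀ N ≥ c.N0, ∀ w : ℂ, M ≤ w.im → ∀ k ≤ qN q e N,
      ‖(FN c N)^[k] w - (w + k * (p * qN q e N + 1))‖ ≤ c.TT hq * M ^ (-(1 / (q : ℝ))) ∧
      ∑ i ∈ Finset.range k, ‖c.δ N ((FN c N)^[i] w)‖ ≤ c.TT hq * M ^ (-(1 / (q : ℝ))) ∧
      (f (lN p q s e N))^[k] (c.W N w) = c.W N ((FN c N)^[k] w) :=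
  (FN_iter hq c).choose_spec.choose_spec.2.2.2.2

/-- the return map in the chart -/
noncomputable def HN (c : Chart p q s e) (N : ℕ) (w : ℂ) : ℂ :=
  (FN c N)^[qN q e N] w - qN q e N * (p * qN q e N + 1)

private theorem T1_top (c : Chart p q s e) (N : ℕ) {w : ℂ} (hw : c.R + 1 < w.im) :
    w ∈ Wd (qN q e N) c.R ∧ w + 1 ∈ Wi (qN q e N) c.R := by
  have hR := c.R_ge
  exact ⟨top_mem_Wd (r := c.R) (by linarith) le_rfl (by linarith), top_mem_Wi (by linarith) hw⟩

private theorem T1_n (c : Chart p q s e) {N : ℕ} (hN0 : c.N0 ≤ N) : (400 : ℝ) ≤ (qN q e N : ℝ) := by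
  have h1 := c.n_ge N hN0
  have h2 := c.R_ge
  linarith

private theorem T1_im {w x : ℂ} {d : ℝ} (h : ‖x - w‖ ≤ d) : w.im - d ≤ x.im := by
  have h1 := (Complex.abs_im_le_norm (x - w)).trans h
  rw [Complex.sub_im, abs_le] at h1
  linarith [h1.1]

theorem δ_per (hq : 0 < q) (c : Chart p q s e) {N : ℕ} (hN0 : c.N0 ≤ N) {w : ℂ} (hw : c.R + 1 < w.im) :
    c.δ N (w + q * qN q e N) = c.δ N w := by
  have hR := c.R_ge
  have hn := T1_n c hN0
  obtain ⟨w', hw'⟩ : ∃ w' : ℂ, w' = w + q * qN q e N := ⟨_, rfl⟩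
  rw [← hw']
  have him : w'.im = w.im := by
    rw [hw']
    simp
  have hwim' : c.R + 1 < w'.im := by rw [him]; exact hw
  obtain ⟨a1, a2⟩ := T1_top c N hw
  obtain ⟨b1, b2⟩ := T1_top c N hwim'
  have m1 := c.map N hN0 w a1 a2
  have m2 := c.map N hN0 w' b1 b2
  have hper := c.per N hN0 w a1
  rw [← hw'] at hper
  rw [hper, m1] at m2
  have d1 := (c.δ_small N hN0 w a1 a2).1
  have d2 := (c.δ_small N hN0 w' b1 b2).1
  have im1 : ∀ x : ℂ, (x + p * qN q e N + 1).im = x.im := by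
    intro x
    simp
  have t1 : w + p * qN q e N + 1 + c.δ N w ∈ Wd (qN q e N) c.R := by
    refine top_mem_Wd (r := c.R) (by linarith) le_rfl ?_
    have h1 := T1_im (w := w + p * qN q e N + 1) (x := w + p * qN q e N + 1 + c.δ N w) (d := 1 / 8)
      (by rw [add_sub_cancel_left]; exact d1)
    rw [im1] at h1
    linarith
  have t2 : w' + p * qN q e N + 1 + c.δ N w' ∈ Wd (qN q e N) c.R := by
    refine top_mem_Wd (r := c.R) (by linarith) le_rfl ?_
    have h1 := T1_im (w := w' + p * qN q e N + 1) (x := w' + p * qN q e N + 1 + c.δ N w')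
      (d := 1 / 8) (by rw [add_sub_cancel_left]; exact d2)
    rw [im1] at h1
    linarith
  obtain ⟨k, hk⟩ := c.inj N hN0 _ t1 _ t2 m2
  have h3 : c.δ N w' - c.δ N w = ((k - 1 : ℤ) : ℂ) * (q * qN q e N) := by
    rw [hw'] at hk ⊢
    push_cast
    linear_combination hk
  by_cases hk1 : k = 1
  · rw [hk1, sub_self, Int.cast_zero, zero_mul] at h3
    exact sub_eq_zero.1 h3
  · exfalso
    have h4 : ‖c.δ N w' - c.δ N w‖ ≤ 1 / 4 := by
      refine (norm_sub_le _ _).trans ?_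
      linarith
    rw [h3, norm_mul, norm_mul, Complex.norm_intCast, Complex.norm_natCast, Complex.norm_natCast]
      at h4
    have h5 : (1 : ℝ) ≤ |((k - 1 : ℤ) : ℝ)| := by
      have : 1 ≤ |k - 1| := Int.one_le_abs (by omega)
      exact_mod_cast this
    have h6 : (1 : ℝ) ≤ q := by exact_mod_cast hq
    have h7 : (1 : ℝ) * (1 * 400) ≤ |((k - 1 : ℤ) : ℝ)| * (q * qN q e N) := by
      refine mul_le_mul h5 ?_ (by norm_num) (by positivity)
      exact mul_le_mul h6 hn (by norm_num) (by positivity)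
    linarith

private theorem T1_δ_per_int (hq : 0 < q) (c : Chart p q s e) {N : ℕ} (hN0 : c.N0 ≤ N) {w : ℂ}
    (hw : c.R + 1 < w.im) (k : ℤ) : c.δ N (w + k * (q * qN q e N)) = c.δ N w := by
  have him : ∀ k : ℤ, (w + k * (q * qN q e N)).im = w.im := by
    intro k
    simp
  induction k using Int.induction_on with
  | zero => simp
  | succ m ih =>
    have h1 := δ_per hq c hN0 (w := w + ((m : ℤ) : ℂ) * (q * qN q e N)) (by rw [him]; exact hw)
    have e1 : w + (((m : ℤ) + 1 : ℤ) : ℂ) * (q * qN q e N) =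
        w + ((m : ℤ) : ℂ) * (q * qN q e N) + q * qN q e N := by
      push_cast
      ring
    rw [e1, h1, ih]
  | pred m ih =>
    have h1 := δ_per hq c hN0 (w := w + ((-(m : ℤ) - 1 : ℤ) : ℂ) * (q * qN q e N))
      (by rw [him]; exact hw)
    have e1 : w + ((-(m : ℤ) - 1 : ℤ) : ℂ) * (q * qN q e N) + q * qN q e N =
        w + ((-(m : ℤ) : ℤ) : ℂ) * (q * qN q e N) := by
      push_cast
      ring
    rw [e1, ih] at h1
    exact h1.symm

theorem FN_per (hq : 0 < q) (c : Chart p q s e) {N : ℕ} (hN0 : c.N0 ≤ N) {w : ℂ} (hw : c.R + 1 < w.im) (k : ℤ) :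
    FN c N (w + k * (q * qN q e N)) = FN c N w + k * (q * qN q e N) := by
  unfold FN
  rw [T1_δ_per_int hq c hN0 hw k]
  ring

/-- the imaginary parts of the iterates -/
private theorem T1_iter_im (hq : 0 < q) (c : Chart p q s e) {N : ℕ} (hN0 : c.N0 ≤ N) {w : ℂ}
    (hw : c.M1 hq ≤ w.im) {j : ℕ} (hj : j ≤ qN q e N) : w.im - 1 / 8 ≤ ((FN c N)^[j] w).im := by
  have h1 := (c.FN_est hq (c.M1 hq) le_rfl N hN0 w hw j hj).1.trans (c.TT_le hq _ le_rfl)
  have h2 := T1_im h1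
  have e1 : (w + j * (p * qN q e N + 1)).im = w.im := by simp
  rw [e1] at h2
  exact h2

private theorem T1_iter_im' (hq : 0 < q) (c : Chart p q s e) {N : ℕ} (hN0 : c.N0 ≤ N) {w : ℂ}
    (hw : c.M1 hq ≤ w.im) {j : ℕ} (hj : j ≤ qN q e N) : c.R + 1 < ((FN c N)^[j] w).im := by
  have h1 := T1_iter_im hq c hN0 hw hj
  have h2 := c.M1_ge hq
  linarith

theorem FN_iter_per (hq : 0 < q) (c : Chart p q s e) {N : ℕ} (hN0 : c.N0 ≤ N) {w : ℂ} (hw : c.M1 hq ≤ w.im) (k : ℤ)
    {j : ℕ} (hj : j ≤ qN q e N) :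
    (FN c N)^[j] (w + k * (q * qN q e N)) = (FN c N)^[j] w + k * (q * qN q e N) := by
  induction j with
  | zero => rfl
  | succ j ih =>
    rw [Function.iterate_succ_apply', Function.iterate_succ_apply', ih (by omega),
      FN_per hq c hN0 (T1_iter_im' hq c hN0 hw (by omega))]

private theorem T1_Wd_shift {n R : ℝ} {w : ℂ} (hw : w ∈ Wd n R) (m : ℤ) : w + m * n ∈ Wd n R := by
  intro k
  obtain ⟨h1, h2⟩ := hw (k - m)
  have e1 : w + m * n - k * n = w - ((k - m : ℤ) : ℂ) * n := by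
    push_cast
    ring
  have e2 : (w + m * n).im = w.im := by simp
  have e3 : (w + m * n).re - k * n = w.re - ((k - m : ℤ) : ℝ) * n := by
    simp
    ring
  rw [e1, e2, e3]
  exact ⟨h1, h2⟩

theorem W_per_int (c : Chart p q s e) {N : ℕ} (hN0 : c.N0 ≤ N) {w : ℂ} (hw : w ∈ Wd (qN q e N) c.R) (k : ℤ) :
    c.W N (w + k * (q * qN q e N)) = c.W N w := by
  have hsh : ∀ k : ℤ, w + k * (q * qN q e N) ∈ Wd (qN q e N) c.R := by
    intro k
    have h1 := T1_Wd_shift hw (k * q)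
    have e1 : w + ((k * q : ℤ) : ℂ) * ((qN q e N : ℝ) : ℂ) = w + k * (q * qN q e N) := by
      push_cast
      ring
    rwa [e1] at h1
  induction k using Int.induction_on with
  | zero => simp
  | succ m ih =>
    have h1 := c.per N hN0 _ (hsh (m : ℤ))
    have e1 : w + (((m : ℤ) + 1 : ℤ) : ℂ) * (q * qN q e N) =
        w + ((m : ℤ) : ℂ) * (q * qN q e N) + q * qN q e N := by
      push_cast
      ring
    rw [e1, h1, ih]
  | pred m ih =>
    have h1 := c.per N hN0 _ (hsh (-(m : ℤ) - 1))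
    have e1 : w + ((-(m : ℤ) - 1 : ℤ) : ℂ) * (q * qN q e N) + q * qN q e N =
        w + ((-(m : ℤ) : ℤ) : ℂ) * (q * qN q e N) := by
      push_cast
      ring
    rw [e1, ih] at h1
    exact h1.symm

theorem HN_est (hq : 0 < q) (c : Chart p q s e) {N : ℕ} (hN0 : c.N0 ≤ N) {M : ℝ} (hM : c.M1 hq ≤ M) {w : ℂ}
    (hw : M ≤ w.im) : ‖HN c N w - w‖ ≤ c.TT hq * M ^ (-(1 / (q : ℝ))) := by
  have h1 := (c.FN_est hq M hM N hN0 w hw (qN q e N) le_rfl).1
  have e1 : HN c N w - w = (FN c N)^[qN q e N] w - (w + qN q e N * (p * qN q e N + 1)) := by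
    unfold HN
    ring
  rw [e1]
  exact h1

/-- `HN = FN^[n] - p_N (q n)` -/
private theorem T1_HN_eq (hs : q * s = p * e + 1) (c : Chart p q s e) (N : ℕ) (w : ℂ) :
    HN c N w = (FN c N)^[qN q e N] w + ((-(pN p s N : ℤ) : ℤ) : ℂ) * (q * qN q e N) := by
  have h1 : ((q : ℂ) * pN p s N) = p * qN q e N + 1 := by
    have := q_pN hs N
    exact_mod_cast this
  unfold HN
  push_cast
  linear_combination (-(qN q e N : ℂ)) * (-h1)

theorem HN_W (hq : 0 < q) (hs : q * s = p * e + 1) (c : Chart p q s e) {N : ℕ} (hN0 : c.N0 ≤ N) {w : ℂ}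
    (hw : c.M1 hq ≤ w.im) : hN p q s e N (c.W N w) = c.W N (HN c N w) := by
  have h1 := (c.FN_est hq (c.M1 hq) le_rfl N hN0 w hw (qN q e N) le_rfl).2.2
  have h2 := T1_iter_im' hq c hN0 hw (le_refl (qN q e N))
  rw [T1_HN_eq hs, W_per_int c hN0 (T1_top c N h2).1]
  exact h1

theorem HN_per (hq : 0 < q) (c : Chart p q s e) {N : ℕ} (hN0 : c.N0 ≤ N) {w : ℂ} (hw : c.M1 hq ≤ w.im) (k : ℤ) :
    HN c N (w + k * (q * qN q e N)) = HN c N w + k * (q * qN q e N) := by
  unfold HN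
  rw [FN_iter_per hq c hN0 hw k le_rfl]
  ring

private theorem T1_FN_diff (c : Chart p q s e) {N : ℕ} (hN0 : c.N0 ≤ N) {x : ℂ}
    (hx : c.R + 1 < x.im) : DifferentiableAt ℂ (FN c N) x := by
  have hopen : IsOpen {w : ℂ | c.R + 1 < w.im} := isOpen_lt continuous_const Complex.continuous_im
  have h1 : DifferentiableAt ℂ (c.δ N) x := by
    refine (c.δ_diff N hN0).differentiableAt ?_
    exact Filter.mem_of_superset (hopen.mem_nhds hx) fun w hw => T1_top c N hw
  unfold FN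
  exact (differentiableAt_id.add_const _).add h1

theorem FN_iter_diff (hq : 0 < q) (c : Chart p q s e) {N : ℕ} (hN0 : c.N0 ≤ N) {k : ℕ} (hk : k ≤ qN q e N) :
    DifferentiableOn ℂ ((FN c N)^[k]) {w | c.M1 hq < w.im} := by
  induction k with
  | zero => exact differentiableOn_id
  | succ k ih =>
    intro w hw
    have h1 := ih (by omega) w hw
    have h2 := T1_iter_im' hq c hN0 (le_of_lt hw) (show k ≤ qN q e N by omega)
    have h3 : (FN c N)^[k + 1] = FN c N ∘ (FN c N)^[k] := Function.iterate_succ' _ _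
    rw [h3]
    exact (T1_FN_diff c hN0 h2).comp_differentiableWithinAt w h1

theorem HN_diff (hq : 0 < q) (c : Chart p q s e) {N : ℕ} (hN0 : c.N0 ≤ N) :
    DifferentiableOn ℂ (HN c N) {w | c.M1 hq < w.im} :=
  (FN_iter_diff hq c hN0 le_rfl).sub_const _

theorem HN_FN (hq : 0 < q) (hs : q * s = p * e + 1) (c : Chart p q s e) {N : ℕ} (hN0 : c.N0 ≤ N) {w : ℂ}
    (hw : c.M1 hq + 1 ≤ w.im) : HN c N (FN c N w) = FN c N (HN c N w) := by
  have h1 := T1_iter_im' hq c hN0 (w := w) (by linarith) (le_refl (qN q e N))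
  rw [T1_HN_eq hs, T1_HN_eq hs, FN_per hq c hN0 h1, ← Function.iterate_succ_apply,
    Function.iterate_succ_apply']

end Pool.Agent.CR
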