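import Pool.Agent.H24.CR.T1

/-!
# CR T2: the displacement of the return map is nearly invariant

`EN c N w = HN c N w - w`, `XN q e N w = exp (2 π i (w + n) / q)`, `QN = EN / XN`.

`δ_lip`: for `Im w ≥ 4`-large and `‖x‖ ≤ 1/2`: `‖δ N (w + x) - δ N w‖ ≤ 2 C (d - 1)^(-(1+1/q)) ‖x‖` if all distances of `w` to the holes are `≥ d`
(`near_id_ball` for `g w' = w' + δ N w'` on `ball w 1`; `δ_diff`, `δ_small` with `r = d - 1`; `g w' - g w'' - (w' - w'')` is the difference of the `δ`s).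

`EN_FN`: let `w_i = FN^[i] w`, `i ≤ k ≤ n`, `Im w ≥ M`. By `HN_FN` (all `Im w_i ≥ M - 1/8`; take `M2 ≥ M1 + 2`)
`EN w_{i+1} = FN (w_i + EN w_i) - FN w_i = EN w_i + δ N (w_i + EN w_i) - δ N w_i`, `‖EN w_i‖ ≤ 1/8`, so `‖EN w_{i+1} - EN w_i‖ ≤ θ_i ‖EN w_i‖`,
`θ_i = 2 C (d_i / 4)^(-(1+1/q))`, where (as in `FN_iter`) `d_i = max M |Re w + i - m_i n|` and all distances of `w_i` to the holes are `≥ d_i / 2 ≥ d_i / 4 + 1`; `∑ θ_i ≤ T' M^(-1/q)` by `sum_bound`; for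
`M ≥ M2` this is `≤ 1/2`, and `‖EN w_k - EN w‖ ≤ (∏ (1 + θ_i) - 1) ‖EN w‖ ≤ (exp (∑ θ_i) - 1) ‖EN w‖ ≤ 2 (∑ θ_i) ‖EN w‖` (induction).

`XN_FN`: `FN^[k] w = w + k (p n + 1) + ∑ δ_i` and `k (p n + 1) = k q p_N`, so `XN (FN^[k] w) = XN w * exp (2 π i (∑ δ_i) / q)`,
`‖∑ δ_i‖ ≤ TT M^(-1/q) ≤ 1/8`, `‖exp x - 1‖ ≤ 2 ‖x‖` for `‖x‖ ≤ 1`. `QN_FN`: combine (`a = EN_k/EN`, `b = XN_k/XN`, `a/b - 1 = (a - b)/b`).
-/

set_option autoImplicit false

open Set Filter Topology Metric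

namespace Pool.Agent.CR

variable {p q s e : ℕ}

/-- the displacement -/
noncomputable def EN (c : Chart p q s e) (N : ℕ) (w : ℂ) : ℂ := HN c N w - w

/-- the coordinate `X` at the top, with origin at the hole `-1` -/
noncomputable def XN (q e N : ℕ) (w : ℂ) : ℂ := Complex.exp (2 * Real.pi * Complex.I * (w + qN q e N) / q)

noncomputable def QN (c : Chart p q s e) (N : ℕ) (w : ℂ) : ℂ := EN c N w / XN q e N w

theorem δ_lip (hq : 0 < q) (c : Chart p q s e) {N : ℕ} (hN0 : c.N0 ≤ N) {w x : ℂ} {d : ℝ} (hw : c.R + 3 < w.im)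
    (hd : c.R + 1 ≤ d) (hd' : ∀ k : ℤ, d ≤ ‖w - k * qN q e N‖) (hx : ‖x‖ < 1 / 2) :
    ‖c.δ N (w + x) - c.δ N w‖ ≤ 2 * c.C * (d - 1) ^ (-(1 + 1 / (q : ℝ))) * ‖x‖ := by
  have _ := hq
  have hR := c.R_ge
  have him : ∀ w' ∈ ball w 1, c.R + 1 < w'.im := by
    intro w' hw'
    rw [mem_ball, dist_eq_norm] at hw'
    have h1 : |(w' - w).im| ≤ ‖w' - w‖ := Complex.abs_im_le_norm _
    rw [Complex.sub_im] at h1
    have h2 := (abs_le.1 (h1.trans hw'.le)).1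
    linarith
  have hWd : ∀ w' ∈ ball w 1, w' ∈ Wd (qN q e N) c.R := fun w' hw' =>
    top_mem_Wd (by linarith) (by linarith : c.R ≤ c.R + 1) (him w' hw')
  have hWi : ∀ w' ∈ ball w 1, w' + 1 ∈ Wi (qN q e N) c.R := fun w' hw' =>
    top_mem_Wi (by linarith) (him w' hw')
  have h1 : DifferentiableOn ℂ (fun w' => w' + c.δ N w') (ball w 1) := by
    refine differentiableOn_id.add ((c.δ_diff N hN0).mono ?_)
    intro w' hw'
    exact ⟨hWd w' hw', hWi w' hw'⟩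
  have h2 : ∀ w' ∈ ball w 1, ‖(fun w' => w' + c.δ N w') w' - w'‖ ≤ c.C * (d - 1) ^ (-(1 + 1 / (q : ℝ))) := by
    intro w' hw'
    have h3 := (c.δ_small N hN0 w' (hWd w' hw') (hWi w' hw')).2 (d - 1) (by linarith) (by
      intro k
      have h4 := hd' k
      rw [mem_ball, dist_eq_norm] at hw'
      have h5 : ‖w - k * qN q e N‖ ≤ ‖w' - k * qN q e N‖ + ‖w' - w‖ := by
        have h6 : w - k * qN q e N = (w' - k * qN q e N) - (w' - w) := by ring
        rw [h6]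
        exact norm_sub_le _ _
      linarith)
    have h4 : (fun w' => w' + c.δ N w') w' - w' = c.δ N w' := by
      show w' + c.δ N w' - w' = c.δ N w'
      ring
    rw [h4]
    exact h3
  have h3 := near_id_ball h1 h2 (w + x) (by
    rw [mem_ball, dist_eq_norm]
    have h4 : w + x - w = x := by ring
    rw [h4]
    exact hx) w (mem_ball_self (by norm_num))
  have h4 : (fun w' => w' + c.δ N w') (w + x) - (fun w' => w' + c.δ N w') w - (w + x - w)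
      = c.δ N (w + x) - c.δ N w := by
    show w + x + c.δ N (w + x) - (w + c.δ N w) - (w + x - w) = _
    ring
  have h5 : w + x - w = x := by ring
  rw [h4, h5] at h3
  calc ‖c.δ N (w + x) - c.δ N w‖ ≤ 2 * (c.C * (d - 1) ^ (-(1 + 1 / (q : ℝ)))) * ‖x‖ := h3
    _ = _ := by ring

/-- a discrete Gronwall inequality -/
private theorem T2_gronwall (a : ℕ → ℂ) (θ : ℕ → ℝ) (k : ℕ) (hθ : ∀ i < k, 0 ≤ θ i)
    (h : ∀ i < k, ‖a (i + 1) - a i‖ ≤ θ i * ‖a i‖) :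
    ‖a k - a 0‖ ≤ (Real.exp (∑ i ∈ Finset.range k, θ i) - 1) * ‖a 0‖ := by
  induction k with
  | zero => simp
  | succ k ih =>
    have ih' := ih (fun i hi => hθ i (by omega)) fun i hi => h i (by omega)
    have h1 := h k (by omega)
    have h0 := hθ k (by omega)
    rw [Finset.sum_range_succ]
    obtain ⟨S, hS⟩ : ∃ S : ℝ, S = ∑ i ∈ Finset.range k, θ i := ⟨_, rfl⟩
    rw [← hS] at ih' ⊢
    have h2 : ‖a (k + 1) - a 0‖ ≤ ‖a (k + 1) - a k‖ + ‖a k - a 0‖ :=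
      norm_sub_le_norm_sub_add_norm_sub _ _ _
    have h3 : ‖a k‖ ≤ ‖a 0‖ + ‖a k - a 0‖ := by
      have h4 : a k = a 0 + (a k - a 0) := by ring
      calc ‖a k‖ = ‖a 0 + (a k - a 0)‖ := by rw [← h4]
        _ ≤ _ := norm_add_le _ _
    have h4 : ‖a k‖ ≤ Real.exp S * ‖a 0‖ := by linarith
    have h5 : θ k * ‖a k‖ ≤ θ k * (Real.exp S * ‖a 0‖) := mul_le_mul_of_nonneg_left h4 h0
    have h6 : (1 + θ k) * Real.exp S ≤ Real.exp (S + θ k) := by
      rw [Real.exp_add, mul_comm]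
      exact mul_le_mul_of_nonneg_left (by linarith [Real.add_one_le_exp (θ k)]) (Real.exp_pos S).le
    have h7 := mul_le_mul_of_nonneg_right h6 (norm_nonneg (a 0))
    calc ‖a (k + 1) - a 0‖ ≤ θ k * (Real.exp S * ‖a 0‖) + (Real.exp S - 1) * ‖a 0‖ := by linarith
      _ = (1 + θ k) * Real.exp S * ‖a 0‖ - ‖a 0‖ := by ring
      _ ≤ Real.exp (S + θ k) * ‖a 0‖ - ‖a 0‖ := by linarith
      _ = _ := by ring

private theorem T2_exp {S : ℝ} (h0 : 0 ≤ S) (h1 : S ≤ 1 / 2) : Real.exp S - 1 ≤ 2 * S := by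
  have h2 := Real.exp_bound_div_one_sub_of_interval h0 (by linarith : S < 1)
  have h3 : 1 / (1 - S) - 1 ≤ 2 * S := by
    have h4 : (0 : ℝ) < 1 - S := by linarith
    rw [sub_le_iff_le_add, div_le_iff₀ h4]
    nlinarith
  linarith

/-- distances to the holes along the orbit -/
private theorem T2_dist {n M : ℝ} (hn : 1 ≤ n) (hM : 4 ≤ M) {w z : ℂ} (hw : M ≤ w.im) (i : ℕ) (p : ℕ)
    (hz : ‖z - (w + i * (p * n + 1))‖ ≤ 1 / 8) (m : ℤ) :
    max M |w.re + i - round ((w.re + i) / n) * n| / 2 ≤ ‖z - m * n‖ := by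
  have hn0 : 0 < n := by linarith
  have him : |(z - (w + i * (p * n + 1))).im| ≤ 1 / 8 := (Complex.abs_im_le_norm _).trans hz
  have hre : |(z - (w + i * (p * n + 1))).re| ≤ 1 / 8 := (Complex.abs_re_le_norm _).trans hz
  have e1 : (z - (w + i * (p * n + 1))).im = z.im - w.im := by
    simp [Complex.sub_im, Complex.add_im, Complex.mul_im]
  have e2 : (z - (w + i * (p * n + 1))).re = z.re - (w.re + i * (p * n + 1)) := by
    simp [Complex.sub_re, Complex.add_re, Complex.mul_re]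
  rw [e1] at him
  rw [e2] at hre
  have h1 : |(z - m * n).im| ≤ ‖z - m * n‖ := Complex.abs_im_le_norm _
  have h2 : |(z - m * n).re| ≤ ‖z - m * n‖ := Complex.abs_re_le_norm _
  have e3 : (z - m * n).im = z.im := by
    simp [Complex.sub_im, Complex.mul_im]
  have e4 : (z - m * n).re = z.re - m * n := by
    simp [Complex.sub_re, Complex.mul_re]
  rw [e3] at h1
  rw [e4] at h2
  have h3 : M - 1 / 8 ≤ ‖z - m * n‖ := by
    have h4 := (abs_le.1 him).1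
    have h5 := le_abs_self z.im
    linarith
  have h4 : |w.re + i - round ((w.re + i) / n) * n| ≤ |w.re + i - ((m - i * p : ℤ) : ℝ) * n| := by
    have h5 := round_le ((w.re + i) / n) (m - i * p : ℤ)
    have h6 : ∀ t : ℝ, |w.re + i - t * n| = |(w.re + i) / n - t| * n := by
      intro t
      rw [← abs_of_pos hn0, ← abs_mul, abs_of_pos hn0]
      congr 1
      field_simp
    rw [h6, h6]
    exact mul_le_mul_of_nonneg_right h5 hn0.le
  have h5 : |w.re + i - ((m - i * p : ℤ) : ℝ) * n| ≤ |z.re - m * n| + 1 / 8 := by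
    have h6 : w.re + i - ((m - i * p : ℤ) : ℝ) * n
        = (z.re - m * n) - (z.re - (w.re + i * (p * n + 1))) := by
      push_cast
      ring
    rw [h6]
    exact (abs_sub _ _).trans (by linarith)
  rcases max_cases M |w.re + i - round ((w.re + i) / n) * n| with h | h
  · rw [h.1]
    linarith
  · rw [h.1]
    linarith

theorem EN_FN (hq : 0 < q) (hs : q * s = p * e + 1) (c : Chart p q s e) : ∃ T M2 : ℝ, 0 < T ∧ c.M1 hq + 2 ≤ M2 ∧
    ∀ M ≥ M2, ∀ N ≥ c.N0, ∀ w : ℂ, M ≤ w.im → ∀ k ≤ qN q e N,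
      ‖EN c N ((FN c N)^[k] w) - EN c N w‖ ≤ T * M ^ (-(1 / (q : ℝ))) * ‖EN c N w‖ := by
  have hq0 : (0 : ℝ) < q := Nat.cast_pos.2 hq
  have ha : (0 : ℝ) < 1 / (q : ℝ) := by positivity
  have hR := c.R_ge
  have hC := c.C_pos
  obtain ⟨CS, hCS, hsum⟩ := sum_bound ha
  obtain ⟨K, hK⟩ : ∃ K : ℝ, K = 2 * c.C * (4 : ℝ) ^ (1 + 1 / (q : ℝ)) := ⟨_, rfl⟩
  have hK0 : 0 < K := by
    rw [hK]
    positivity
  have hten : Tendsto (fun M : ℝ => K * CS * M ^ (-(1 / (q : ℝ)))) atTop (𝓝 (K * CS * 0)) :=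
    (tendsto_rpow_neg_atTop ha).const_mul _
  rw [mul_zero] at hten
  obtain ⟨M0, hM0⟩ := eventually_atTop.1 (hten.eventually (gt_mem_nhds (by norm_num : (0 : ℝ) < 1 / 2)))
  refine ⟨2 * (K * CS), max (c.M1 hq + 2) (max M0 (2 * c.R + 4)), by positivity, le_max_left _ _, ?_⟩
  intro M hM N hN w hw k hk
  have hM1 : c.M1 hq + 2 ≤ M := (le_max_left _ _).trans hM
  have hM2 : M0 ≤ M := ((le_max_left _ _).trans (le_max_right _ _)).trans hM
  have hM3 : 2 * c.R + 4 ≤ M := ((le_max_right _ _).trans (le_max_right _ _)).trans hM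
  have hS2 : K * CS * M ^ (-(1 / (q : ℝ))) < 1 / 2 := hM0 M hM2
  have hM60 := c.M1_ge' hq
  have hMR := c.M1_ge hq
  have hMpos : 0 < M := by linarith
  have hn1 : (1 : ℝ) ≤ (qN q e N : ℝ) := by
    have := c.n_ge N hN
    linarith
  -- the orbit
  have horb : ∀ i ≤ k, ‖(FN c N)^[i] w - (w + i * (p * qN q e N + 1))‖ ≤ 1 / 8 := by
    intro i hi
    exact ((c.FN_est hq M (by linarith) N hN w hw i (hi.trans hk)).1).trans (c.TT_le hq M (by linarith))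
  have him : ∀ i ≤ k, M - 1 / 8 ≤ ((FN c N)^[i] w).im := by
    intro i hi
    have h1 : |((FN c N)^[i] w - (w + i * (p * qN q e N + 1))).im| ≤ 1 / 8 :=
      (Complex.abs_im_le_norm _).trans (horb i hi)
    have e1 : ((FN c N)^[i] w - (w + i * (p * qN q e N + 1))).im = ((FN c N)^[i] w).im - w.im := by
      simp [Complex.sub_im, Complex.add_im, Complex.mul_im]
    rw [e1] at h1
    have h2 := (abs_le.1 h1).1
    linarith
  have hEN : ∀ i ≤ k, ‖EN c N ((FN c N)^[i] w)‖ ≤ 1 / 8 := by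
    intro i hi
    have h1 := HN_est hq c hN (le_refl (c.M1 hq)) (w := (FN c N)^[i] w) (by
      have := him i hi
      linarith)
    exact h1.trans (c.TT_le hq _ le_rfl)
  obtain ⟨D, hD⟩ : ∃ D : ℕ → ℝ, ∀ i, D i = max M |w.re + i - round ((w.re + i) / (qN q e N : ℝ)) * (qN q e N : ℝ)| :=
    ⟨fun i => max M |w.re + i - round ((w.re + i) / (qN q e N : ℝ)) * (qN q e N : ℝ)|, fun i => rfl⟩
  have hDM : ∀ i, M ≤ D i := fun i => by
    rw [hD]
    exact le_max_left _ _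
  obtain ⟨θ, hθ⟩ : ∃ θ : ℕ → ℝ, ∀ i, θ i = K * D i ^ (-(1 + 1 / (q : ℝ))) :=
    ⟨fun i => K * D i ^ (-(1 + 1 / (q : ℝ))), fun i => rfl⟩
  have hθ0 : ∀ i, 0 ≤ θ i := by
    intro i
    rw [hθ]
    have := hDM i
    exact mul_nonneg hK0.le (Real.rpow_nonneg (by linarith) _)
  have hstep : ∀ i < k, ‖EN c N ((FN c N)^[i + 1] w) - EN c N ((FN c N)^[i] w)‖
      ≤ θ i * ‖EN c N ((FN c N)^[i] w)‖ := by
    intro i hi
    obtain ⟨z, hz⟩ : ∃ z : ℂ, z = (FN c N)^[i] w := ⟨_, rfl⟩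
    have horbi := horb i hi.le
    have himi := him i hi.le
    have hENi := hEN i hi.le
    rw [← hz] at horbi himi hENi
    rw [Function.iterate_succ_apply', ← hz]
    have h1 : EN c N (FN c N z) - EN c N z = c.δ N (z + EN c N z) - c.δ N z := by
      have h2 : HN c N (FN c N z) = FN c N (HN c N z) := HN_FN hq hs c hN (by linarith)
      have h3 : HN c N z = z + EN c N z := by
        unfold EN
        ring
      have h4 : EN c N (FN c N z) = FN c N (z + EN c N z) - FN c N z := by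
        rw [← h3, ← h2]
        rfl
      rw [h4]
      unfold FN
      ring
    have hDi := hDM i
    have h2 := δ_lip hq c hN (w := z) (x := EN c N z) (d := D i / 2) (by linarith) (by linarith) (by
      intro m
      rw [hD]
      exact T2_dist hn1 (by linarith) hw i p (by
        have h3 : ((p * (qN q e N : ℝ) + 1 : ℝ) : ℂ) = (p * qN q e N + 1 : ℂ) := by push_cast; ring
        have h4 : (p * ((qN q e N : ℝ) : ℂ) + 1 : ℂ) = (p * qN q e N + 1 : ℂ) := by push_cast; ring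
        rw [h4]
        exact horbi) m) (by linarith)
    rw [h1]
    refine h2.trans (mul_le_mul_of_nonneg_right ?_ (norm_nonneg _))
    rw [hθ, hK, mul_assoc (2 * c.C)]
    refine mul_le_mul_of_nonneg_left ?_ (by positivity)
    have h3 : (D i / 2 - 1) ^ (-(1 + 1 / (q : ℝ))) ≤ (D i / 4) ^ (-(1 + 1 / (q : ℝ))) :=
      Real.rpow_le_rpow_of_nonpos (by linarith) (by linarith) (by linarith)
    refine h3.trans (le_of_eq ?_)
    rw [Real.div_rpow (by linarith) (by norm_num), Real.rpow_neg (by norm_num : (0 : ℝ) ≤ 4), div_inv_eq_mul,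
      mul_comm]
  have hD2 : ∀ i < k, M ≤ D i ∧ ∃ m : ℤ, |w.re + i - m * (qN q e N : ℝ)| ≤ D i := by
    intro i _
    refine ⟨hDM i, round ((w.re + i) / (qN q e N : ℝ)), ?_⟩
    rw [hD]
    exact le_max_right _ _
  have hsum' := hsum (qN q e N : ℝ) k M w.re D hn1 (Nat.cast_le.2 hk) (by linarith) hD2
  have hSg : ∑ i ∈ Finset.range k, θ i ≤ K * CS * M ^ (-(1 / (q : ℝ))) := by
    calc ∑ i ∈ Finset.range k, θ i = K * ∑ i ∈ Finset.range k, D i ^ (-(1 + 1 / (q : ℝ))) := by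
          rw [Finset.mul_sum]
          exact Finset.sum_congr rfl fun i _ => hθ i
      _ ≤ K * (CS * M ^ (-(1 / (q : ℝ)))) := mul_le_mul_of_nonneg_left hsum' hK0.le
      _ = _ := by ring
  have hg := T2_gronwall (fun i => EN c N ((FN c N)^[i] w)) θ k (fun i _ => hθ0 i) hstep
  have hSg0 : 0 ≤ ∑ i ∈ Finset.range k, θ i := Finset.sum_nonneg fun i _ => hθ0 i
  have h1 := T2_exp hSg0 (by linarith)
  refine hg.trans (mul_le_mul_of_nonneg_right ?_ (norm_nonneg _))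
  linarith

theorem XN_FN (hq : 0 < q) (hs : q * s = p * e + 1) (c : Chart p q s e) {N : ℕ} (hN0 : c.N0 ≤ N) {M : ℝ}
    (hM : c.M1 hq ≤ M) {w : ℂ} (hw : M ≤ w.im) {k : ℕ} (hk : k ≤ qN q e N) :
    ‖XN q e N ((FN c N)^[k] w) - XN q e N w‖ ≤ 16 * (c.TT hq * M ^ (-(1 / (q : ℝ)))) * ‖XN q e N w‖ := by
  have hq0 : (0 : ℝ) < q := Nat.cast_pos.2 hq
  have hqC : (q : ℂ) ≠ 0 := Nat.cast_ne_zero.2 hq.ne'
  have hq1 : (1 : ℝ) ≤ q := by exact_mod_cast hq
  have h1 := (c.FN_est hq M hM N hN0 w hw k hk).1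
  have h2 := c.TT_le hq M hM
  obtain ⟨E, hE⟩ : ∃ E : ℂ, E = (FN c N)^[k] w - (w + k * (p * qN q e N + 1)) := ⟨_, rfl⟩
  rw [← hE] at h1
  have h3 : XN q e N ((FN c N)^[k] w) = XN q e N w * Complex.exp (2 * Real.pi * Complex.I * E / q) := by
    unfold XN
    have h4 : (FN c N)^[k] w = w + k * (p * qN q e N + 1) + E := by
      rw [hE]
      ring
    have h5 : ((p : ℂ) * qN q e N + 1) = q * pN p s N := by
      have := q_pN hs N
      exact_mod_cast this.symm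
    have h6 : 2 * Real.pi * Complex.I * ((FN c N)^[k] w + qN q e N) / q
        = 2 * Real.pi * Complex.I * (w + qN q e N) / q + 2 * Real.pi * Complex.I * E / q
          + ((k * pN p s N : ℕ) : ℂ) * (2 * Real.pi * Complex.I) := by
      rw [h4, h5]
      push_cast
      field_simp
      ring
    rw [h6, Complex.exp_add, Complex.exp_nat_mul_two_pi_mul_I, mul_one, Complex.exp_add]
  have h4 : ‖2 * Real.pi * Complex.I * E / q‖ ≤ 8 * (c.TT hq * M ^ (-(1 / (q : ℝ)))) := by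
    rw [norm_div, norm_mul, norm_mul, norm_mul, Complex.norm_I, Complex.norm_real, Complex.norm_natCast,
      Real.norm_of_nonneg Real.pi_pos.le, RCLike.norm_ofNat, mul_one, div_le_iff₀ hq0]
    have h5 := Real.pi_lt_four
    have h6 : 2 * Real.pi * ‖E‖ ≤ 8 * ‖E‖ := mul_le_mul_of_nonneg_right (by linarith) (norm_nonneg _)
    have h7 : 0 ≤ c.TT hq * M ^ (-(1 / (q : ℝ))) := (norm_nonneg _).trans h1
    nlinarith
  have h5 : ‖2 * Real.pi * Complex.I * E / q‖ ≤ 1 := by linarith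
  have h6 := Complex.norm_exp_sub_one_le h5
  have h7 : XN q e N ((FN c N)^[k] w) - XN q e N w
      = (Complex.exp (2 * Real.pi * Complex.I * E / q) - 1) * XN q e N w := by
    rw [h3]
    ring
  rw [h7, norm_mul]
  exact mul_le_mul_of_nonneg_right (by linarith) (norm_nonneg _)

theorem QN_FN (hq : 0 < q) (hs : q * s = p * e + 1) (c : Chart p q s e) : ∃ T M2 : ℝ, 0 < T ∧ c.M1 hq + 2 ≤ M2 ∧
    (∀ M ≥ M2, T * M ^ (-(1 / (q : ℝ))) ≤ 1 / 8) ∧
    ∀ M ≥ M2, ∀ N ≥ c.N0, ∀ w : ℂ, M ≤ w.im → ∀ k ≤ qN q e N,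
      ‖QN c N ((FN c N)^[k] w) - QN c N w‖ ≤ T * M ^ (-(1 / (q : ℝ))) * ‖QN c N w‖ := by
  have hq0 : (0 : ℝ) < q := Nat.cast_pos.2 hq
  have ha : (0 : ℝ) < 1 / (q : ℝ) := by positivity
  obtain ⟨T1, M1, hT1, hM1, hEN⟩ := EN_FN hq hs c
  have hTT := c.TT_pos hq
  obtain ⟨T, hT⟩ : ∃ T : ℝ, T = 2 * (T1 + 16 * c.TT hq) := ⟨_, rfl⟩
  have hT0 : 0 < T := by
    rw [hT]
    positivity
  have hten : Tendsto (fun M : ℝ => T * M ^ (-(1 / (q : ℝ)))) atTop (𝓝 (T * 0)) :=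
    (tendsto_rpow_neg_atTop ha).const_mul _
  rw [mul_zero] at hten
  obtain ⟨M0, hM0⟩ := eventually_atTop.1 (hten.eventually (gt_mem_nhds (by norm_num : (0 : ℝ) < 1 / 8)))
  refine ⟨T, max M1 M0, hT0, hM1.trans (le_max_left _ _),
    fun M hM => (hM0 M ((le_max_right _ _).trans hM)).le, ?_⟩
  intro M hM N hN w hw k hk
  have hMM1 : M1 ≤ M := (le_max_left _ _).trans hM
  have hsmall : T * M ^ (-(1 / (q : ℝ))) < 1 / 8 := hM0 M ((le_max_right _ _).trans hM)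
  have h1 := hEN M hMM1 N hN w hw k hk
  have h2 := XN_FN hq hs c hN (by linarith : c.M1 hq ≤ M) hw hk
  have hM60 := c.M1_ge' hq
  have hr : 0 < M ^ (-(1 / (q : ℝ))) := Real.rpow_pos_of_pos (by linarith) _
  obtain ⟨r, hr'⟩ : ∃ r : ℝ, r = M ^ (-(1 / (q : ℝ))) := ⟨_, rfl⟩
  rw [← hr'] at h1 h2 hr hsmall ⊢
  unfold QN
  obtain ⟨a, ha'⟩ : ∃ a : ℂ, a = EN c N ((FN c N)^[k] w) := ⟨_, rfl⟩
  obtain ⟨a0, ha0⟩ : ∃ a : ℂ, a = EN c N w := ⟨_, rfl⟩
  obtain ⟨b, hb⟩ : ∃ a : ℂ, a = XN q e N ((FN c N)^[k] w) := ⟨_, rfl⟩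
  obtain ⟨b0, hb0⟩ : ∃ a : ℂ, a = XN q e N w := ⟨_, rfl⟩
  rw [← ha', ← ha0] at h1
  rw [← hb, ← hb0] at h2
  rw [← ha', ← ha0, ← hb, ← hb0]
  have hb1 : b ≠ 0 := by
    rw [hb]
    exact Complex.exp_ne_zero _
  have hb2 : b0 ≠ 0 := by
    rw [hb0]
    exact Complex.exp_ne_zero _
  have hB0 : 0 < ‖b0‖ := norm_pos_iff.2 hb2
  have hB : 0 < ‖b‖ := norm_pos_iff.2 hb1
  have h3 : 16 * (c.TT hq * r) ≤ 1 / 2 := by
    have : 16 * (c.TT hq * r) ≤ T * r := by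
      rw [hT]
      nlinarith [mul_pos hT1 hr, mul_pos hTT hr]
    linarith
  have h4 : ‖b0‖ / 2 ≤ ‖b‖ := by
    have h5 : ‖b0‖ ≤ ‖b‖ + ‖b - b0‖ := by
      have h6 : b0 = b - (b - b0) := by ring
      calc ‖b0‖ = ‖b - (b - b0)‖ := by rw [← h6]
        _ ≤ _ := norm_sub_le _ _
    have h6 : 16 * (c.TT hq * r) * ‖b0‖ ≤ 1 / 2 * ‖b0‖ := mul_le_mul_of_nonneg_right h3 hB0.le
    linarith
  have h5 : a / b - a0 / b0 = ((a - a0) * b0 - a0 * (b - b0)) / (b * b0) := by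
    field_simp
    ring
  rw [h5, norm_div, norm_mul, norm_div, div_le_iff₀ (mul_pos hB hB0)]
  have h6 : ‖(a - a0) * b0 - a0 * (b - b0)‖ ≤ (T1 + 16 * c.TT hq) * r * (‖a0‖ * ‖b0‖) := by
    refine (norm_sub_le _ _).trans ?_
    rw [norm_mul, norm_mul]
    have h7 : ‖a - a0‖ * ‖b0‖ ≤ T1 * r * ‖a0‖ * ‖b0‖ := mul_le_mul_of_nonneg_right h1 hB0.le
    have h8 : ‖a0‖ * ‖b - b0‖ ≤ ‖a0‖ * (16 * (c.TT hq * r) * ‖b0‖) :=
      mul_le_mul_of_nonneg_left h2 (norm_nonneg _)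
    calc ‖a - a0‖ * ‖b0‖ + ‖a0‖ * ‖b - b0‖
        ≤ T1 * r * ‖a0‖ * ‖b0‖ + ‖a0‖ * (16 * (c.TT hq * r) * ‖b0‖) := add_le_add h7 h8
      _ = _ := by ring
  refine h6.trans ?_
  have h7 : T * r * (‖a0‖ / ‖b0‖) * (‖b‖ * ‖b0‖) = T * r * ‖a0‖ * ‖b‖ := by
    field_simp
  rw [h7, hT]
  have h8 : 0 ≤ (T1 + 16 * c.TT hq) * r * ‖a0‖ := by positivity
  nlinarith [mul_le_mul_of_nonneg_left h4 h8]

end Pool.Agent.CR
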