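import Pool.Agent.H24.CR.T2
import Pool.Agent.H68.CR.R16

/-!
# CR T3: for fixed `N` the quotient `QN` is bounded at the top

`n = q_N`, `p' = p_N` are coprime (`q p' - p n = 1`), `0 < p' < n` (`n ≥ 100 R ≥ 400`, `p' q = p n + 1 < q n`), so `R_main` gives `Par ((f lN)^[n]) A n`:
`h_N z = z + z^(n+1) G z`, `G` entire. `topc`: `W N w = g t`, `t = exp (2 π i w / (q n))`, for `Im w > M`, `g` analytic at `0`, `g 0 = 0`, `b = g' 0 ≠ 0`. There is `ρ > 0` with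
`‖g x - g y‖ ≥ ‖b‖/2 ‖x - y‖`, `‖g x‖ ≤ 2 ‖b‖ ‖x‖` for `‖x‖, ‖y‖ ≤ ρ` (`HasStrictDerivAt`), and `‖G z‖ ≤ ‖G 0‖ + 1` near `0`. For `Im w` large, `t' = exp (2 π i (HN w) / (q n)) = t exp (2 π i (EN w) / (q n))` and
`g t' = W N (HN w) = h_N (W N w) = g t + (g t)^(n+1) G (g t)` (`HN_W`), so `‖t' - t‖ ≤ C' ‖t‖^(n+1)`, `‖exp (2 π i (EN w)/(q n)) - 1‖ ≤ C' ‖t‖^n`; as `‖EN w‖ ≤ 1/8` the exponent `x` has `‖x‖ ≤ 1`, `‖exp x - 1‖ ≥ ‖x‖ / 4`
(e.g. from `‖exp x - 1 - x‖ ≤ ‖x‖^2` if `‖x‖ ≤ 3/4`; here `‖x‖ ≤ 2 π / (8 · 400)`), so `‖EN w‖ ≤ C'' ‖t‖^n`, and `‖XN q e N w‖ = exp (- 2 π Im w / q) = ‖t‖^n`.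
-/

set_option autoImplicit false

open Set Filter Topology Metric

namespace Pool.Agent.CR

variable {p q s e : ℕ}

theorem norm_XN (q e N : ℕ) (w : ℂ) : ‖XN q e N w‖ = Real.exp (-(2 * Real.pi * w.im / q)) := by
  unfold XN
  rw [Complex.norm_exp]
  congr 1
  have h1 : (2 * Real.pi * Complex.I * (w + qN q e N) / q : ℂ) =
      ((2 * Real.pi / q : ℝ) : ℂ) * (Complex.I * (w + ((qN q e N : ℝ) : ℂ))) := by
    push_cast
    ring
  rw [h1, Complex.re_ofReal_mul, Complex.I_mul_re, Complex.add_im, Complex.ofReal_im]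
  ring

theorem pN_coprime (hs : q * s = p * e + 1) (N : ℕ) : Nat.Coprime (pN p s N) (qN q e N) := by
  have h := q_pN hs N
  have h1 : Nat.gcd (pN p s N) (qN q e N) ∣ q * pN p s N := Dvd.dvd.mul_left (Nat.gcd_dvd_left _ _) _
  have h2 : Nat.gcd (pN p s N) (qN q e N) ∣ p * qN q e N := Dvd.dvd.mul_left (Nat.gcd_dvd_right _ _) _
  rw [h] at h1
  exact Nat.dvd_one.1 ((Nat.dvd_add_right h2).1 h1)

theorem T3_pN_lt (hp : 0 < p) (hpq : p < q) (hs : q * s = p * e + 1) {N : ℕ} (hn : 2 ≤ qN q e N) :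
    0 < pN p s N ∧ pN p s N < qN q e N := by
  have h := q_pN hs N
  constructor
  · rcases Nat.eq_zero_or_pos (pN p s N) with h0 | h0
    · rw [h0, Nat.mul_zero] at h
      omega
    · exact h0
  · by_contra hcon
    have h1 : qN q e N ≤ pN p s N := Nat.le_of_not_lt hcon
    have h2 : q * qN q e N ≤ q * pN p s N := Nat.mul_le_mul_left _ h1
    have h3 : (p + 1) * qN q e N ≤ q * qN q e N := Nat.mul_le_mul_right _ hpq
    have h4 : (p + 1) * qN q e N = p * qN q e N + qN q e N := by ring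
    omega

private theorem T3_norm_exp (k : ℝ) (w : ℂ) :
    ‖Complex.exp (2 * Real.pi * Complex.I * w / (k : ℂ))‖ = Real.exp (-(2 * Real.pi * w.im / k)) := by
  rw [Complex.norm_exp]
  congr 1
  have h1 : (2 * Real.pi * Complex.I * w / (k : ℂ) : ℂ) =
      ((2 * Real.pi / k : ℝ) : ℂ) * (Complex.I * w) := by
    push_cast
    ring
  rw [h1, Complex.re_ofReal_mul, Complex.I_mul_re]
  ring

private theorem T3_exp_small {k : ℝ} (hk : 0 < k) {r : ℝ} (hr : 0 < r) :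
    ∃ M : ℝ, ∀ w : ℂ, M < w.im → ‖Complex.exp (2 * Real.pi * Complex.I * w / (k : ℂ))‖ < r := by
  refine ⟨-(Real.log r) * k / (2 * Real.pi), fun w hw => ?_⟩
  rw [T3_norm_exp]
  rw [← Real.lt_log_iff_exp_lt hr]
  have hpi : 0 < 2 * Real.pi := by positivity
  rw [div_lt_iff₀ hpi] at hw
  have h2 : -(Real.log r) < 2 * Real.pi * w.im / k := by
    rw [lt_div_iff₀ hk]
    linarith
  linarith

private theorem T3_exp_lower {x : ℂ} (hx : ‖x‖ ≤ 1 / 2) : ‖x‖ / 2 ≤ ‖Complex.exp x - 1‖ := by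
  have h1 := Complex.norm_exp_sub_one_sub_id_le (x := x) (by linarith)
  have h2 : ‖x‖ ≤ ‖Complex.exp x - 1‖ + ‖Complex.exp x - 1 - x‖ := by
    have h3 : x = (Complex.exp x - 1) - (Complex.exp x - 1 - x) := by ring
    calc ‖x‖ = ‖(Complex.exp x - 1) - (Complex.exp x - 1 - x)‖ := by rw [← h3]
      _ ≤ _ := norm_sub_le _ _
  have h4 : ‖x‖ ^ 2 ≤ ‖x‖ * (1 / 2) := by
    rw [sq]
    exact mul_le_mul_of_nonneg_left hx (norm_nonneg _)
  linarith

theorem QN_bdd (hp : 0 < p) (hpq : p < q) (hs : q * s = p * e + 1) (c : Chart p q s e) {N : ℕ} (hN0 : c.N0 ≤ N) :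
    ∃ B M' : ℝ, ∀ w : ℂ, M' < w.im → ‖QN c N w‖ ≤ B := by
  have hq : 0 < q := lt_of_le_of_lt (Nat.zero_le _) hpq
  have hnR : (400 : ℝ) ≤ (qN q e N : ℝ) := by
    have h1 := c.n_ge N hN0
    have h2 := c.R_ge
    linarith
  have hn400 : 400 ≤ qN q e N := by exact_mod_cast hnR
  have hn2 : 2 ≤ qN q e N := by omega
  obtain ⟨hp0, hplt⟩ := T3_pN_lt hp hpq hs hn2
  obtain ⟨A, φ0, hPar, -, -⟩ := R_main hp0 hplt (pN_coprime hs N)
  obtain ⟨G, hG, hG0, hGz⟩ := hPar.ex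
  have hGz' : ∀ z, hN p q s e N z = z + z ^ (qN q e N + 1) * G z := fun z => hGz z
  obtain ⟨g, hga, hg0, hgd, M, hgM⟩ := c.topc N hN0
  set b : ℂ := deriv g 0 with hb
  have hbpos : 0 < ‖b‖ := norm_pos_iff.2 hgd
  -- strict derivative
  have hstr : HasStrictDerivAt g b 0 := hga.hasStrictDerivAt
  have hev : ∀ᶠ x : ℂ × ℂ in 𝓝 (0, 0), ‖g x.1 - g x.2 - (x.1 - x.2) * b‖ ≤ ‖b‖ / 2 * ‖x.1 - x.2‖ := by
    have h1 := (hstr.hasStrictFDerivAt.isLittleO).bound (half_pos hbpos)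
    filter_upwards [h1] with x hx
    simpa [smul_eq_mul] using hx
  rw [nhds_prod_eq, Filter.eventually_prod_iff] at hev
  obtain ⟨pa, hpa, pb, hpb, hab⟩ := hev
  obtain ⟨ρ1, hρ1, hball1⟩ := Metric.eventually_nhds_iff.1 (hpa.and hpb)
  have hkey : ∀ x y : ℂ, ‖x‖ < ρ1 → ‖y‖ < ρ1 → ‖g x - g y - (x - y) * b‖ ≤ ‖b‖ / 2 * ‖x - y‖ := by
    intro x y hx hy
    have hx' := (hball1 (y := x) (by rw [dist_zero_right]; exact hx)).1
    have hy' := (hball1 (y := y) (by rw [dist_zero_right]; exact hy)).2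
    exact hab hx' hy'
  have hlow : ∀ x y : ℂ, ‖x‖ < ρ1 → ‖y‖ < ρ1 → ‖b‖ / 2 * ‖x - y‖ ≤ ‖g x - g y‖ := by
    intro x y hx hy
    have h1 := hkey x y hx hy
    have h2 : ‖(x - y) * b‖ ≤ ‖g x - g y‖ + ‖g x - g y - (x - y) * b‖ := by
      have h3 : (x - y) * b = (g x - g y) - (g x - g y - (x - y) * b) := by ring
      calc ‖(x - y) * b‖ = ‖(g x - g y) - (g x - g y - (x - y) * b)‖ := by rw [← h3]
        _ ≤ _ := norm_sub_le _ _
    rw [norm_mul] at h2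
    nlinarith [norm_nonneg (x - y)]
  have hupp : ∀ x : ℂ, ‖x‖ < ρ1 → ‖g x‖ ≤ 2 * ‖b‖ * ‖x‖ := by
    intro x hx
    have h1 := hkey x 0 hx (by rw [norm_zero]; exact hρ1)
    rw [hg0, sub_zero, sub_zero] at h1
    have h2 : ‖g x‖ ≤ ‖g x - x * b‖ + ‖x * b‖ := by
      calc ‖g x‖ = ‖(g x - x * b) + x * b‖ := by rw [sub_add_cancel]
        _ ≤ _ := norm_add_le _ _
    rw [norm_mul] at h2
    have h3 := norm_nonneg x
    nlinarith
  -- bound for G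
  have hGc : ∀ᶠ z in 𝓝 (0 : ℂ), ‖G z‖ < ‖A‖ + 1 := by
    have h1 : Tendsto (fun z => ‖G z‖) (𝓝 0) (𝓝 ‖G 0‖) := (hG.continuous.norm).tendsto 0
    rw [hG0] at h1
    exact h1.eventually (gt_mem_nhds (lt_add_one _))
  obtain ⟨ρ2, hρ2, hball2⟩ := Metric.eventually_nhds_iff.1 hGc
  have hGb : ∀ z : ℂ, ‖z‖ < ρ2 → ‖G z‖ ≤ ‖A‖ + 1 := by
    intro z hz
    exact (hball2 (y := z) (by rw [dist_zero_right]; exact hz)).le
  -- the constants
  set k : ℝ := (q : ℝ) * (qN q e N : ℝ) with hk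
  have hq' : (1 : ℝ) ≤ (q : ℝ) := by exact_mod_cast hq
  have hk400 : (400 : ℝ) ≤ k := by rw [hk]; nlinarith
  have hkpos : 0 < k := by linarith
  have hkc : ((q : ℂ) * (qN q e N : ℂ)) = (k : ℂ) := by rw [hk]; push_cast; ring
  set r : ℝ := min ρ1 (ρ2 / (2 * ‖b‖)) with hr
  have hrpos : 0 < r := lt_min hρ1 (by positivity)
  obtain ⟨M3, hM3⟩ := T3_exp_small hkpos hrpos
  set C' : ℝ := 2 / ‖b‖ * ((2 * ‖b‖) ^ (qN q e N + 1) * (‖A‖ + 1)) with hC'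
  refine ⟨k / (2 * Real.pi) * (2 * C'), max (max M M3) (c.M1 hq) + 1, fun w hw => ?_⟩
  have hwM : M + 1 < w.im := by
    have h1 := (le_max_left M M3).trans (le_max_left (max M M3) (c.M1 hq))
    linarith
  have hwM3 : M3 + 1 < w.im := by
    have h1 := (le_max_right M M3).trans (le_max_left (max M M3) (c.M1 hq))
    linarith
  have hwM1 : c.M1 hq + 1 < w.im := by
    have h1 := le_max_right (max M M3) (c.M1 hq)
    linarith
  have hE : ‖EN c N w‖ ≤ 1 / 8 := by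
    have h1 := HN_est hq c hN0 (le_refl (c.M1 hq)) (w := w) (by linarith)
    exact h1.trans (c.TT_le hq _ (le_refl _))
  have hHN : HN c N w = w + EN c N w := by unfold EN; ring
  have himH : w.im - 1 / 8 ≤ (HN c N w).im := by
    rw [hHN, Complex.add_im]
    have h1 := (Complex.abs_im_le_norm (EN c N w)).trans hE
    have h2 := (abs_le.1 h1).1
    linarith
  set t : ℂ := Complex.exp (2 * Real.pi * Complex.I * w / (k : ℂ)) with ht
  set t' : ℂ := Complex.exp (2 * Real.pi * Complex.I * (HN c N w) / (k : ℂ)) with ht'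
  have htr : ‖t‖ < r := hM3 w (by linarith)
  have htr' : ‖t'‖ < r := hM3 (HN c N w) (by linarith)
  have htpos : 0 < ‖t‖ := norm_pos_iff.2 (Complex.exp_ne_zero _)
  have hWt : c.W N w = g t := by
    have h1 := hgM w (by linarith)
    rw [hkc] at h1
    exact h1
  have hWt' : c.W N (HN c N w) = g t' := by
    have h1 := hgM (HN c N w) (by linarith)
    rw [hkc] at h1
    exact h1
  have heq : g t' = g t + g t ^ (qN q e N + 1) * G (g t) := by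
    have h1 := HN_W hq hs c hN0 (w := w) (by linarith)
    rw [hWt, hWt', hGz'] at h1
    exact h1.symm
  have hρ : r ≤ ρ1 := min_le_left _ _
  have hr2 : r ≤ ρ2 / (2 * ‖b‖) := min_le_right _ _
  have hgt : ‖g t‖ ≤ 2 * ‖b‖ * ‖t‖ := hupp t (lt_of_lt_of_le htr hρ)
  have hgt2 : ‖g t‖ < ρ2 := by
    have h1 : ‖t‖ < ρ2 / (2 * ‖b‖) := lt_of_lt_of_le htr hr2
    rw [lt_div_iff₀ (by positivity)] at h1
    linarith
  have hdiff : ‖t' - t‖ ≤ C' * ‖t‖ ^ (qN q e N + 1) := by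
    have h1 := hlow t' t (lt_of_lt_of_le htr' hρ) (lt_of_lt_of_le htr hρ)
    have h2 : g t' - g t = g t ^ (qN q e N + 1) * G (g t) := by rw [heq]; ring
    rw [h2, norm_mul, norm_pow] at h1
    have h3 : ‖g t‖ ^ (qN q e N + 1) * ‖G (g t)‖ ≤ (2 * ‖b‖ * ‖t‖) ^ (qN q e N + 1) * (‖A‖ + 1) := by
      apply mul_le_mul (pow_le_pow_left₀ (norm_nonneg _) hgt _) (hGb _ hgt2) (norm_nonneg _)
      positivity
    have h4 : ‖b‖ / 2 * ‖t' - t‖ ≤ (2 * ‖b‖) ^ (qN q e N + 1) * (‖A‖ + 1) * ‖t‖ ^ (qN q e N + 1) := by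
      refine (h1.trans h3).trans (le_of_eq ?_)
      rw [mul_pow (2 * ‖b‖) ‖t‖]
      ring
    have h5 : ‖t' - t‖ = 2 / ‖b‖ * (‖b‖ / 2 * ‖t' - t‖) := by
      field_simp
    rw [h5, hC', mul_assoc]
    exact mul_le_mul_of_nonneg_left h4 (by positivity)
  -- the exponent
  set x : ℂ := 2 * Real.pi * Complex.I * (EN c N w) / (k : ℂ) with hx
  have htx : t' = t * Complex.exp x := by
    rw [ht', ht, hx, ← Complex.exp_add, hHN]
    congr 1
    ring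
  have hxn : ‖x‖ = 2 * Real.pi / k * ‖EN c N w‖ := by
    rw [hx]
    rw [norm_div, norm_mul, norm_mul, norm_mul, Complex.norm_I, Complex.norm_real, Complex.norm_real,
      Real.norm_of_nonneg Real.pi_pos.le, Real.norm_of_nonneg hkpos.le]
    simp only [Complex.norm_ofNat]
    ring
  have hpi4 : Real.pi ≤ 4 := Real.pi_le_four
  have hxs : ‖x‖ ≤ 1 / 2 := by
    rw [hxn]
    have h1 : 2 * Real.pi / k ≤ 1 := by
      rw [div_le_one hkpos]
      linarith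
    have h2 : 0 ≤ 2 * Real.pi / k := by positivity
    calc 2 * Real.pi / k * ‖EN c N w‖ ≤ 1 * (1 / 8) := mul_le_mul h1 hE (norm_nonneg _) zero_le_one
      _ ≤ 1 / 2 := by norm_num
  have hex := T3_exp_lower hxs
  have hfac : ‖t' - t‖ = ‖t‖ * ‖Complex.exp x - 1‖ := by
    rw [htx, ← norm_mul]
    congr 1
    ring
  have hexp : ‖Complex.exp x - 1‖ ≤ C' * ‖t‖ ^ qN q e N := by
    rw [hfac, pow_succ] at hdiff
    have h1 : ‖t‖ * ‖Complex.exp x - 1‖ ≤ ‖t‖ * (C' * ‖t‖ ^ qN q e N) := by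
      refine hdiff.trans (le_of_eq ?_)
      ring
    exact le_of_mul_le_mul_left h1 htpos
  have hXt : ‖XN q e N w‖ = ‖t‖ ^ qN q e N := by
    rw [norm_XN, ht, T3_norm_exp, ← Real.exp_nat_mul]
    congr 1
    rw [hk]
    have h1 : (q : ℝ) ≠ 0 := by positivity
    have h2 : (qN q e N : ℝ) ≠ 0 := by linarith
    field_simp
  have hXpos : 0 < ‖XN q e N w‖ := by rw [hXt]; positivity
  unfold QN
  rw [norm_div, div_le_iff₀ hXpos, hXt]
  have h7 : ‖EN c N w‖ = k / (2 * Real.pi) * ‖x‖ := by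
    rw [hxn]
    have h1 : k ≠ 0 := hkpos.ne'
    have h2 : Real.pi ≠ 0 := Real.pi_ne_zero
    field_simp
  rw [h7]
  have h8 : ‖x‖ ≤ 2 * (C' * ‖t‖ ^ qN q e N) := by linarith
  calc k / (2 * Real.pi) * ‖x‖ ≤ k / (2 * Real.pi) * (2 * (C' * ‖t‖ ^ qN q e N)) :=
        mul_le_mul_of_nonneg_left h8 (by positivity)
    _ = k / (2 * Real.pi) * (2 * C') * ‖t‖ ^ qN q e N := by ring

end Pool.Agent.CR
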