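import Pool.Agent.H24.CR.T2
import Pool.Agent.H48.CR.Fat
import Pool.Agent.H48.CR.Hz
import Pool.Agent.H48.CR.G5a

/-!
# CR T4: the limit of the displacement near the hole `-1`

`exists_U`: `pr_W0` with `m = 0` (`w ∈ Rr r` for `Im w > r`); choose `U w` with `r = r0`; for other `r` the point of `pr_W0` is the same by `inj0`. `U` is holomorphic by
`differentiableAt_lift` (`h = W0 (-1)`, `s = Wd0 R`, `ψ = pr 0`).

`window_limit`: `κ = F.C r^(-1/q)`, `r = M3 - 1`; `M3` large. Let `Im x0 ≥ M3`. `W0_pr` (`m = 0`): `pr 0 w0 = W0 (-1) x0`, `‖x0 - w0‖ ≤ κ`, and `U w0 = x0` by `inj0`. `z0 = W0 (-1) x0 ∈ B` (`mem_B`, `m = 0`), so `w0 ∈ H.D` and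
`H.E w0 = phi z0`. For `(N, x) → (∞, x0)` let `y = HN c N (x - n) + n`, so `‖y - x‖ ≤ 1/8` (`HN_est`), and `W N (y - n) = hN (W N (x - n))` (`HN_W`). `W N (x - n) → z0` (`lim` with `j = -1`), so by `hlav` and continuity of `pr 0 ∘ phi` at `z0`:
`W N (y - n) → pr 0 (phi z0) = pr 0 (H.E w0) = W0 (-1) (U (H.E w0))` (`Im (H.E w0) > r0` by `H.top_lim`, `M3` large). `hurwitz` at `U (H.E w0)` for `F N w = W N (w - n)`: there is `w'` near `U (H.E w0)` with `W N (w' - n) = W N (y - n)`; by `inj` (and `‖w' - y‖ < q n`) `w' = y`. So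
`y → U (H.E w0)`, `EN (x - n) = y - x → U (H.E w0) - U w0`. By `near_id_ball` (`g = U` on `ball w0 1`, bound `κ`; `‖H.E w0 - w0‖ < 1/2`) `‖U (H.E w0) - U w0 - (H.E w0 - w0)‖ ≤ 2 κ ‖H.E w0 - w0‖`.
`XN q e N (x - n) = exp (2 π i x / q) → exp (2 π i x0 / q) = exp (2 π i w0 / q) exp (2 π i (x0 - w0) / q)`. So `QN (x - n)` converges to `(H.E w0 - w0) exp (- 2 π i w0 / q) (1 + θ)`, `‖θ‖ ≤ 20 κ`; the first product is within `δ / 4` of `a`
(`IsCoeff`, `Im w0 ≥ M3 - 1`), `κ → 0` for `M3 → ∞`.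
-/

set_option autoImplicit false

open Set Filter Topology Metric

namespace Pool.Agent.CR

variable {p q s e : ℕ}

private theorem T4_nlim (hq : 0 < q) : Tendsto (fun N : ℕ => (qN q e N : ℝ)) atTop atTop := by
  refine tendsto_natCast_atTop_atTop.comp ?_
  refine tendsto_atTop_mono (fun N => ?_) tendsto_id
  unfold qN
  simp only [id]
  nlinarith

private theorem T4_CC (c : Chart p q s e) :
    G.CC (fun N w => c.W N (w - qN q e N)) (c.W0 (-1)) (Wd0 c.R) := by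
  intro w hw
  refine ((G.cc_of_tlu (G.isOpen_Wd0 c.R) (c.diff0 (-1)).continuousOn (c.lim (-1))) w hw).congr (fun x => ?_)
  have h : x.2 + ((-1 : ℤ) : ℂ) * (qN q e x.1 : ℂ) = x.2 - (qN q e x.1 : ℂ) := by
    push_cast
    ring
  show c.W x.1 (x.2 + ((-1 : ℤ) : ℂ) * (qN q e x.1 : ℂ)) = _
  rw [h]

private theorem T4_diff (hq : 0 < q) (c : Chart p q s e) : ∀ w ∈ Wd0 c.R, ∀ᶠ x : ℕ × ℂ in atTop ×ˢ 𝓝 w,
    DifferentiableAt ℂ (fun w => c.W x.1 (w - qN q e x.1)) x.2 := by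
  intro w hw
  have h1 := G.Wd0_ev (T4_nlim (e := e) hq) hw
  have h2 : ∀ᶠ x : ℕ × ℂ in atTop ×ˢ 𝓝 w, c.N0 ≤ x.1 :=
    tendsto_fst.eventually (eventually_ge_atTop c.N0)
  filter_upwards [h1, h2] with x hx hN
  have hn := c.n_ge x.1 hN
  have hR := c.R_ge
  have hn0 : (0 : ℝ) < (qN q e x.1 : ℝ) := by linarith
  have h3 : x.2 - (qN q e x.1 : ℂ) ∈ Wd (qN q e x.1) c.R := by
    have h4 := G.Wd_add hx (-1)
    have h5 : x.2 + ((-1 : ℤ) : ℂ) * ((qN q e x.1 : ℝ) : ℂ) = x.2 - (qN q e x.1 : ℂ) := by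
      push_cast
      ring
    rwa [h5] at h4
  have h6 : DifferentiableAt ℂ (c.W x.1) (x.2 - (qN q e x.1 : ℂ)) :=
    (c.diff x.1 hN).differentiableAt ((G.isOpen_Wd hn0 c.R).mem_nhds h3)
  exact h6.comp x.2 (differentiableAt_id.sub_const _)

private theorem T4_inj (c : Chart p q s e) : InjOn (c.W0 (-1)) (Wd0 c.R) :=
  fun _ hw _ hw' h => (c.inj0 (-1) (-1) _ hw _ hw' h).1

private theorem T4_mem {R : ℝ} {w : ℂ} (hR : 0 ≤ R) (hw : R < w.im) : w ∈ Wd0 R := by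
  refine ⟨?_, ?_⟩
  · exact lt_of_lt_of_le hw ((le_abs_self _).trans (Complex.abs_im_le_norm w))
  · have := abs_nonneg w.re
    linarith

/-- the displacement converges -/
private theorem T4_lim (hq : 0 < q) (hs : q * s = p * e + 1) (c : Chart p q s e) (F : Fat c)
    (hlav : TendstoLocallyUniformlyOn (fun N z => hN p q s e N z) (fun z => F.pr 0 (F.phi z)) atTop F.B)
    {x0 y0 : ℂ} (hx0 : c.M1 hq < x0.im) (hy0 : c.R + 1 < y0.im) (hB : c.W0 (-1) x0 ∈ F.B)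
    (hy : F.pr 0 (F.phi (c.W0 (-1) x0)) = c.W0 (-1) y0) (hxy : ‖x0 - y0‖ ≤ 1) :
    Tendsto (fun z : ℕ × ℂ => HN c z.1 (z.2 - qN q e z.1) + qN q e z.1) (atTop ×ˢ 𝓝 x0) (𝓝 y0) := by
  have hR := c.R_ge
  have hM1 := c.M1_ge hq
  have hxW : x0 ∈ Wd0 c.R := T4_mem (by linarith) (by linarith)
  have hyW : y0 ∈ Wd0 c.R := T4_mem (by linarith) (by linarith)
  -- the points `W N (x - n)` converge
  have h1 : Tendsto (fun z : ℕ × ℂ => c.W z.1 (z.2 - qN q e z.1)) (atTop ×ˢ 𝓝 x0) (𝓝 (c.W0 (-1) x0)) :=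
    T4_CC c x0 hxW
  have h2 : Tendsto (fun z : ℕ × ℂ => (z.1, c.W z.1 (z.2 - qN q e z.1))) (atTop ×ˢ 𝓝 x0)
      (atTop ×ˢ 𝓝 (c.W0 (-1) x0)) := tendsto_fst.prodMk h1
  have hcont : ContinuousOn (fun z => F.pr 0 (F.phi z)) F.B :=
    (F.diff_pr 0).continuous.comp_continuousOn F.diff_phi.continuousOn
  have h3 := G.cc_of_tlu F.isOpen_B hcont hlav (c.W0 (-1) x0) hB
  have h4 : Tendsto (fun z : ℕ × ℂ => hN p q s e z.1 (c.W z.1 (z.2 - qN q e z.1))) (atTop ×ˢ 𝓝 x0)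
      (𝓝 (c.W0 (-1) y0)) := by
    have h5 := h3.comp h2
    rw [← hy]
    exact h5
  have h5 : Tendsto (fun z : ℕ × ℂ => (z.1, hN p q s e z.1 (c.W z.1 (z.2 - qN q e z.1)))) (atTop ×ˢ 𝓝 x0)
      (atTop ×ˢ 𝓝 (c.W0 (-1) y0)) := tendsto_fst.prodMk h4
  rw [Metric.tendsto_nhds]
  intro ε hε
  set ε' := min (ε / 2) (1 / 4) with hε'
  have hε'0 : 0 < ε' := lt_min (by linarith) (by norm_num)
  have hε'1 : ε' ≤ ε / 2 := min_le_left _ _
  have hε'2 : ε' ≤ 1 / 4 := min_le_right _ _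
  have h6 := G.hurwitz (G.isOpen_Wd0 c.R) (T4_CC c) (T4_diff hq c) (T4_inj c) hyW hε'0
  have h7 := h5.eventually h6
  have h8 : ∀ᶠ z : ℕ × ℂ in atTop ×ˢ 𝓝 x0, c.N0 ≤ z.1 :=
    tendsto_fst.eventually (eventually_ge_atTop c.N0)
  have h9 : ∀ᶠ z : ℕ × ℂ in atTop ×ˢ 𝓝 x0, c.M1 hq < z.2.im := by
    have : ∀ᶠ x in 𝓝 x0, c.M1 hq < x.im :=
      (isOpen_lt continuous_const Complex.continuous_im).mem_nhds hx0
    exact tendsto_snd.eventually this
  have h10 : ∀ᶠ z : ℕ × ℂ in atTop ×ˢ 𝓝 x0, ‖z.2 - x0‖ < 1 / 4 := by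
    have : ∀ᶠ x in 𝓝 x0, ‖x - x0‖ < 1 / 4 := by
      have := Metric.ball_mem_nhds x0 (show (0 : ℝ) < 1 / 4 by norm_num)
      filter_upwards [this] with x hx
      rwa [mem_ball, dist_eq_norm] at hx
    exact tendsto_snd.eventually this
  filter_upwards [h7, h8, h9, h10] with z hz7 hNN hz9 hz10
  obtain ⟨w', hw', hW⟩ := hz7
  set n : ℝ := (qN q e z.1 : ℝ) with hn
  have hn100 : 100 * c.R ≤ n := c.n_ge z.1 hNN
  have him : (z.2 - (qN q e z.1 : ℂ)).im = z.2.im := by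
    rw [Complex.sub_im, Complex.natCast_im, sub_zero]
  have h11 : hN p q s e z.1 (c.W z.1 (z.2 - qN q e z.1)) = c.W z.1 (HN c z.1 (z.2 - qN q e z.1)) :=
    HN_W hq hs c hNN (by rw [him]; exact hz9.le)
  have h12 : ‖HN c z.1 (z.2 - qN q e z.1) - (z.2 - qN q e z.1)‖ ≤ 1 / 8 :=
    (HN_est hq c hNN (le_refl _) (by rw [him]; exact hz9.le)).trans (c.TT_le hq _ le_rfl)
  rw [h11] at hW
  set Y : ℂ := HN c z.1 (z.2 - qN q e z.1) with hY
  -- both points are in the domain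
  have h13 : Y ∈ Wd n c.R := by
    have h14 := (abs_le.1 ((Complex.abs_im_le_norm _).trans h12)).1
    rw [Complex.sub_im, him] at h14
    exact top_mem_Wd (by linarith) (le_refl _) (by linarith)
  have h15 : w' - (qN q e z.1 : ℂ) ∈ Wd n c.R := by
    have h14 := (abs_le.1 ((Complex.abs_im_le_norm _).trans hw')).1
    rw [Complex.sub_im] at h14
    refine top_mem_Wd (by linarith) (le_refl _) ?_
    rw [Complex.sub_im, Complex.natCast_im, sub_zero]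
    linarith
  obtain ⟨k, hk⟩ := c.inj z.1 hNN _ h15 _ h13 hW
  have hk0 : k = 0 := by
    by_contra hk1
    have h16 : (1 : ℝ) ≤ |(k : ℝ)| := by
      have := Int.one_le_abs hk1
      exact_mod_cast this
    have h17 : Y - (w' - (qN q e z.1 : ℂ)) = k * (q * qN q e z.1) := by
      rw [hk]
      ring
    have h18 : ‖(k : ℂ) * (q * qN q e z.1)‖ = |(k : ℝ)| * (q * n) := by
      rw [norm_mul, norm_mul, Complex.norm_natCast, Complex.norm_natCast, Complex.norm_intCast]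
    have h19 : ‖Y - (w' - (qN q e z.1 : ℂ))‖ ≤ 1 / 8 + 1 / 4 + 1 + 1 / 4 := by
      have h20 : Y - (w' - (qN q e z.1 : ℂ)) = (Y - (z.2 - qN q e z.1)) + (z.2 - x0) + (x0 - y0) - (w' - y0) := by
        ring
      rw [h20]
      have a1 := norm_sub_le ((Y - (z.2 - qN q e z.1)) + (z.2 - x0) + (x0 - y0)) (w' - y0)
      have a2 := norm_add_le ((Y - (z.2 - qN q e z.1)) + (z.2 - x0)) (x0 - y0)
      have a3 := norm_add_le (Y - (z.2 - qN q e z.1)) (z.2 - x0)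
      linarith
    rw [h17, h18] at h19
    have hq1 : (1 : ℝ) ≤ q := by exact_mod_cast hq
    have h21 : (1 : ℝ) * (1 * 400) ≤ |(k : ℝ)| * (q * n) := by
      have h22 : (1 : ℝ) * 400 ≤ q * n := mul_le_mul hq1 (by linarith) (by norm_num) (by linarith)
      exact mul_le_mul h16 h22 (by norm_num) (abs_nonneg _)
    linarith
  rw [hk0] at hk
  have h23 : Y + (qN q e z.1 : ℂ) - y0 = w' - y0 := by
    rw [hk]
    push_cast
    ring
  rw [dist_eq_norm, h23]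
  linarith

private theorem T4_lim' (c : Chart p q s e) {x0 y0 : ℂ}
    (h : Tendsto (fun z : ℕ × ℂ => HN c z.1 (z.2 - qN q e z.1) + qN q e z.1) (atTop ×ˢ 𝓝 x0) (𝓝 y0)) :
    Tendsto (fun z : ℕ × ℂ => QN c z.1 (z.2 - qN q e z.1)) (atTop ×ˢ 𝓝 x0)
      (𝓝 ((y0 - x0) / Complex.exp (2 * Real.pi * Complex.I * x0 / q))) := by
  have h1 : Tendsto (fun z : ℕ × ℂ => z.2) (atTop ×ˢ 𝓝 x0) (𝓝 x0) := tendsto_snd
  have h2 : Tendsto (fun z : ℕ × ℂ => Complex.exp (2 * Real.pi * Complex.I * z.2 / q)) (atTop ×ˢ 𝓝 x0)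
      (𝓝 (Complex.exp (2 * Real.pi * Complex.I * x0 / q))) := by
    have hc : Continuous (fun x : ℂ => Complex.exp (2 * Real.pi * Complex.I * x / q)) := by fun_prop
    exact (hc.tendsto x0).comp h1
  refine ((h.sub h1).div h2 (Complex.exp_ne_zero _)).congr (fun z => ?_)
  unfold QN EN XN
  simp only [Pi.div_apply, sub_add_cancel]
  congr 1
  ring

/-- the estimate -/
private theorem T4_est {D θ g b a : ℂ} {κ δ : ℝ} (hδ : 0 < δ) (hκ : 0 ≤ κ) (hκ' : κ ≤ 1 / 14)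
    (hκa : 20 * κ * (‖a‖ + δ) ≤ δ / 8) (hθ : ‖θ‖ ≤ 2 * κ * ‖D‖) (hb : ‖b - 1‖ ≤ 14 * κ)
    (hg : ‖D * g - a‖ ≤ δ / 8) : ‖(D + θ) * (g * b) - a‖ ≤ δ / 2 := by
  set A := D * g with hA
  have h1 : (D + θ) * (g * b) - a = (A - a) + (A * (b - 1) + θ * g + θ * g * (b - 1)) := by
    rw [hA]
    ring
  have h2 : ‖A‖ ≤ ‖a‖ + δ := by
    have := norm_add_le (A - a) a
    rw [sub_add_cancel] at this
    linarith
  have h3 : ‖θ * g‖ ≤ 2 * κ * ‖A‖ := by
    rw [norm_mul, hA, norm_mul, ← mul_assoc]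
    exact mul_le_mul_of_nonneg_right hθ (norm_nonneg _)
  have h4 : ‖A * (b - 1)‖ ≤ 14 * κ * ‖A‖ := by
    rw [norm_mul, mul_comm]
    exact mul_le_mul_of_nonneg_right hb (norm_nonneg _)
  have hA0 := norm_nonneg A
  have h5 : ‖θ * g * (b - 1)‖ ≤ 2 * κ * ‖A‖ := by
    rw [norm_mul]
    have h51 : ‖b - 1‖ ≤ 1 := hb.trans (by linarith)
    calc ‖θ * g‖ * ‖b - 1‖ ≤ (2 * κ * ‖A‖) * 1 := mul_le_mul h3 h51 (norm_nonneg _) (by positivity)
      _ = _ := mul_one _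
  have h6 : 20 * κ * ‖A‖ ≤ δ / 8 := by
    refine le_trans ?_ hκa
    exact mul_le_mul_of_nonneg_left h2 (by linarith)
  have h7 : 0 ≤ κ * ‖A‖ := mul_nonneg hκ hA0
  rw [h1]
  have a1 := norm_add_le (A - a) (A * (b - 1) + θ * g + θ * g * (b - 1))
  have a2 := norm_add_le (A * (b - 1) + θ * g) (θ * g * (b - 1))
  have a3 := norm_add_le (A * (b - 1)) (θ * g)
  nlinarith

private theorem T4_exp (hq : 0 < q) {x : ℂ} {κ : ℝ} (hx : ‖x‖ ≤ κ) (hκ : κ ≤ 1 / 14) :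
    ‖Complex.exp (-(2 * Real.pi * Complex.I * x / q)) - 1‖ ≤ 14 * κ := by
  have hq1 : (1 : ℝ) ≤ q := by exact_mod_cast hq
  have h1 : ‖-(2 * Real.pi * Complex.I * x / q)‖ ≤ 7 * κ := by
    rw [norm_neg, norm_div, norm_mul, norm_mul, norm_mul, Complex.norm_I, mul_one, Complex.norm_natCast,
      Complex.norm_real, Real.norm_eq_abs, abs_of_pos Real.pi_pos, Complex.norm_ofNat]
    have h2 : 2 * Real.pi * ‖x‖ / q ≤ 2 * Real.pi * ‖x‖ := div_le_self (by positivity) hq1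
    have h3 : Real.pi < 3.5 := Real.pi_lt_d2.trans (by norm_num)
    have h4 : 2 * Real.pi * ‖x‖ ≤ 7 * ‖x‖ := by
      refine mul_le_mul_of_nonneg_right ?_ (norm_nonneg _)
      linarith
    linarith
  have h5 : ‖-(2 * Real.pi * Complex.I * x / q)‖ ≤ 1 := by linarith
  have h6 := Complex.norm_exp_sub_one_le h5
  linarith

theorem exists_U (c : Chart p q s e) (F : Fat c) : ∃ U : ℂ → ℂ, DifferentiableOn ℂ U {w | F.r0 < w.im} ∧
    ∀ r ≥ F.r0, ∀ w : ℂ, r < w.im → U w ∈ Wd0 c.R ∧ F.pr 0 w = c.W0 (-1) (U w) ∧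
      ‖U w - w‖ ≤ F.C * r ^ (-(1 / (q : ℝ))) := by

  have hR := c.R_ge
  have hr0 := F.r0_ge
  have key : ∀ r ≥ F.r0, ∀ w : ℂ, r < w.im → ∃ w' : ℂ, w' ∈ Wd0 c.R ∧ F.pr 0 w = c.W0 (-1) w' ∧
      ‖w' - w‖ ≤ F.C * r ^ (-(1 / (q : ℝ))) := by
    intro r hr w hw
    obtain ⟨w', h1, h2, h3⟩ := F.pr_W0 0 w r hr (by
      right
      simpa using hw)
    refine ⟨w', h1, ?_, ?_⟩
    · simpa using h2
    · simpa using h3
  have h0 : ∀ w : ℂ, ∃ w' : ℂ, F.r0 < w.im → (w' ∈ Wd0 c.R ∧ F.pr 0 w = c.W0 (-1) w') := by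
    intro w
    by_cases hw : F.r0 < w.im
    · obtain ⟨w', h1, h2, _⟩ := key F.r0 le_rfl w hw
      exact ⟨w', fun _ => ⟨h1, h2⟩⟩
    · exact ⟨0, fun h => absurd h hw⟩
  choose U hU using h0
  refine ⟨U, ?_, ?_⟩
  · intro w hw
    have hopen : IsOpen {w : ℂ | F.r0 < w.im} := isOpen_lt continuous_const Complex.continuous_im
    refine (differentiableAt_lift (G.isOpen_Wd0 c.R) (c.diff0 (-1)) (T4_inj c) (F.diff_pr 0 w)
      ?_).differentiableWithinAt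
    filter_upwards [hopen.mem_nhds hw] with w' hw'
    exact ⟨(hU w' hw').1, (hU w' hw').2.symm⟩
  · intro r hr w hw
    have hw0 : F.r0 < w.im := lt_of_le_of_lt hr hw
    obtain ⟨h1, h2⟩ := hU w hw0
    obtain ⟨w', h3, h4, h5⟩ := key r hr w hw
    have h6 : w' = U w := T4_inj c h3 h1 (by rw [← h4, h2])
    rw [h6] at h5
    exact ⟨h1, h2, h5⟩

theorem window_limit (hq : 0 < q) (hs : q * s = p * e + 1) (c : Chart p q s e) (F : Fat c) (H : Horn) (Hq : H.q = q)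
    (mem_D : ∀ w, w ∈ H.D ↔ F.pr 0 w ∈ F.B) (E_eq : ∀ w ∈ H.D, H.E w = F.phi (F.pr 0 w))
    (hlav : TendstoLocallyUniformlyOn (fun N z => hN p q s e N z) (fun z => F.pr 0 (F.phi z)) atTop F.B)
    {a : ℂ} (hco : H.IsCoeff a) {δ : ℝ} (hδ : 0 < δ) :
    ∃ M3 : ℝ, c.M1 hq + 1 ≤ M3 ∧ ∀ x0 : ℂ, M3 ≤ x0.im → ∀ᶠ z : ℕ × ℂ in atTop ×ˢ 𝓝 x0,
      ‖QN c z.1 (z.2 - qN q e z.1) - a‖ ≤ δ := by

  have hR := c.R_ge
  have hr0 := F.r0_ge
  have hCp := F.C_pos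
  obtain ⟨U, hUd, hU⟩ := exists_U c F
  obtain ⟨Ma, hMa⟩ := H.top_lim (1 / 4) (by norm_num)
  obtain ⟨Mb, hMb⟩ := hco (δ / 8) (by linarith)
  have hq0 : (0 : ℝ) < q := by exact_mod_cast hq
  -- the bound of the errors tends to zero
  have hlim : Tendsto (fun M : ℝ => F.C * (M - 2) ^ (-(1 / (q : ℝ)))) atTop (𝓝 0) := by
    have h1 : Tendsto (fun M : ℝ => M - 2) atTop atTop := tendsto_atTop_add_const_right _ (-2) tendsto_id
    have h2 := ((tendsto_rpow_neg_atTop (show (0 : ℝ) < 1 / (q : ℝ) by positivity)).comp h1).const_mul F.C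
    rw [mul_zero] at h2
    exact h2
  have hη : 0 < min (1 / 14) (δ / (160 * (‖a‖ + δ))) := by
    have := norm_nonneg a
    refine lt_min (by norm_num) (by positivity)
  have hev : ∀ᶠ M : ℝ in atTop, F.C * (M - 2) ^ (-(1 / (q : ℝ))) < min (1 / 14) (δ / (160 * (‖a‖ + δ))) :=
    hlim.eventually_lt_const hη
  have hev2 : ∀ᶠ M : ℝ in atTop, c.M1 hq + 1 ≤ M ∧ F.r0 + 2 ≤ M ∧ Ma + 2 ≤ M ∧ Mb + 2 ≤ M :=
    ((eventually_ge_atTop _).and ((eventually_ge_atTop _).and ((eventually_ge_atTop _).and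
      (eventually_ge_atTop _))))
  obtain ⟨M3, hM3a, hM3b, hM3c, hM3d, hM3e⟩ := (hev.and hev2).exists
  set κ := F.C * (M3 - 2) ^ (-(1 / (q : ℝ))) with hκ
  have hκ1 : κ ≤ 1 / 14 := (hM3a.trans_le (min_le_left _ _)).le
  have hκ2 : κ ≤ δ / (160 * (‖a‖ + δ)) := (hM3a.trans_le (min_le_right _ _)).le
  have hκ0 : 0 ≤ κ := by
    have : 0 < M3 - 2 := by linarith
    positivity
  have hκa : 20 * κ * (‖a‖ + δ) ≤ δ / 8 := by
    have hpos : 0 < ‖a‖ + δ := by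
      have := norm_nonneg a
      linarith
    have h1 : 20 * κ * (‖a‖ + δ) ≤ 20 * (δ / (160 * (‖a‖ + δ))) * (‖a‖ + δ) := by
      refine mul_le_mul_of_nonneg_right ?_ hpos.le
      linarith
    have h2 : 20 * (δ / (160 * (‖a‖ + δ))) * (‖a‖ + δ) = δ / 8 := by
      field_simp
      norm_num
    linarith
  refine ⟨M3, hM3b, fun x0 hx0 => ?_⟩
  have hr : F.r0 ≤ M3 - 2 := by linarith
  -- the point `w0`
  obtain ⟨w0, hw0, hw0'⟩ := F.W0_pr 0 x0 (M3 - 2) hr (Or.inr (by linarith))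
  have e1 : (-1 - ((0 : ℕ) : ℤ) * (p : ℤ)) = -1 := by simp
  rw [e1] at hw0
  have e2 : x0 - (w0 - ((0 : ℕ) : ℂ)) = x0 - w0 := by simp
  rw [e2] at hw0'
  have him0 : M3 - 1 < w0.im := by
    have := (abs_le.1 ((Complex.abs_im_le_norm _).trans hw0')).2
    rw [Complex.sub_im] at this
    linarith
  have hx0W : x0 ∈ Wd0 c.R := T4_mem (by linarith) (by linarith)
  have hUw0 : U w0 = x0 := by
    obtain ⟨h1, h2, _⟩ := hU (M3 - 2) hr w0 (by linarith)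
    exact T4_inj c h1 hx0W (by rw [← h2, hw0])
  -- the image
  have hB : c.W0 (-1) x0 ∈ F.B := by
    refine (F.mem_B (c.W0 (-1) x0) 0 x0 (M3 - 2) hr (Or.inr (by linarith)) ?_).1
    simp
  have hD : w0 ∈ H.D := by
    rw [mem_D, hw0]
    exact hB
  have hE : H.E w0 = F.phi (c.W0 (-1) x0) := by
    rw [E_eq w0 hD, hw0]
  have hEn : ‖H.E w0 - w0‖ ≤ 1 / 4 := hMa w0 (by linarith)
  have himE : M3 - 2 < (H.E w0).im := by
    have := (abs_le.1 ((Complex.abs_im_le_norm _).trans hEn)).1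
    rw [Complex.sub_im] at this
    linarith
  obtain ⟨hy1, hy2, hy3⟩ := hU (M3 - 2) hr (H.E w0) himE
  set y0 := U (H.E w0) with hy0
  have hxy : ‖x0 - y0‖ ≤ 1 := by
    have h1 : x0 - y0 = (x0 - w0) - (H.E w0 - w0) - (y0 - H.E w0) := by ring
    rw [h1]
    have a1 := norm_sub_le ((x0 - w0) - (H.E w0 - w0)) (y0 - H.E w0)
    have a2 := norm_sub_le (x0 - w0) (H.E w0 - w0)
    linarith
  have himy : c.R + 1 < y0.im := by
    have := (abs_le.1 ((Complex.abs_im_le_norm _).trans hxy)).2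
    rw [Complex.sub_im] at this
    have := c.M1_ge hq
    linarith
  have h1 := T4_lim hq hs c F hlav (x0 := x0) (y0 := y0) (by linarith) himy hB (by rw [← hE]; exact hy2) hxy
  have h2 := T4_lim' c h1
  -- the limit is close to `a`
  have hball : DifferentiableOn ℂ U (ball w0 1) := by
    refine hUd.mono (fun w hw => ?_)
    rw [mem_ball, dist_eq_norm] at hw
    have := (abs_le.1 ((Complex.abs_im_le_norm _).trans hw.le)).1
    rw [Complex.sub_im] at this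
    show F.r0 < w.im
    linarith
  have hball' : ∀ w ∈ ball w0 1, ‖U w - w‖ ≤ κ := by
    intro w hw
    rw [mem_ball, dist_eq_norm] at hw
    have := (abs_le.1 ((Complex.abs_im_le_norm _).trans hw.le)).1
    rw [Complex.sub_im] at this
    exact (hU (M3 - 2) hr w (by linarith)).2.2
  have h3 := near_id_ball hball hball' (H.E w0) (by
    rw [mem_ball, dist_eq_norm]
    linarith) w0 (mem_ball_self (by norm_num))
  rw [hUw0] at h3
  have h4 := hMb w0 (by linarith)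
  have h5 : ‖(y0 - x0) / Complex.exp (2 * Real.pi * Complex.I * x0 / q) - a‖ ≤ δ / 2 := by
    have h6 : ‖(y0 - x0 - (H.E w0 - w0))‖ ≤ 2 * κ * ‖H.E w0 - w0‖ := h3
    have h7 := T4_exp hq hw0' hκ1
    have h8 := T4_est (D := H.E w0 - w0) (θ := y0 - x0 - (H.E w0 - w0))
      (g := Complex.exp (-(2 * Real.pi * Complex.I * w0 / H.q)))
      (b := Complex.exp (-(2 * Real.pi * Complex.I * (x0 - w0) / q))) hδ hκ0 hκ1 hκa h6 h7 h4
    have h9 : (y0 - x0) / Complex.exp (2 * Real.pi * Complex.I * x0 / q) =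
        (H.E w0 - w0 + (y0 - x0 - (H.E w0 - w0))) * (Complex.exp (-(2 * Real.pi * Complex.I * w0 / H.q)) *
          Complex.exp (-(2 * Real.pi * Complex.I * (x0 - w0) / q))) := by
      rw [← Complex.exp_add, Hq, div_eq_mul_inv, ← Complex.exp_neg, Complex.ofReal_natCast]
      congr 1
      · ring
      · congr 1
        ring
    rw [h9]
    exact h8
  have h6 := (h2.sub_const a).norm
  have h7 : ‖(y0 - x0) / Complex.exp (2 * Real.pi * Complex.I * x0 / q) - a‖ < δ := by linarith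
  filter_upwards [h6.eventually_lt_const h7] with z hz
  exact hz.le

end Pool.Agent.CR
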