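import Pool.Agent.H24.CR.T3
import Pool.Agent.H24.CR.T4

/-!
# CR T5: `QN` is uniformly close to `a` at the top

`reach`: `n = q_N`, `p' = p_N` coprime: for every real `x` there are `k < n` and `j : ℤ` with `|x + n + k (p n + 1) - j (q n)| ≤ q / 2`. Proof: `p n + 1 = q p'` (`q_pN`). `t = round ((-x - n) / q)`, so `|x + n + t q| ≤ q / 2`; `k ∈ [0, n)` with `k p' ≡ t mod n`; `k (p n + 1) = q k p' = q t + j (q n)`.

`QN_lim`: let `δ' = min (δ / 4) 1`. `M3` from `window_limit` (for `δ'`), enlarged so that `T M3^(-1/q) (‖a‖ + 2) ≤ δ / 4` (`QN_FN`) and `M3 ≥ M2`. The rectangle `K = {x | |Re x| ≤ q, M3 ≤ Im x ≤ M3 + 2}` is compact: for `N` large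
`‖QN (x - n) - a‖ ≤ δ'` for all `x ∈ K` (compactness of `K` and `window_limit`). Let `Im w = M3 + 1`, `k, j` from `reach` with `x = Re w`, `v = FN^[k] w`, `x1 = v + n - j (q n)`: `‖v - (w + k (p n + 1))‖ ≤ 1/8` (`FN_est`), so `x1 ∈ K` and `QN v = QN (x1 - n)` (`HN_per`, and
`XN q e N (w + j (q n)) = XN q e N w`), `‖QN v - a‖ ≤ δ'`. By `QN_FN` `‖QN v - QN w‖ ≤ T M3^(-1/q) ‖QN w‖ ≤ ‖QN w‖ / 8`, so `‖QN w‖ ≤ 2 (‖a‖ + 1)` and `‖QN w - a‖ ≤ δ / 4 + δ / 2 ≤ δ`. Now `QN - a` is holomorphic on `Im w > M1`, bounded on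
`Im w ≥ M3 + 1` (`QN_bdd` for large `Im w`; on the strip by periodicity, `HN_per`, and compactness), and bounded by `δ` on `Im w = M3 + 1`: Phragmen-Lindelof (`PhragmenLindelof`, half plane, bounded functions).
-/

set_option autoImplicit false

open Set Filter Topology Metric

namespace Pool.Agent.CR

variable {p q s e : ℕ}

theorem reach (hq : 0 < q) (hs : q * s = p * e + 1) {N : ℕ} (hn : 2 ≤ qN q e N) (x : ℝ) :
    ∃ (k : ℕ) (j : ℤ), k < qN q e N ∧ |x + qN q e N + k * (p * qN q e N + 1) - j * (q * qN q e N)| ≤ q / 2 := by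
  have hq0 : (0 : ℝ) < q := by exact_mod_cast hq
  set n : ℕ := qN q e N with hndef
  set t : ℤ := round ((-x - n) / q) with ht
  have hn0 : (0 : ℤ) < n := by exact_mod_cast (by omega : 0 < n)
  have hk0 : 0 ≤ (q * t) % (n : ℤ) := Int.emod_nonneg _ hn0.ne'
  have hkn : (q * t) % (n : ℤ) < n := Int.emod_lt_of_pos _ hn0
  have hdiv : (q * t) % (n : ℤ) = q * t - n * ((q * t) / (n : ℤ)) := by
    have := Int.emod_add_mul_ediv (q * t) (n : ℤ)
    linarith
  have hkk : ((((q * t) % (n : ℤ)).toNat : ℕ) : ℤ) = (q * t) % (n : ℤ) := Int.toNat_of_nonneg hk0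
  refine ⟨((q * t) % (n : ℤ)).toNat, p * t - (q * t) / (n : ℤ) * pN p s N, ?_, ?_⟩
  · have : ((((q * t) % (n : ℤ)).toNat : ℕ) : ℤ) < n := by rw [hkk]; exact hkn
    exact_mod_cast this
  · have hpq' : (q : ℝ) * (pN p s N : ℝ) = p * n + 1 := by exact_mod_cast q_pN hs N
    have hkR : ((((q * t) % (n : ℤ)).toNat : ℕ) : ℝ) = q * t - n * (((q * t) / (n : ℤ) : ℤ) : ℝ) := by
      have h1 : (((((q * t) % (n : ℤ)).toNat : ℕ) : ℤ) : ℝ) =
          ((q * t - n * ((q * t) / (n : ℤ)) : ℤ) : ℝ) := by rw [hkk, hdiv]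
      push_cast at h1
      exact h1
    have h2 : x + n + ((((q * t) % (n : ℤ)).toNat : ℕ) : ℝ) * (p * n + 1) -
        ((p * t - (q * t) / (n : ℤ) * pN p s N : ℤ) : ℝ) * (q * n) = x + n + t * q := by
      rw [hkR]
      push_cast
      have h3 : (t : ℝ) * (p * n + 1) = t * (q * (pN p s N : ℝ)) := by rw [hpq']
      have h4 : (((q * t) / (n : ℤ) : ℤ) : ℝ) * (pN p s N : ℝ) * (q * n) =
          n * (((q * t) / (n : ℤ) : ℤ) : ℝ) * (p * n + 1) := by
        rw [← hpq']; ring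
      linear_combination h4
    rw [h2]
    have h5 : |(-x - n) / q - t| ≤ 1 / 2 := abs_sub_round _
    have h6 : x + n + t * q = -(((-x - n) / q - t) * q) := by
      field_simp
      ring
    rw [h6, abs_neg, abs_mul, abs_of_pos hq0]
    nlinarith

theorem QN_per (hq : 0 < q) (c : Chart p q s e) {N : ℕ} (hN0 : c.N0 ≤ N) {w : ℂ} (hw : c.M1 hq ≤ w.im) (k : ℤ) :
    QN c N (w + k * (q * qN q e N)) = QN c N w := by
  have hq0 : (q : ℂ) ≠ 0 := by exact_mod_cast hq.ne'
  unfold QN EN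
  rw [HN_per hq c hN0 hw k]
  have h1 : XN q e N (w + k * (q * qN q e N)) = XN q e N w := by
    unfold XN
    rw [show 2 * Real.pi * Complex.I * (w + k * (q * (qN q e N : ℂ)) + qN q e N) / q =
      2 * Real.pi * Complex.I * (w + qN q e N) / q +
        ((k * qN q e N : ℤ) : ℂ) * (2 * Real.pi * Complex.I) by
        push_cast
        field_simp
        ring, Complex.exp_add, Complex.exp_int_mul_two_pi_mul_I, mul_one]
  rw [h1]
  congr 1
  ring

/-- compactness: eventually uniformly on a compact set -/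
private theorem T5_unif {K : Set ℂ} (hK : IsCompact K) {Pr : ℕ → ℂ → Prop}
    (h : ∀ x ∈ K, ∀ᶠ z : ℕ × ℂ in atTop ×ˢ 𝓝 x, Pr z.1 z.2) : ∀ᶠ N in atTop, ∀ x ∈ K, Pr N x := by
  refine hK.induction_on (p := fun S => ∀ᶠ N in atTop, ∀ x ∈ S, Pr N x) ?_ ?_ ?_ ?_
  · exact Eventually.of_forall fun N x hx => absurd hx (notMem_empty x)
  · intro S S' hSS h1
    filter_upwards [h1] with N hN x hx using hN x (hSS hx)
  · intro S S' h1 h2
    filter_upwards [h1, h2] with N hN hN' x hx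
    rcases hx with hx | hx
    · exact hN x hx
    · exact hN' x hx
  · intro x hx
    obtain ⟨pa, ha, pb, hb, hab⟩ := Filter.eventually_prod_iff.1 (h x hx)
    refine ⟨{y | pb y}, mem_nhdsWithin_of_mem_nhds hb, ?_⟩
    filter_upwards [ha] with N hN y hy using hab hN hy

private theorem T5_diff (hq : 0 < q) (c : Chart p q s e) {N : ℕ} (hN0 : c.N0 ≤ N) :
    DifferentiableOn ℂ (QN c N) {w | c.M1 hq < w.im} := by
  unfold QN EN
  refine DifferentiableOn.div ((HN_diff hq c hN0).sub differentiableOn_id) ?_ ?_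
  · unfold XN
    exact (Differentiable.differentiableOn (by fun_prop))
  · intro w _
    exact Complex.exp_ne_zero _

/-- `QN` is bounded on closed half planes -/
private theorem T5_bdd (hp : 0 < p) (hpq : p < q) (hs : q * s = p * e + 1) (c : Chart p q s e) {N : ℕ}
    (hN0 : c.N0 ≤ N) {A : ℝ} (hA : c.M1 (hp.trans hpq) < A) :
    ∃ B : ℝ, ∀ w : ℂ, A ≤ w.im → ‖QN c N w‖ ≤ B := by
  have hq : 0 < q := hp.trans hpq
  have hq0 : (0 : ℝ) < q := by exact_mod_cast hq
  have hn0 : (0 : ℝ) < (qN q e N : ℝ) := by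
    have := c.n_ge N hN0
    have := c.R_ge
    linarith
  obtain ⟨B, M', hB⟩ := QN_bdd hp hpq hs c hN0
  set L : ℝ := q * qN q e N with hL
  have hL0 : 0 < L := mul_pos hq0 hn0
  have hKc : IsCompact (Icc (0 : ℝ) L ×ℂ Icc A M') := isCompact_Icc.reProdIm isCompact_Icc
  have hcont : ContinuousOn (QN c N) (Icc (0 : ℝ) L ×ℂ Icc A M') := by
    refine (T5_diff hq c hN0).continuousOn.mono fun w hw => ?_
    exact hA.trans_le hw.2.1
  obtain ⟨B', hB'⟩ := hKc.exists_bound_of_continuousOn hcont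
  refine ⟨max B B', fun w hw => ?_⟩
  rcases lt_or_ge M' w.im with h1 | h1
  · exact (hB w h1).trans (le_max_left _ _)
  · have h2 := QN_per hq c hN0 (w := w) (by linarith) (-⌊w.re / L⌋)
    rw [← h2]
    refine (hB' _ ?_).trans (le_max_right _ _)
    have e1 : w + ((-⌊w.re / L⌋ : ℤ) : ℂ) * (q * qN q e N) =
        w + (((-⌊w.re / L⌋ : ℤ) : ℝ) * L : ℝ) := by
      rw [hL]; push_cast; ring
    rw [e1]
    have h3 : (⌊w.re / L⌋ : ℝ) * L ≤ w.re := by
      have := Int.floor_le (w.re / L)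
      rwa [le_div_iff₀ hL0] at this
    have h4 : w.re < (⌊w.re / L⌋ + 1 : ℝ) * L := by
      have := Int.lt_floor_add_one (w.re / L)
      rwa [div_lt_iff₀ hL0] at this
    refine ⟨?_, ?_⟩
    · show (w + (((-⌊w.re / L⌋ : ℤ) : ℝ) * L : ℝ)).re ∈ Icc 0 L
      rw [Complex.add_re, Complex.ofReal_re]
      push_cast
      constructor <;> linarith
    · show (w + (((-⌊w.re / L⌋ : ℤ) : ℝ) * L : ℝ)).im ∈ Icc A M'
      rw [Complex.add_im, Complex.ofReal_im, add_zero]
      exact ⟨hw, h1⟩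

/-- the maximum principle in a half plane -/
private theorem T5_pl {F : ℂ → ℂ} {M A δ B : ℝ} (hMA : M < A) (hF : DifferentiableOn ℂ F {w | M < w.im})
    (hB : ∀ w : ℂ, A ≤ w.im → ‖F w‖ ≤ B) (hδ : ∀ w : ℂ, w.im = A → ‖F w‖ ≤ δ) {w : ℂ} (hw : A ≤ w.im) :
    ‖F w‖ ≤ δ := by
  set g : ℂ → ℂ := fun z => F (Complex.I * (z + A)) with hg
  have him : ∀ z : ℂ, (Complex.I * (z + A)).im = z.re + A := by
    intro z
    simp
  have hd : DiffContOnCl ℂ g {z | 0 < z.re} := by
    apply DifferentiableOn.diffContOnCl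
    rw [Complex.closure_setOfPred_lt_re]
    refine DifferentiableOn.comp (t := {w | M < w.im}) hF (by fun_prop) fun z hz => ?_
    show M < (Complex.I * (z + A)).im
    rw [him]
    have : 0 ≤ z.re := hz
    linarith
  have hgB : ∀ z : ℂ, 0 ≤ z.re → ‖g z‖ ≤ B := fun z hz => hB _ (by rw [him]; linarith)
  have hexp : ∃ c < (2 : ℝ), ∃ B : ℝ, g =O[Bornology.cobounded ℂ ⊓ 𝓟 {z | 0 < z.re}] fun z =>
      Real.exp (B * ‖z‖ ^ c) := by
    refine ⟨1, by norm_num, 0, ?_⟩
    refine Asymptotics.IsBigO.of_bound B ?_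
    refine eventually_inf_principal.2 (Eventually.of_forall fun z hz => ?_)
    rw [zero_mul, Real.exp_zero, norm_one, mul_one]
    exact hgB z (le_of_lt hz)
  have hre : IsBoundedUnder (· ≤ ·) atTop fun x : ℝ => ‖g x‖ := by
    refine isBoundedUnder_of_eventually_le (a := B) ?_
    filter_upwards [eventually_ge_atTop 0] with x hx
    exact hgB x (by simpa using hx)
  have himz : ∀ x : ℝ, ‖g (x * Complex.I)‖ ≤ δ := by
    intro x
    refine hδ _ ?_
    rw [him]
    simp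
  have h1 := PhragmenLindelof.right_half_plane_of_bounded_on_real hd hexp hre himz
    (z := -Complex.I * w - A) (by simp; exact hw)
  have h2 : g (-Complex.I * w - A) = F w := by
    show F (Complex.I * (-Complex.I * w - A + A)) = F w
    congr 1
    have h3 := Complex.I_mul_I
    linear_combination (-w) * h3
  rwa [h2] at h1

theorem QN_lim (hp : 0 < p) (hpq : p < q) (hs : q * s = p * e + 1) (c : Chart p q s e) (F : Fat c) (H : Horn)
    (Hq : H.q = q) (mem_D : ∀ w, w ∈ H.D ↔ F.pr 0 w ∈ F.B) (E_eq : ∀ w ∈ H.D, H.E w = F.phi (F.pr 0 w))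
    (hlav : TendstoLocallyUniformlyOn (fun N z => hN p q s e N z) (fun z => F.pr 0 (F.phi z)) atTop F.B)
    {a : ℂ} (hco : H.IsCoeff a) {δ : ℝ} (hδ : 0 < δ) :
    ∃ M3 : ℝ, c.M1 (hp.trans hpq) + 1 ≤ M3 ∧ ∀ᶠ N in atTop, ∀ w : ℂ, M3 ≤ w.im → ‖QN c N w - a‖ ≤ δ := by
  have hq : 0 < q := hp.trans hpq
  have hq0 : (0 : ℝ) < q := by exact_mod_cast hq
  have hq1 : (1 : ℝ) ≤ q := by exact_mod_cast hq
  obtain ⟨T, M2, hT, hM2, hT8, hQF⟩ := QN_FN hq hs c
  set δ' : ℝ := min (δ / 4) 1 with hδ'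
  have hδ'0 : 0 < δ' := lt_min (by linarith) one_pos
  have hδ'1 : δ' ≤ δ / 4 := min_le_left _ _
  have hδ'2 : δ' ≤ 1 := min_le_right _ _
  obtain ⟨Mw, hMw, hwin⟩ := window_limit hq hs c F H Hq mem_D E_eq hlav hco hδ'0
  have ha0 := norm_nonneg a
  -- the level
  have hlim : Tendsto (fun r : ℝ => T * (r + 1) ^ (-(1 / (q : ℝ)))) atTop (𝓝 (T * 0)) := by
    refine Tendsto.const_mul T ?_
    exact (tendsto_rpow_neg_atTop (by positivity)).comp (tendsto_atTop_add_const_right _ 1 tendsto_id)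
  rw [mul_zero] at hlim
  obtain ⟨M3, ⟨hM3a, hM3b⟩, hM3c⟩ := (((hlim.eventually
    (ge_mem_nhds (show (0 : ℝ) < δ / (8 * (‖a‖ + 2)) by positivity))).and
    (eventually_ge_atTop Mw)).and (eventually_ge_atTop M2)).exists
  refine ⟨M3 + 1, by linarith, ?_⟩
  -- the window
  have hKc : IsCompact (Icc (-(q : ℝ)) q ×ℂ Icc M3 (M3 + 2)) := isCompact_Icc.reProdIm isCompact_Icc
  have hK := T5_unif (Pr := fun N x => ‖QN c N (x - qN q e N) - a‖ ≤ δ') hKc fun x hx =>
    hwin x (hM3b.trans hx.2.1)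
  have hn2 : ∀ᶠ N in atTop, 2 ≤ qN q e N := by
    filter_upwards [eventually_ge_atTop 2] with N hN
    unfold qN
    nlinarith
  filter_upwards [hK, hn2, eventually_ge_atTop c.N0] with N hKN hn2 hN0 w hw
  -- the boundary
  have hbd : ∀ w : ℂ, w.im = M3 + 1 → ‖QN c N w - a‖ ≤ δ := by
    intro w hw
    obtain ⟨k, j, hk, hkj⟩ := reach hq hs hn2 w.re
    have hest := (c.FN_est hq (M3 + 1) (by linarith) N hN0 w hw.ge k hk.le).1
    have hest' := hest.trans (c.TT_le hq (M3 + 1) (by linarith))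
    set v := (FN c N)^[k] w with hv
    have hre := abs_le.1 ((Complex.abs_re_le_norm _).trans hest')
    have him := abs_le.1 ((Complex.abs_im_le_norm _).trans hest')
    have e1 : (v - (w + k * (p * qN q e N + 1))).re =
        v.re - (w.re + k * (p * qN q e N + 1)) := by
      simp
    have e2 : (v - (w + k * (p * qN q e N + 1))).im = v.im - w.im := by
      simp
    rw [e1] at hre
    rw [e2] at him
    have hkj' := abs_le.1 hkj
    have hx1 : v + qN q e N - j * (q * qN q e N) ∈ Icc (-(q : ℝ)) q ×ℂ Icc M3 (M3 + 2) := by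
      refine ⟨?_, ?_⟩
      · have e3 : (v + qN q e N - j * (q * qN q e N)).re =
            v.re + qN q e N - j * (q * qN q e N) := by simp
        show (v + qN q e N - j * (q * qN q e N)).re ∈ Icc (-(q : ℝ)) q
        rw [e3]
        constructor <;> linarith [hre.1, hre.2, hkj'.1, hkj'.2]
      · have e3 : (v + qN q e N - j * (q * qN q e N)).im = v.im := by simp
        show (v + qN q e N - j * (q * qN q e N)).im ∈ Icc M3 (M3 + 2)
        rw [e3]
        constructor <;> linarith [him.1, him.2]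
    have h1 := hKN _ hx1
    have h2 : QN c N (v + qN q e N - j * (q * qN q e N) - qN q e N) = QN c N v := by
      have h3 := QN_per hq c hN0 (w := v) (by linarith [him.1]) (-j)
      rw [← h3]
      congr 1
      push_cast
      ring
    rw [h2] at h1
    have h4 := hQF (M3 + 1) (by linarith) N hN0 w hw.ge k hk.le
    rw [← hv] at h4
    have h5 := hT8 (M3 + 1) (by linarith)
    set θ := T * (M3 + 1) ^ (-(1 / (q : ℝ))) with hθ
    have hw0 := norm_nonneg (QN c N w)
    have h6 : ‖QN c N w‖ ≤ 2 * (‖a‖ + 1) := by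
      have h7 : ‖QN c N w‖ ≤ ‖QN c N v - a‖ + ‖a‖ + ‖QN c N v - QN c N w‖ := by
        have e3 : QN c N w = (QN c N v - a) + a - (QN c N v - QN c N w) := by ring
        calc ‖QN c N w‖ = ‖(QN c N v - a) + a - (QN c N v - QN c N w)‖ := by rw [← e3]
          _ ≤ ‖(QN c N v - a) + a‖ + ‖QN c N v - QN c N w‖ := norm_sub_le _ _
          _ ≤ _ := by linarith [norm_add_le (QN c N v - a) a]
      nlinarith
    have h8 : θ * ‖QN c N w‖ ≤ δ / 4 := by
      have h9 : θ ≤ δ / (8 * (‖a‖ + 2)) := hM3a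
      have h10 : 0 < δ / (8 * (‖a‖ + 2)) := by positivity
      calc θ * ‖QN c N w‖ ≤ δ / (8 * (‖a‖ + 2)) * (2 * (‖a‖ + 1)) :=
            mul_le_mul h9 h6 hw0 h10.le
        _ ≤ δ / (8 * (‖a‖ + 2)) * (2 * (‖a‖ + 2)) := by
            refine mul_le_mul_of_nonneg_left (by linarith) h10.le
        _ = δ / 4 := by
            field_simp
            norm_num
    have h11 : QN c N w - a = (QN c N v - a) - (QN c N v - QN c N w) := by ring
    rw [h11]
    refine (norm_sub_le _ _).trans ?_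
    linarith
  obtain ⟨B, hB⟩ := T5_bdd hp hpq hs c hN0 (A := M3 + 1) (by linarith)
  exact T5_pl (F := fun w => QN c N w - a) (M := c.M1 hq) (A := M3 + 1) (B := B + ‖a‖) (by linarith)
    ((T5_diff hq c hN0).sub_const a) (fun w hw => (norm_sub_le _ _).trans (by linarith [hB w hw]))
    hbd hw

end Pool.Agent.CR
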