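import Pool.Agent.H24.CR.T2

/-!
# CR T6: the coordinate `u` at the top; inverse of the return map; backward orbits

`uN H a q e N w = H.u a (w + n) = i q / (2 π a) exp (- 2 π i (w + n) / q)`, so `uN * XN = i q / (2 π a)`; `‖uN w‖ = q / (2 π ‖a‖) exp (2 π Im w / q)`.

`u_step`: `uN (HN w) = uN w * exp (- 2 π i (EN w) / q)` and `- 2 π i (EN w) / q = QN w / (a uN w)` (`EN = XN QN`). With `‖QN w - a‖ ≤ ‖a‖ / 16` the exponent `x = QN w / (a uN w)` has `‖x‖ ≤ 2 / ‖uN w‖ ≤ 1`, `‖exp x - 1 - x‖ ≤ ‖x‖^2`,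
`uN w x = QN w / a`, so `‖uN (HN w) - uN w - 1‖ ≤ 1/16 + ‖uN w‖ ‖x‖^2 ≤ 1/16 + 4 / ‖uN w‖ ≤ 1/8` for `Im w` large.

`HN_inv`: `near_id_inv` with `σ = 0`, `S = 4 M1` (`HP 0 S = {w | S < 4 Im w}`), `‖HN w - w‖ ≤ 1/8` (`HN_est`, `TT_le`).

`back_orbit`: put `u_j = uN (w_j)`. Induction on `j`: the four claims (i) `Re u_j ≤ Re u_0 - (7/8) j`, (ii) `|Im u_j| ≤ |Im u_0| + j / 8`, (iii) `w_j - w_0 = (i q / (2 π)) (log (-u_j) - log (-u_0))` (principal logarithms), (iv) `Im w_j ≥ Im w_0 - q`.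
Since `Re u_0 < 0` (`uN ≠ 0`, `|Im u_0| ≤ -(11/10) Re u_0`), (i), (ii) give `|Im u_j| ≤ -(11/10) Re u_j` (`1/8 ≤ (11/10) (7/8)`), so `Re (-u_j) > 0` and `‖u_j‖ ≥ -Re u_j ≥ -Re u_0 ≥ ‖u_0‖ / (3/2)` (`√(1 + 121/100) < 3/2`).
(iii) gives `Im w_j - Im w_0 = (q / 2 π) (log ‖u_j‖ - log ‖u_0‖) ≥ -(q / 2 π) log (3/2) ≥ -q` (iv), and `|Re w_j - Re w_0| = (q / 2 π) |arg (-u_j) - arg (-u_0)| ≤ q / 2`. Step: `Im w_{j+1} ≥ Im w_j - 1/8 ≥ M5 - q - 1/8 ≥ M4`, so `hstep` at `w_{j+1}` gives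
`‖u_j - u_{j+1} - 1‖ ≤ 1/8`: (i), (ii) for `j + 1`. (iii): `exp (- 2 π i (w_{j+1} - w_j) / q) = u_{j+1} / u_j = exp (log (-u_{j+1}) - log (-u_j))`; both exponents have imaginary part in `(-π, π)` (`‖w_{j+1} - w_j‖ ≤ 1/8`, `q ≥ 1`; the arguments of `-u_j`, `-u_{j+1}` are in `(-π/2, π/2)`), so they agree.
-/

set_option autoImplicit false

open Set Filter Topology Metric

namespace Pool.Agent.CR

variable {p q s e : ℕ}

/-- the coordinate `u` at the top, level `N` -/
noncomputable def uN (H : Horn) (a : ℂ) (q e N : ℕ) (w : ℂ) : ℂ := H.u a (w + qN q e N)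

private theorem T6_u (hq : 0 < q) (H : Horn) (Hq : H.q = q) (a : ℂ) (N : ℕ) (w : ℂ) :
    uN H a q e N w = Complex.I * q / (2 * Real.pi * a) *
      Complex.exp (-(2 * Real.pi * Complex.I * (w + qN q e N) / q)) := by
  rw [uN, Horn.u, Hq]
  push_cast
  rfl

private theorem T6_u_add (hq : 0 < q) (H : Horn) (Hq : H.q = q) (a : ℂ) (N : ℕ) (w d : ℂ) :
    uN H a q e N (w + d) = uN H a q e N w *
      Complex.exp (-(2 * Real.pi * Complex.I * d / q)) := by
  rw [T6_u hq H Hq, T6_u hq H Hq, mul_assoc (Complex.I * q / (2 * Real.pi * a)),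
    ← Complex.exp_add]
  congr 2
  ring

theorem uN_mul_XN (hq : 0 < q) (H : Horn) (Hq : H.q = q) {a : ℂ} (ha : a ≠ 0) (N : ℕ) (w : ℂ) :
    uN H a q e N w * XN q e N w = Complex.I * q / (2 * Real.pi * a) := by
  rw [T6_u hq H Hq, XN, mul_assoc, ← Complex.exp_add, neg_add_cancel, Complex.exp_zero, mul_one]

theorem norm_uN (hq : 0 < q) (H : Horn) (Hq : H.q = q) {a : ℂ} (ha : a ≠ 0) (N : ℕ) (w : ℂ) :
    ‖uN H a q e N w‖ = q / (2 * Real.pi * ‖a‖) * Real.exp (2 * Real.pi * w.im / q) := by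
  rw [T6_u hq H Hq, norm_mul, Complex.norm_exp]
  congr 1
  · rw [norm_div, norm_mul, norm_mul, norm_mul, Complex.norm_I, one_mul, Complex.norm_natCast,
      Complex.norm_real, Real.norm_of_nonneg Real.pi_pos.le]
    norm_num
  · congr 1
    have h1 : -(2 * Real.pi * Complex.I * (w + qN q e N) / q) =
        ((-(2 * Real.pi) / q : ℝ) : ℂ) * (Complex.I * (w + qN q e N)) := by
      push_cast
      ring
    rw [h1, Complex.re_ofReal_mul, Complex.I_mul_re, Complex.add_im, Complex.natCast_im]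
    ring

theorem u_step (hq : 0 < q) (c : Chart p q s e) (H : Horn) (Hq : H.q = q) {a : ℂ} (ha : a ≠ 0) :
    ∃ M4 : ℝ, ∀ (N : ℕ) (w : ℂ), M4 ≤ w.im → ‖QN c N w - a‖ ≤ ‖a‖ / 16 →
      ‖uN H a q e N (HN c N w) - uN H a q e N w - 1‖ ≤ 1 / 8 := by
  have hq' : (0 : ℝ) < q := by exact_mod_cast hq
  have hπ := Real.pi_pos
  have hna : 0 < ‖a‖ := norm_pos_iff.2 ha
  refine ⟨q / (2 * Real.pi) * Real.log (64 * (2 * Real.pi * ‖a‖) / q), fun N w hw hQ => ?_⟩
  set U := uN H a q e N w with hU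
  have hU64 : 64 ≤ ‖U‖ := by
    rw [hU, norm_uN hq H Hq ha]
    have h1 : Real.log (64 * (2 * Real.pi * ‖a‖) / q) ≤ 2 * Real.pi * w.im / q := by
      have h2 := mul_le_mul_of_nonneg_left hw (by positivity : 0 ≤ 2 * Real.pi / (q : ℝ))
      have h3 : 2 * Real.pi / (q : ℝ) * (q / (2 * Real.pi) *
          Real.log (64 * (2 * Real.pi * ‖a‖) / q)) = Real.log (64 * (2 * Real.pi * ‖a‖) / q) := by
        field_simp
      have h4 : 2 * Real.pi / (q : ℝ) * w.im = 2 * Real.pi * w.im / q := by ring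
      rwa [h3, h4] at h2
    have h2 := Real.exp_le_exp.2 h1
    rw [Real.exp_log (by positivity)] at h2
    have h3 := mul_le_mul_of_nonneg_left h2 (by positivity : 0 ≤ (q : ℝ) / (2 * Real.pi * ‖a‖))
    have h4 : (q : ℝ) / (2 * Real.pi * ‖a‖) * (64 * (2 * Real.pi * ‖a‖) / q) = 64 := by
      field_simp
    rwa [h4] at h3
  have hUpos : 0 < ‖U‖ := by linarith
  have hU0 : U ≠ 0 := norm_pos_iff.1 hUpos
  have hX0 : XN q e N w ≠ 0 := Complex.exp_ne_zero _
  set x := QN c N w / (a * U) with hx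
  have hex : -(2 * Real.pi * Complex.I * EN c N w / q) = x := by
    have h1 : EN c N w = QN c N w * XN q e N w := by
      rw [QN, div_mul_cancel₀ _ hX0]
    have h2 := uN_mul_XN (e := e) hq H Hq ha N w
    rw [← hU] at h2
    have hqc : (q : ℂ) ≠ 0 := by exact_mod_cast hq.ne'
    have hpc : (Real.pi : ℂ) ≠ 0 := by exact_mod_cast hπ.ne'
    have h3 : XN q e N w = Complex.I * q / (2 * Real.pi * a) / U := by
      rw [eq_div_iff hU0, mul_comm]
      exact h2
    rw [h1, h3, hx]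
    field_simp
    rw [Complex.I_sq]
    ring
  have hstep : uN H a q e N (HN c N w) = U * Complex.exp x := by
    have h1 : HN c N w = w + EN c N w := by rw [EN]; ring
    rw [h1, T6_u_add hq H Hq, hex]
  have hQn : ‖QN c N w‖ ≤ 2 * ‖a‖ := by
    have h1 : QN c N w = (QN c N w - a) + a := by ring
    rw [h1]
    refine (norm_add_le _ _).trans ?_
    linarith
  have hxn : ‖x‖ ≤ 2 / ‖U‖ := by
    rw [hx, norm_div, norm_mul, div_le_div_iff₀ (by positivity) hUpos]
    have := mul_le_mul_of_nonneg_right hQn hUpos.le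
    linarith
  have hx1 : ‖x‖ ≤ 1 := hxn.trans (by rw [div_le_one hUpos]; linarith)
  have h5 : ‖Complex.exp x - 1 - x‖ ≤ ‖x‖ ^ 2 := Complex.norm_exp_sub_one_sub_id_le hx1
  have h6 : uN H a q e N (HN c N w) - U - 1 =
      U * (Complex.exp x - 1 - x) + (QN c N w - a) / a := by
    rw [hstep, hx]
    field_simp
    ring
  rw [h6]
  refine (norm_add_le _ _).trans ?_
  have h7 : ‖(QN c N w - a) / a‖ ≤ 1 / 16 := by
    rw [norm_div, div_le_iff₀ hna]
    linarith
  have h8 : ‖U * (Complex.exp x - 1 - x)‖ ≤ 1 / 16 := by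
    rw [norm_mul]
    have h9 : ‖x‖ ^ 2 ≤ (2 / ‖U‖) ^ 2 := pow_le_pow_left₀ (norm_nonneg _) hxn 2
    have h10 := mul_le_mul_of_nonneg_left (h5.trans h9) hUpos.le
    refine h10.trans ?_
    have h11 : ‖U‖ * (2 / ‖U‖) ^ 2 = 4 / ‖U‖ := by
      field_simp
      norm_num
    rw [h11, div_le_iff₀ hUpos]
    linarith
  linarith

theorem HN_inv (hq : 0 < q) (c : Chart p q s e) {N : ℕ} (hN0 : c.N0 ≤ N) :
    InjOn (HN c N) {w | c.M1 hq + 2 < w.im} ∧ ∃ G : ℂ → ℂ, ContinuousOn G {w | c.M1 hq + 2 < w.im} ∧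
      ∀ w : ℂ, c.M1 hq + 2 < w.im → HN c N (G w) = w ∧ ‖G w - w‖ ≤ 1 / 8 := by
  have hset : ∀ t : ℝ, HP 0 (4 * c.M1 hq + t) = {w : ℂ | c.M1 hq + t / 4 < w.im} := by
    intro t
    ext w
    simp only [HP, mem_ofPred_eq, zero_mul, zero_add]
    constructor <;> intro h <;> linarith
  have hset0 : HP 0 (4 * c.M1 hq) = {w : ℂ | c.M1 hq < w.im} := by
    have h := hset 0
    rwa [add_zero, zero_div, add_zero] at h
  obtain ⟨h1, h, h2, h3, -⟩ := near_id_inv (σ := 0) (S := 4 * c.M1 hq) (g := HN c N)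
    (by rw [abs_zero]; exact zero_le_one) (by rw [hset0]; exact HN_diff hq c hN0) (by
      rw [hset0]
      intro w hw
      exact (HN_est hq c hN0 le_rfl (le_of_lt hw)).trans (c.TT_le hq _ le_rfl))
  refine ⟨h1.mono ?_, h, ?_, fun w hw => ?_⟩
  · rw [hset]
    intro w hw
    simp only [mem_ofPred_eq] at hw ⊢
    linarith
  · refine h2.continuousOn.mono ?_
    rw [hset]
    intro w hw
    simp only [mem_ofPred_eq] at hw ⊢
    linarith
  · have h4 := h3 w (by
      rw [hset]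
      simp only [mem_ofPred_eq]
      linarith)
    exact h4.2

theorem back_orbit (hq : 0 < q) (H : Horn) (Hq : H.q = q) {a : ℂ} (ha : a ≠ 0) (N : ℕ) (T : ℂ → ℂ) {M4 : ℝ}
    (hstep : ∀ w : ℂ, M4 ≤ w.im → ‖uN H a q e N (T w) - uN H a q e N w - 1‖ ≤ 1 / 8) (w : ℕ → ℂ) (J : ℕ)
    (hw : ∀ j < J, T (w (j + 1)) = w j ∧ ‖w (j + 1) - w j‖ ≤ 1 / 8) (h0 : M4 + q + 1 ≤ (w 0).im)
    (hu : |(uN H a q e N (w 0)).im| ≤ -(11 / 10) * (uN H a q e N (w 0)).re) :
    ∀ j ≤ J, (w 0).im - q ≤ (w j).im ∧ |(w j).re - (w 0).re| ≤ q := by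
  have hq' : (1 : ℝ) ≤ q := by exact_mod_cast hq
  have hπ := Real.pi_pos
  have hπ3 := Real.pi_gt_three
  have hqc : (q : ℂ) ≠ 0 := by exact_mod_cast hq.ne'
  have hpc : (Real.pi : ℂ) ≠ 0 := by exact_mod_cast hπ.ne'
  set u : ℕ → ℂ := fun j => uN H a q e N (w j) with hu'
  have hupos : ∀ z, 0 < ‖uN H a q e N z‖ := by
    intro z
    rw [norm_uN hq H Hq ha]
    have : 0 < ‖a‖ := norm_pos_iff.2 ha
    positivity
  have hre0 : (u 0).re < 0 := by
    by_contra hcon
    push Not at hcon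
    have h1 : |(u 0).im| ≤ -(11 / 10) * (u 0).re := hu
    have h2 := abs_nonneg (u 0).im
    have h3 : (u 0).re = 0 := by linarith
    have h4 : (u 0).im = 0 := by
      rw [h3, mul_zero] at h1
      exact abs_eq_zero.1 (le_antisymm h1 h2)
    have h5 : u 0 = 0 := Complex.ext h3 h4
    have h6 := hupos (w 0)
    have h7 : ‖u 0‖ = 0 := by rw [h5, norm_zero]
    exact absurd h7 h6.ne'
  have hn0 : ‖u 0‖ ≤ 3 / 2 * (-(u 0).re) := by
    have h1 : |(u 0).im| ≤ -(11 / 10) * (u 0).re := hu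
    have h2 : (u 0).im ^ 2 ≤ (-(11 / 10) * (u 0).re) ^ 2 := by
      rw [← sq_abs]
      exact pow_le_pow_left₀ (abs_nonneg _) h1 2
    apply le_of_sq_le_sq _ (by linarith)
    rw [Complex.sq_norm, Complex.normSq_apply]
    nlinarith [sq_nonneg (u 0).re]
  -- consequences of the representation by logarithms
  have hcons : ∀ j, (u j).re ≤ (u 0).re → w j - w 0 = Complex.I * q / (2 * Real.pi) *
      (Complex.log (-u j) - Complex.log (-u 0)) →
      (w 0).im - q ≤ (w j).im ∧ |(w j).re - (w 0).re| ≤ q := by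
    intro j h1 h2
    have h3 : w j - w 0 = ((q / (2 * Real.pi) : ℝ) : ℂ) *
        (Complex.I * (Complex.log (-u j) - Complex.log (-u 0))) := by
      rw [h2]
      push_cast
      ring
    have h4 := congrArg Complex.im h3
    have h5 := congrArg Complex.re h3
    rw [Complex.im_ofReal_mul, Complex.I_mul_im, Complex.sub_im, Complex.sub_re, Complex.log_re,
      Complex.log_re, norm_neg, norm_neg] at h4
    rw [Complex.re_ofReal_mul, Complex.I_mul_re, Complex.sub_re, Complex.sub_im, Complex.log_im,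
      Complex.log_im] at h5
    have hc0 : 0 < (q : ℝ) / (2 * Real.pi) := by positivity
    constructor
    · have h6 : ‖u 0‖ ≤ 3 / 2 * ‖u j‖ := by
        have h7 := Complex.abs_re_le_norm (u j)
        have h8 := neg_abs_le (u j).re
        linarith
      have h9 : Real.log ‖u 0‖ ≤ Real.log (3 / 2) + Real.log ‖u j‖ := by
        rw [← Real.log_mul (by norm_num) (hupos (w j)).ne']
        exact Real.log_le_log (hupos (w 0)) h6
      have h10 : Real.log (3 / 2) ≤ 1 := by
        have := Real.log_le_sub_one_of_pos (by norm_num : (0 : ℝ) < 3 / 2)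
        linarith
      have h11 : (q : ℝ) / (2 * Real.pi) * (-1) ≤
          q / (2 * Real.pi) * (Real.log ‖u j‖ - Real.log ‖u 0‖) :=
        mul_le_mul_of_nonneg_left (by linarith) hc0.le
      have h12 : (q : ℝ) / (2 * Real.pi) ≤ q := by
        rw [div_le_iff₀ (by positivity)]
        have := mul_le_mul_of_nonneg_left (by linarith : (1 : ℝ) ≤ 2 * Real.pi)
          (by linarith : (0 : ℝ) ≤ q)
        linarith
      linarith
    · rw [h5, abs_mul, abs_of_pos hc0, abs_neg]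
      have h6 := abs_le.1 (Complex.abs_arg_le_pi (-u j))
      have h7 := abs_le.1 (Complex.abs_arg_le_pi (-u 0))
      have h8 : |(-u j).arg - (-u 0).arg| ≤ 2 * Real.pi := by
        rw [abs_le]
        constructor <;> linarith
      calc (q : ℝ) / (2 * Real.pi) * |(-u j).arg - (-u 0).arg| ≤ q / (2 * Real.pi) * (2 * Real.pi) :=
            mul_le_mul_of_nonneg_left h8 hc0.le
        _ = q := by field_simp
  have key : ∀ j ≤ J, (u j).re ≤ (u 0).re - 7 / 8 * j ∧ w j - w 0 = Complex.I * q / (2 * Real.pi) *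
      (Complex.log (-u j) - Complex.log (-u 0)) := by
    intro j
    induction j with
    | zero =>
      intro _
      refine ⟨by simp, by simp⟩
    | succ j ih =>
      intro hj
      obtain ⟨ih1, ih2⟩ := ih (by omega)
      have hj0 : (0 : ℝ) ≤ j := Nat.cast_nonneg j
      obtain ⟨hc1, -⟩ := hcons j (by linarith) ih2
      obtain ⟨hT, hd⟩ := hw j (by omega)
      have him : M4 ≤ (w (j + 1)).im := by
        have h1 := (abs_le.1 ((Complex.abs_im_le_norm _).trans hd)).1
        rw [Complex.sub_im] at h1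
        linarith
      have h2 := hstep (w (j + 1)) him
      rw [hT] at h2
      have h3 : ‖u j - u (j + 1) - 1‖ ≤ 1 / 8 := h2
      have h4 := (abs_le.1 ((Complex.abs_re_le_norm _).trans h3)).1
      rw [Complex.sub_re, Complex.sub_re, Complex.one_re] at h4
      refine ⟨by push_cast; linarith, ?_⟩
      set d := -(2 * Real.pi * Complex.I * (w (j + 1) - w j) / q) with hdd
      have h5 : u (j + 1) = u j * Complex.exp d := by
        have h6 : w (j + 1) = w j + (w (j + 1) - w j) := by ring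
        have h7 := T6_u_add (e := e) hq H Hq a N (w j) (w (j + 1) - w j)
        rw [← h6] at h7
        exact h7
      have h8 : ‖d‖ ≤ Real.pi / 4 := by
        rw [hdd, norm_neg, norm_div, norm_mul, norm_mul, norm_mul, Complex.norm_I,
          Complex.norm_natCast, Complex.norm_real, Real.norm_of_nonneg hπ.le, mul_one,
          div_le_iff₀ (by linarith)]
        have h9 : ‖(2 : ℂ)‖ = 2 := by norm_num
        rw [h9]
        have h10 := mul_le_mul_of_nonneg_left hd (by linarith : (0 : ℝ) ≤ 2 * Real.pi)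
        have h11 := mul_le_mul_of_nonneg_left hq' (by linarith : (0 : ℝ) ≤ Real.pi / 4)
        linarith
      have h9 : Complex.log (-u (j + 1)) = Complex.log (-u j) + d := by
        have hne : -u j ≠ 0 := neg_ne_zero.2 (norm_pos_iff.1 (hupos (w j)))
        have h10 : -u (j + 1) = Complex.exp (Complex.log (-u j) + d) := by
          rw [Complex.exp_add, Complex.exp_log hne, h5]
          ring
        have h11 : |(-u j).arg| < Real.pi / 2 := by
          rw [Complex.abs_arg_lt_pi_div_two_iff]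
          left
          rw [Complex.neg_re]
          linarith
        have h12 := abs_lt.1 h11
        have h13 := abs_le.1 ((Complex.abs_im_le_norm d).trans h8)
        rw [h10, Complex.log_exp]
        · rw [Complex.add_im, Complex.log_im]
          linarith
        · rw [Complex.add_im, Complex.log_im]
          linarith
      have h14 : w (j + 1) - w j = Complex.I * q / (2 * Real.pi) * d := by
        rw [hdd]
        field_simp
        rw [Complex.I_sq]
        ring
      have h15 : w (j + 1) - w 0 = (w (j + 1) - w j) + (w j - w 0) := by ring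
      rw [h15, h14, ih2, h9]
      ring
  intro j hj
  obtain ⟨h1, h2⟩ := key j hj
  have hj0 : (0 : ℝ) ≤ j := Nat.cast_nonneg j
  exact hcons j (by linarith) h2

end Pool.Agent.CR
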