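import Pool.Agent.H24.CR.T1
import Pool.Agent.H48.CR.Hz
import Pool.Agent.H48.CR.G5a

/-!
# CR T7: uniform Hurwitz, unique lifting of paths, derivative of `h_N`

`hurwitz_compact`: by `hurwitz` (`F N w = W N (w + j n)`, `G = W0 j`, `U = Wd0 R`; `lim`, `cc_of_tlu`, `diff`, `inj0`) with `κ / 2`: for every `w1 ∈ K` there are `ε1 > 0`, `N1` such that for `N ≥ N1` and `‖z - W0 j w1‖ ≤ 2 ε1` there is `w'` with `‖w' - w1‖ ≤ κ / 2`, `W N (w' + j n) = z`. For `w0` close to `w1`
(`‖w0 - w1‖ ≤ κ / 2`, `‖W0 j w0 - W0 j w1‖ ≤ ε1`) and `‖z - W0 j w0‖ ≤ ε1` this `w'` works for `w0`. Finite subcover of `K` (or `IsCompact.induction_on`, `IsCompact.elim_nhds_subcover`).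
(The differentiability hypothesis of `hurwitz`: for `w0 ∈ Wd0 R` and `N` large, `w` near `w0`, `w + j n ∈ Wd n R`: for the hole `k = j` because `Wd0 R` is open, for the other holes because `n → ∞`.)

`deriv_hN_ne`: near `w`, `hN (W N w) = W N (HN w)` (`HN_W`); `HN` is injective on `Im w > M1 + 2` (`near_id_inv` as in T6, or `near_id_lip`), so `deriv HN w ≠ 0`; `W N` is injective on a small ball about `w` and about `HN w` (`inj`; radius `< q n / 2`), so `deriv (W N) ≠ 0` there (`deriv_ne_of_injOn`); chain rule.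

`unique_lift`: `{t ∈ [a, b] | A t = B t}` is closed in `[a, b]` and contains `a`; if `A t0 = B t0` then `h` is injective on a neighbourhood `V` of `B t0` (inverse function theorem) and `A t, B t ∈ V` for `t` near `t0`, so `A t = B t`. Connectedness of `[a, b]` (`isPreconnected_Icc`, `IsPreconnected.subset_isClopen` or `IsClosed.Icc_subset_of_forall_mem_nhdsWithin`).
-/

set_option autoImplicit false

open Set Filter Topology Metric

namespace Pool.Agent.CR

variable {p q s e : ℕ}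

private theorem T7_q_pos (c : Chart p q s e) : 0 < q := by
  rcases Nat.eq_zero_or_pos q with h | h
  · exfalso
    subst h
    obtain ⟨r, hr, h1⟩ := c.Y0_eq
    obtain ⟨r', hr', h2⟩ := c.Y0_large 2
    have hm : 0 < min r r' / 2 := by positivity
    have hn : ‖((min r r' / 2 : ℝ) : ℂ)‖ = min r r' / 2 := by
      rw [Complex.norm_real, Real.norm_of_nonneg hm.le]
    have hz : ((min r r' / 2 : ℝ) : ℂ) ≠ 0 := by
      exact_mod_cast hm.ne'
    have h3 := (h1 _ hz (by rw [hn]; linarith [min_le_left r r'])).2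
    have h4 := h2 _ hz (by rw [hn]; linarith [min_le_right r r'])
    rw [h3] at h4
    simp at h4
  · exact h

private theorem T7_n_tendsto (hq : 0 < q) : Tendsto (fun N : ℕ => (qN q e N : ℝ)) atTop atTop := by
  refine tendsto_natCast_atTop_atTop.comp ?_
  refine tendsto_atTop_mono (fun N => ?_) tendsto_id
  unfold qN
  show N ≤ q * N + e
  nlinarith

theorem hurwitz_compact (c : Chart p q s e) (j : ℤ) {K : Set ℂ} (hK : IsCompact K) (hKW : K ⊆ Wd0 c.R) {κ : ℝ}
    (hκ : 0 < κ) : ∃ ε : ℝ, 0 < ε ∧ ∀ᶠ N in atTop, ∀ w0 ∈ K, ∀ z : ℂ, ‖z - c.W0 j w0‖ ≤ ε →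
      ∃ w' : ℂ, ‖w' - w0‖ ≤ κ ∧ c.W N (w' + j * qN q e N) = z := by
  have hq := T7_q_pos c
  have hn := T7_n_tendsto (e := e) hq
  have hO : IsOpen (Wd0 c.R) := G.isOpen_Wd0 c.R
  have hcc : G.CC (fun N w => c.W N (w + j * qN q e N)) (c.W0 j) (Wd0 c.R) :=
    G.cc_of_tlu hO (c.diff0 j).continuousOn (c.lim j)
  have hD : ∀ w ∈ Wd0 c.R, ∀ᶠ x : ℕ × ℂ in atTop ×ˢ 𝓝 w,
      DifferentiableAt ℂ ((fun N w => c.W N (w + j * qN q e N)) x.1) x.2 := by
    intro w hw
    have h1 := G.Wd0_ev (n := fun N => (qN q e N : ℝ)) hn hw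
    have h2 : ∀ᶠ x : ℕ × ℂ in atTop ×ˢ 𝓝 w, c.N0 ≤ x.1 :=
      (eventually_ge_atTop c.N0).prod_inl _
    filter_upwards [h1, h2] with x hx hN
    have hR := c.R_ge
    have hng := c.n_ge x.1 hN
    have hn0 : (0 : ℝ) < qN q e x.1 := by nlinarith
    have h3 : x.2 + j * qN q e x.1 ∈ Wd (qN q e x.1) c.R := by
      have := G.Wd_add hx j
      simpa using this
    have h4 : DifferentiableAt ℂ (c.W x.1) (x.2 + j * qN q e x.1) :=
      (c.diff x.1 hN).differentiableAt ((G.isOpen_Wd hn0 c.R).mem_nhds h3)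
    have h5 : DifferentiableAt ℂ (fun w : ℂ => w + j * qN q e x.1) x.2 := by fun_prop
    exact DifferentiableAt.comp (f := fun w : ℂ => w + j * qN q e x.1) x.2 h4 h5
  have hI : InjOn (c.W0 j) (Wd0 c.R) := fun w hw w' hw' h => (c.inj0 j j w hw w' hw' h).1
  refine hK.induction_on (p := fun S => ∃ ε : ℝ, 0 < ε ∧ ∀ᶠ N in atTop, ∀ w0 ∈ S, ∀ z : ℂ,
    ‖z - c.W0 j w0‖ ≤ ε → ∃ w' : ℂ, ‖w' - w0‖ ≤ κ ∧ c.W N (w' + j * qN q e N) = z) ?_ ?_ ?_ ?_
  · exact ⟨1, one_pos, Eventually.of_forall fun N w0 hw0 => absurd hw0 (notMem_empty _)⟩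
  · rintro S T hST ⟨ε, hε, h⟩
    exact ⟨ε, hε, h.mono fun N hN w0 hw0 => hN w0 (hST hw0)⟩
  · rintro S T ⟨ε, hε, h⟩ ⟨ε', hε', h'⟩
    refine ⟨min ε ε', lt_min hε hε', ?_⟩
    filter_upwards [h, h'] with N hN hN' w0 hw0 z hz
    rcases hw0 with hw0 | hw0
    · exact hN w0 hw0 z (hz.trans (min_le_left _ _))
    · exact hN' w0 hw0 z (hz.trans (min_le_right _ _))
  · intro w1 hw1
    have hw1U := hKW hw1
    have h1 := G.hurwitz hO hcc hD hI hw1U (half_pos hκ)
    rw [eventually_prod_iff] at h1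
    obtain ⟨pa, hpa, pb, hpb, hab⟩ := h1
    obtain ⟨ρ, hρ, hball⟩ := Metric.eventually_nhds_iff_ball.1 hpb
    have hcont : ContinuousAt (c.W0 j) w1 := (c.diff0 j).continuousOn.continuousAt (hO.mem_nhds hw1U)
    have hn1 : ∀ᶠ w0 in 𝓝 w1, ‖c.W0 j w0 - c.W0 j w1‖ < ρ / 2 := by
      have := hcont.eventually (Metric.ball_mem_nhds _ (half_pos hρ))
      filter_upwards [this] with w0 hw0
      rwa [← dist_eq_norm]
    have hn2 : ∀ᶠ w0 in 𝓝 w1, ‖w0 - w1‖ < κ / 2 := by
      filter_upwards [Metric.ball_mem_nhds w1 (half_pos hκ)] with w0 hw0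
      rw [← dist_eq_norm]; exact hw0
    refine ⟨{w0 | ‖c.W0 j w0 - c.W0 j w1‖ < ρ / 2 ∧ ‖w0 - w1‖ < κ / 2}, mem_nhdsWithin_of_mem_nhds (hn1.and hn2),
      ρ / 4, by positivity, ?_⟩
    filter_upwards [hpa] with N hN w0 hw0 z hz
    have hz1 : z ∈ ball (c.W0 j w1) ρ := by
      rw [mem_ball, dist_eq_norm]
      calc ‖z - c.W0 j w1‖ = ‖(z - c.W0 j w0) + (c.W0 j w0 - c.W0 j w1)‖ := by ring_nf
        _ ≤ ‖z - c.W0 j w0‖ + ‖c.W0 j w0 - c.W0 j w1‖ := norm_add_le _ _
        _ < ρ := by linarith [hw0.1]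
    obtain ⟨w', hw', e'⟩ := hab hN (hball z hz1)
    refine ⟨w', ?_, e'⟩
    calc ‖w' - w0‖ = ‖(w' - w1) - (w0 - w1)‖ := by ring_nf
      _ ≤ ‖w' - w1‖ + ‖w0 - w1‖ := norm_sub_le _ _
      _ ≤ κ := by linarith [hw0.2]

private theorem T7_hN_diff (p q s e N : ℕ) : Differentiable ℂ (hN p q s e N) := by
  have h1 : Differentiable ℂ (f (lN p q s e N)) := by
    unfold f
    fun_prop
  exact h1.iterate _

theorem deriv_hN_ne (hq : 0 < q) (hs : q * s = p * e + 1) (c : Chart p q s e) {N : ℕ} (hN0 : c.N0 ≤ N) {w : ℂ}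
    (hw : c.M1 hq + 3 < w.im) : deriv (hN p q s e N) (c.W N w) ≠ 0 := by
  have hR := c.R_ge
  have hM1 := c.M1_ge hq
  have hM1' := c.M1_ge' hq
  have hng := c.n_ge N hN0
  have hq1 : (1 : ℝ) ≤ q := by exact_mod_cast hq
  have hT := c.TT_le hq (c.M1 hq) le_rfl
  have him : ∀ {x y : ℂ} {r : ℝ}, y ∈ ball x r → x.im - r < y.im := by
    intro x y r hy
    rw [mem_ball, dist_eq_norm] at hy
    have h1 : |(y - x).im| ≤ ‖y - x‖ := Complex.abs_im_le_norm _
    rw [Complex.sub_im] at h1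
    linarith [(abs_le.1 h1).1]
  -- the return map is injective near `w`
  have hHd : DifferentiableOn ℂ (HN c N) (ball w 1) :=
    (HN_diff hq c hN0).mono fun x hx => by
      have := him hx
      show c.M1 hq < x.im
      linarith
  have hHe : ∀ x ∈ ball w 1, ‖HN c N x - x‖ ≤ 1 / 8 := fun x hx => by
    have := him hx
    exact (HN_est hq c hN0 le_rfl (by linarith)).trans hT
  have hHi : InjOn (HN c N) (ball w (1 / 2)) := by
    intro x hx y hy hxy
    have h1 := near_id_ball hHd hHe x hx y hy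
    rw [hxy, sub_self, zero_sub, norm_neg] at h1
    have h2 : ‖x - y‖ = 0 := by linarith [norm_nonneg (x - y)]
    exact sub_eq_zero.1 (norm_eq_zero.1 h2)
  have hHne : deriv (HN c N) w ≠ 0 :=
    deriv_ne_of_injOn isOpen_ball (hHd.mono (ball_subset_ball (by norm_num))) hHi (mem_ball_self (by norm_num))
  -- the chart near a point high up
  have hWball : ∀ x : ℂ, c.M1 hq + 2 < x.im → ball x 1 ⊆ Wd (qN q e N) c.R := by
    intro x hx y hy
    have := him hy
    exact top_mem_Wd (r := c.M1 hq) (by linarith) (by linarith) (by linarith)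
  have hWd : ∀ x : ℂ, c.M1 hq + 2 < x.im → DifferentiableOn ℂ (c.W N) (ball x 1) := fun x hx =>
    (c.diff N hN0).mono (hWball x hx)
  have hWi : ∀ x : ℂ, c.M1 hq + 2 < x.im → InjOn (c.W N) (ball x 1) := by
    intro x hx y hy y' hy' hyy
    obtain ⟨k, hk⟩ := c.inj N hN0 y (hWball x hx hy) y' (hWball x hx hy') hyy
    have h1 : ‖y' - y‖ < 2 := by
      rw [mem_ball, dist_eq_norm] at hy hy'
      calc ‖y' - y‖ = ‖(y' - x) - (y - x)‖ := by ring_nf
        _ ≤ ‖y' - x‖ + ‖y - x‖ := norm_sub_le _ _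
        _ < 2 := by linarith
    have h2 : ‖y' - y‖ = |(k : ℝ)| * (q * qN q e N) := by
      rw [hk, add_sub_cancel_left, norm_mul, norm_mul, Complex.norm_intCast, Complex.norm_natCast, Complex.norm_natCast]
    have h3 : k = 0 := by
      by_contra h0
      have h4 : (1 : ℝ) ≤ |(k : ℝ)| := by
        rw [← Int.cast_abs]
        exact_mod_cast Int.one_le_abs h0
      have h5 : (2 : ℝ) ≤ q * qN q e N := by nlinarith
      have h6 : (2 : ℝ) ≤ |(k : ℝ)| * (q * qN q e N) := by nlinarith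
      linarith
    rw [h3] at hk
    simp at hk
    exact hk.symm
  have hHw : ‖HN c N w - w‖ ≤ 1 / 8 := hHe w (mem_ball_self one_pos)
  have hHim : c.M1 hq + 2 < (HN c N w).im := by
    have h1 : |(HN c N w - w).im| ≤ ‖HN c N w - w‖ := Complex.abs_im_le_norm _
    rw [Complex.sub_im] at h1
    linarith [(abs_le.1 h1).1]
  have hWne : deriv (c.W N) (HN c N w) ≠ 0 :=
    deriv_ne_of_injOn isOpen_ball (hWd _ hHim) (hWi _ hHim) (mem_ball_self one_pos)
  -- chain rule
  have hw2 : c.M1 hq + 2 < w.im := by linarith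
  have hWw : DifferentiableAt ℂ (c.W N) w := (hWd w hw2).differentiableAt (ball_mem_nhds w one_pos)
  have hWH : DifferentiableAt ℂ (c.W N) (HN c N w) :=
    (hWd _ hHim).differentiableAt (ball_mem_nhds _ one_pos)
  have hHw' : DifferentiableAt ℂ (HN c N) w := hHd.differentiableAt (ball_mem_nhds w one_pos)
  have hL : HasDerivAt (fun x => hN p q s e N (c.W N x)) (deriv (hN p q s e N) (c.W N w) * deriv (c.W N) w) w :=
    HasDerivAt.comp w (T7_hN_diff p q s e N _).hasDerivAt hWw.hasDerivAt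
  have hRt : HasDerivAt (fun x => c.W N (HN c N x)) (deriv (c.W N) (HN c N w) * deriv (HN c N) w) w :=
    HasDerivAt.comp w hWH.hasDerivAt hHw'.hasDerivAt
  have hev : (fun x => hN p q s e N (c.W N x)) =ᶠ[𝓝 w] fun x => c.W N (HN c N x) := by
    filter_upwards [ball_mem_nhds w one_pos] with x hx
    have := him hx
    exact HN_W hq hs c hN0 (by linarith)
  have heq := (hL.congr_of_eventuallyEq hev.symm).unique hRt
  intro h0
  rw [h0, zero_mul] at heq
  exact mul_ne_zero hWne hHne heq.symm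

theorem unique_lift {h : ℂ → ℂ} (hh : Differentiable ℂ h) {A B : ℝ → ℂ} {a b : ℝ} (hA : ContinuousOn A (Icc a b))
    (hB : ContinuousOn B (Icc a b)) (hE : ∀ t ∈ Icc a b, h (A t) = h (B t))
    (hne : ∀ t ∈ Icc a b, deriv h (B t) ≠ 0) (h0 : A a = B a) : ∀ t ∈ Icc a b, A t = B t := by
  have hcl : IsClosed ({t | A t = B t} ∩ Icc a b) := by
    have h1 : ContinuousOn (fun t => A t - B t) (Icc a b) := hA.sub hB
    have h2 := h1.preimage_isClosed_of_isClosed isClosed_Icc (isClosed_singleton (x := (0 : ℂ)))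
    convert h2 using 1
    ext t
    simp only [mem_inter_iff, mem_ofPred_eq, mem_preimage, mem_singleton_iff, sub_eq_zero]
    tauto
  have h := hcl.Icc_subset_of_forall_mem_nhdsWithin (a := a) (b := b) h0 ?_
  · exact fun t ht => h ht
  · rintro t ⟨ht, htI⟩
    have ht' : A t = B t := ht
    have htc : t ∈ Icc a b := Ico_subset_Icc_self htI
    have hst : HasStrictDerivAt h (deriv h (B t)) (B t) :=
      (hh.analyticAt (B t)).hasStrictDerivAt
    have hinv := (hst.hasStrictFDerivAt_equiv (hne t htc)).eventually_left_inverse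
    have hmem : Icc a b ∈ 𝓝[>] t := Icc_mem_nhdsGT_of_mem htI
    have hle : 𝓝[>] t ≤ 𝓝[Icc a b] t := by
      rw [← nhdsWithin_inter_of_mem' hmem]
      exact nhdsWithin_mono t inter_subset_right
    have hBt : Tendsto B (𝓝[>] t) (𝓝 (B t)) := (hB t htc).mono_left hle
    have hAt : Tendsto A (𝓝[>] t) (𝓝 (B t)) := by
      rw [← ht']
      exact (hA t htc).mono_left hle
    filter_upwards [hBt.eventually hinv, hAt.eventually hinv, hmem] with u h1 h2 h3
    show A u = B u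
    rw [← h1, ← h2, hE u h3]

theorem hN_diff (p q s e N : ℕ) : Differentiable ℂ (hN p q s e N) := by
  exact T7_hN_diff p q s e N

end Pool.Agent.CR
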