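import Pool.Agent.H24.CR.T5
import Pool.Agent.H24.CR.T6
import Pool.Agent.H24.CR.T7

/-!
# CR T8: `top_final`

Constants: `M3` from `QN_lim` with `δ = ‖a‖ / 16`; `M4` from `u_step`; `M5 = max (max M3 M4) (max (M1 + 3) r0)` (`M1 = c.M1 hq`, `r0 = F.r0`). `κ = 1/100` resp. `η > 0` so small that `‖H.u a (x) - H.u a (σ)‖ ≤ ‖H.u a σ‖ / 100` if `‖x - σ‖ ≤ 2 η`
(`H.u a x = H.u a σ exp (- 2 π i (x - σ) / q)`). `M1' = M5 + 2 q + 4 + (r1 large with F.C r1^(-1/q) ≤ η)`: this is the `M1` of the statement.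

Let `σ` be given on `I = [n0, n0 + 1]`, `‖σ t‖ ≤ b` there (compactness), `r > 0`. `m0` so large that `C (m0 - b - q - 3)^(-1/q) ≤ r` (field `small`) and `m0 - b - q - 3 ≥ R`. Let `m ≥ m0`, `j = -1 - m p`.

(1) For `t ∈ I`: `σ t - m ∈ Rr r1` (`Im`), so by `pr_W0` there is `v t ∈ Wd0 R`, `pr m (σ t) = W0 j (v t)`, `‖v t - (σ t - m)‖ ≤ η`. All `v t` are in the compact set `K = {x | |Re x + m| ≤ b + 1, M5 + 2 q + 3 ≤ Im x ≤ b + 1} ⊆ Wd0 R`. `hurwitz_compact` (`K`, `κ = η`) gives `ε`: for `N` large and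
`‖z t - pr m (σ t)‖ ≤ ε` there is `x t` with `W N (x t) = z t`, `‖x t - (v t + j n)‖ ≤ η` (choose `x t` for `t ∈ I`). Then `‖x t - (σ t - m + j n)‖ ≤ 2 η` and, as `-m + j n + n = - m (p n + 1) = - q m p_N` (`q_pN`), `uN (x t) = H.u a (x t + n)` is within `‖·‖ / 100` of `H.u a (σ t)`
(`H.u a (w + k q) = H.u a w`), so `|Im uN (x t)| ≤ -(11/10) Re uN (x t)`; `Im (x t) ≥ M5 + 2 q + 2`.

(2) `x` is continuous on `I`: `W N` is injective on `O = {x | |Re x - Re (j n - m)| < b + 2, M5 < Im x}` (width `< q n` for `N` large, `inj`) and holomorphic, so it is an open map there and its inverse on `W N '' O` is continuous (`HasStrictDerivAt.to_localInverse`, or the open mapping theorem); `x t` is the value of this inverse at `z t`.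

(3) `HN (x (n0 + 1)) = x n0`: `W N (HN (x (n0+1))) = hN (z (n0 + 1)) = z n0 = W N (x n0)`, both in a set of width `< q n`.
Let `G` be as in `HN_inv`. By injectivity of `HN` on `Im > M1 + 2`: `x (n0 + 1) = G (x n0)`. For `t ∈ I` the sequence `w_i = G^[i] (x t)` satisfies the hypotheses of `back_orbit` (`T = HN c N`; hypothesis `hstep` from `u_step`, `QN_lim`; it is first used for `i < J` by induction on `J`: the points stay in `Im > M5`),
so for all `i`: `Im w_i ≥ Im (x t) - q ≥ M5 + q + 2` and `|Re w_i - Re (x t)| ≤ q`, `HN w_{i+1} = w_i`. `t ↦ G^[i] (x t)` is continuous on `I`.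

(4) Claim: for all `i` and `t ∈ I`: `z (t + i) = W N (G^[i] (x t))`. Induction on `i`; `i = 0` is (1). Step: `A t = z (t + i + 1)`, `B t = W N (G^[i+1] (x t))`, `t ∈ I`: both are continuous, `hN (A t) = z (t + i)`, `hN (B t) = W N (HN (G^[i+1] (x t))) = W N (G^[i] (x t)) = z (t + i)` (`HN_W`). At `t = n0`:
`A n0 = z ((n0 + 1) + i) = W N (G^[i] (x (n0 + 1))) = W N (G^[i] (G (x n0))) = B n0`. `unique_lift` with `deriv_hN_ne`.

(5) Every `t ≥ n0` is `t = t' + i` with `t' ∈ [n0, n0 + 1)`; `z t = W N (G^[i] (x t'))`, a point at distance `≥ m - b - q - 3` from all holes (real part within `b + q + 2` of `j n - m`; the other holes are at distance `≥ n - m - b - q - 2`, large for `N` large), so `‖z t‖ ≤ C (m0 - b - q - 3)^(-1/q) ≤ r`.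
-/

set_option autoImplicit false

open Set Filter Topology Metric

namespace Pool.Agent.CR

variable {p q s e : ℕ}

private theorem T8_rpow (C : ℝ) {η : ℝ} (hη : 0 < η) (hq : 0 < q) (A : ℝ) :
    ∃ r1 : ℝ, A ≤ r1 ∧ 0 < r1 ∧ C * r1 ^ (-(1 / (q : ℝ))) ≤ η := by
  have hq' : (0 : ℝ) < 1 / (q : ℝ) := by positivity
  have h1 : Tendsto (fun r : ℝ => C * r ^ (-(1 / (q : ℝ)))) atTop (𝓝 (C * 0)) :=
    (tendsto_rpow_neg_atTop hq').const_mul C
  rw [mul_zero] at h1
  have h2 : ∀ᶠ r : ℝ in atTop, C * r ^ (-(1 / (q : ℝ))) < η := h1.eventually (gt_mem_nhds hη)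
  obtain ⟨r1, h3, h4⟩ := (h2.and (eventually_ge_atTop (max A 1))).exists
  exact ⟨r1, (le_max_left _ _).trans h4, lt_of_lt_of_le one_pos ((le_max_right _ _).trans h4), h3.le⟩

/-- (1) -/
theorem T8_start (hp : 0 < p) (hpq : p < q) (hs : q * s = p * e + 1) (c : Chart p q s e) (F : Fat c) {η : ℝ}
    (hη : 0 < η) (M5 : ℝ) : ∃ M1' : ℝ, ∀ (n0 : ℝ) (σ : ℝ → ℂ), ContinuousOn σ (Icc n0 (n0 + 1)) →
    (∀ t ∈ Icc n0 (n0 + 1), M1' < (σ t).im) → ∀ m : ℕ, ∃ ε : ℝ, 0 < ε ∧ ∀ᶠ N in atTop, ∀ t ∈ Icc n0 (n0 + 1),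
      ∀ z : ℂ, ‖z - F.pr m (σ t)‖ ≤ ε → ∃ x : ℂ, c.W N x = z ∧
        ‖x - (σ t - m + (-1 - m * p) * qN q e N)‖ ≤ η ∧ M5 ≤ x.im := by
  have hq : 0 < q := hp.trans hpq
  obtain ⟨r1, hr1, hr10, hr1η⟩ := T8_rpow F.C (half_pos hη) hq F.r0
  have hR : 4 ≤ c.R := c.R_ge
  refine ⟨max r1 (max c.R M5 + η + 1), ?_⟩
  intro n0 σ hσ hσM m
  obtain ⟨b, hb⟩ := isCompact_Icc.exists_bound_of_continuousOn hσ
  set K : Set ℂ := closedBall 0 (b + m + η) ∩ {x : ℂ | max c.R M5 + 1 ≤ x.im} with hK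
  have hKc : IsCompact K := (isCompact_closedBall _ _).inter_right
    (isClosed_le continuous_const Complex.continuous_im)
  have hKW : K ⊆ Wd0 c.R := by
    rintro x ⟨-, hx⟩
    have hx' : max c.R M5 + 1 ≤ x.im := hx
    have h1 : c.R + 1 ≤ x.im := by linarith [le_max_left c.R M5]
    have h2 : |x.im| ≤ ‖x‖ := Complex.abs_im_le_norm x
    refine ⟨?_, ?_⟩
    · have := (le_abs_self x.im).trans h2
      linarith
    · have := abs_nonneg x.re
      linarith
  obtain ⟨ε, hε, hev⟩ := hurwitz_compact c (-1 - m * p) hKc hKW (half_pos hη)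
  refine ⟨ε, hε, ?_⟩
  filter_upwards [hev] with N hN t ht z hz
  have hσt := hσM t ht
  have hσ1 : r1 < (σ t).im := lt_of_le_of_lt (le_max_left _ _) hσt
  have hσ2 : max c.R M5 + η + 1 < (σ t).im := lt_of_le_of_lt (le_max_right _ _) hσt
  have him : (σ t - m).im = (σ t).im := by simp
  obtain ⟨v, hv, hpv, hvd⟩ := F.pr_W0 m (σ t) r1 hr1 (Or.inr (by rw [him]; exact hσ1))
  have hvd' : ‖v - (σ t - m)‖ ≤ η / 2 := hvd.trans hr1η
  have hvim : (σ t).im - η / 2 ≤ v.im := by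
    have h1 : |(v - (σ t - m)).im| ≤ η / 2 := (Complex.abs_im_le_norm _).trans hvd'
    rw [Complex.sub_im, him] at h1
    have := (abs_le.1 h1).1
    linarith
  have hvK : v ∈ K := by
    refine ⟨?_, ?_⟩
    · rw [mem_closedBall, dist_zero_right]
      have h1 : ‖σ t‖ ≤ b := hb t ht
      calc ‖v‖ = ‖(v - (σ t - m)) + (σ t - m)‖ := by rw [sub_add_cancel]
        _ ≤ ‖v - (σ t - m)‖ + ‖σ t - m‖ := norm_add_le _ _
        _ ≤ η / 2 + (‖σ t‖ + ‖(m : ℂ)‖) := add_le_add hvd' (norm_sub_le _ _)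
        _ ≤ b + m + η := by
          rw [Complex.norm_natCast]
          linarith
    · change max c.R M5 + 1 ≤ v.im
      linarith
  have hz' : ‖z - c.W0 (-1 - m * p) v‖ ≤ ε := by rw [← hpv]; exact hz
  obtain ⟨w', hw', hWw'⟩ := hN v hvK z hz'
  refine ⟨w' + (-1 - m * p : ℤ) * qN q e N, hWw', ?_, ?_⟩
  · have h1 : w' + ((-1 - m * p : ℤ) : ℂ) * qN q e N - (σ t - m + (-1 - m * p) * qN q e N) =
        (w' - v) + (v - (σ t - m)) := by
      push_cast
      ring
    rw [h1]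
    calc _ ≤ ‖w' - v‖ + ‖v - (σ t - m)‖ := norm_add_le _ _
      _ ≤ η / 2 + η / 2 := add_le_add hw' hvd'
      _ = η := by ring
  · have h1 : |(w' - v).im| ≤ η / 2 := (Complex.abs_im_le_norm _).trans hw'
    rw [Complex.sub_im] at h1
    have h2 := (abs_le.1 h1).1
    have h3 : (w' + ((-1 - m * p : ℤ) : ℂ) * qN q e N).im = w'.im := by
      rw [Complex.add_im]
      have : (((-1 - m * p : ℤ) : ℂ) * (qN q e N : ℂ)).im = 0 := by
        rw [← Complex.ofReal_intCast, ← Complex.ofReal_natCast, ← Complex.ofReal_mul, Complex.ofReal_im]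
      rw [this, add_zero]
    rw [h3]
    have := le_max_right c.R M5
    linarith

/-- (2) -/
theorem T8_cont (hq : 0 < q) (c : Chart p q s e) {N : ℕ} (hN0 : c.N0 ≤ N) {z x : ℝ → ℂ} {I : Set ℝ} {x1 b : ℝ}
    (hb : 2 * b < q * qN q e N) (hz : ContinuousOn z I) (hx : ∀ t ∈ I, c.W N (x t) = z t)
    (hx' : ∀ t ∈ I, |(x t).re - x1| < b ∧ c.R + 1 < (x t).im) : ContinuousOn x I := by
  have hR : 4 ≤ c.R := c.R_ge
  set O : Set ℂ := {w : ℂ | |w.re - x1| < b} ∩ {w : ℂ | c.R < w.im} with hO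
  have hOo : IsOpen O := by
    have h1 : IsOpen {w : ℂ | |w.re - x1| < b} :=
      isOpen_lt ((Complex.continuous_re.sub continuous_const).abs) continuous_const
    exact h1.inter (isOpen_lt continuous_const Complex.continuous_im)
  have hOW : O ⊆ Wd (qN q e N) c.R := fun w hw => top_mem_Wd (by linarith) le_rfl hw.2
  have hinj : InjOn (c.W N) O := by
    intro w hw w' hw' hww
    obtain ⟨k, hk⟩ := c.inj N hN0 w (hOW hw) w' (hOW hw') hww
    have hre : w'.re - w.re = k * (q * qN q e N) := by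
      have : w' - w = ((k * (q * qN q e N) : ℝ) : ℂ) := by
        rw [hk]
        push_cast
        ring
      rw [← Complex.sub_re, this, Complex.ofReal_re]
    have h1 : |(k : ℝ) * (q * qN q e N)| < q * qN q e N := by
      rw [← hre]
      have h2' : |w.re - x1| < b := hw.1
      have h3' : |w'.re - x1| < b := hw'.1
      have h2 := abs_lt.1 h2'
      have h3 := abs_lt.1 h3'
      rw [abs_lt]
      constructor <;> linarith [h2.1, h2.2, h3.1, h3.2]
    have hqn : (0 : ℝ) < q * qN q e N := by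
      have := (abs_nonneg _).trans_lt h1
      exact this
    have hk0 : k = 0 := by
      rw [abs_mul, abs_of_pos hqn] at h1
      have h2 : |(k : ℝ)| < 1 := by
        by_contra hcon
        push Not at hcon
        nlinarith
      have h3 : |k| < 1 := by exact_mod_cast h2
      exact Int.abs_lt_one_iff.1 h3
    rw [hk, hk0]
    simp
  have hmem : ∀ t ∈ I, x t ∈ O := fun t ht =>
    ⟨(hx' t ht).1, show c.R < (x t).im by linarith [(hx' t ht).2]⟩
  intro t0 ht0
  rw [ContinuousWithinAt]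
  intro V hV
  obtain ⟨V', hV'V, hV'o, hV'x⟩ := _root_.mem_nhds_iff.1 hV
  have hopen : IsOpen (c.W N '' (V' ∩ O)) := isOpen_image_of_injOn (hV'o.inter hOo)
    ((c.diff N hN0).mono (inter_subset_right.trans hOW)) (hinj.mono inter_subset_right)
  have hzmem : z t0 ∈ c.W N '' (V' ∩ O) := ⟨x t0, ⟨hV'x, hmem t0 ht0⟩, hx t0 ht0⟩
  have hev : ∀ᶠ t in 𝓝[I] t0, z t ∈ c.W N '' (V' ∩ O) := (hz t0 ht0) (hopen.mem_nhds hzmem)
  rw [Filter.mem_map]
  filter_upwards [hev, self_mem_nhdsWithin] with t ht htI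
  obtain ⟨y, ⟨hyV, hyO⟩, hyz⟩ := ht
  have : x t = y := hinj (hmem t htI) hyO (by rw [hx t htI, hyz])
  change x t ∈ V
  rw [this]
  exact hV'V hyV

private theorem T8_orbit (hq : 0 < q) (c : Chart p q s e) (H : Horn) (Hq : H.q = q) {a : ℂ} (ha : a ≠ 0) {N : ℕ}
    {M5 : ℝ} (hM5 : c.M1 hq + 3 ≤ M5)
    (hstep : ∀ w : ℂ, M5 ≤ w.im → ‖uN H a q e N (HN c N w) - uN H a q e N w - 1‖ ≤ 1 / 8) {G : ℂ → ℂ}
    (hG : ∀ w : ℂ, c.M1 hq + 2 < w.im → HN c N (G w) = w ∧ ‖G w - w‖ ≤ 1 / 8) {w : ℂ} (h0 : M5 + q + 1 ≤ w.im)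
    (hu : |(uN H a q e N w).im| ≤ -(11 / 10) * (uN H a q e N w).re) :
    ∀ i : ℕ, w.im - q ≤ (G^[i] w).im ∧ |(G^[i] w).re - w.re| ≤ q := by
  have key : ∀ J : ℕ, ∀ j ≤ J, w.im - q ≤ (G^[j] w).im ∧ |(G^[j] w).re - w.re| ≤ q := by
    intro J
    induction J with
    | zero =>
      intro j hj
      obtain rfl : j = 0 := by omega
      simp
    | succ J ih =>
      refine back_orbit hq H Hq ha N (HN c N) hstep (fun j => G^[j] w) (J + 1) ?_ (by simpa using h0)
        (by simpa using hu)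
      intro j hj
      have h1 := (ih j (by omega)).1
      have h2 := hG (G^[j] w) (by linarith)
      simp only [Function.iterate_succ_apply']
      exact h2
  exact fun i => key i i le_rfl

private theorem T8_lift (hq : 0 < q) (hs : q * s = p * e + 1) (c : Chart p q s e) {N : ℕ} (hN0 : c.N0 ≤ N)
    {n0 : ℝ} {z x : ℝ → ℂ} (hz : ContinuousOn z (Ici n0)) (hzh : ∀ t ≥ n0, hN p q s e N (z (t + 1)) = z t)
    (hxc : ContinuousOn x (Icc n0 (n0 + 1))) (hx : ∀ t ∈ Icc n0 (n0 + 1), c.W N (x t) = z t) {G : ℂ → ℂ}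
    (hGc : ContinuousOn G {w | c.M1 hq + 2 < w.im})
    (hG : ∀ w : ℂ, c.M1 hq + 2 < w.im → HN c N (G w) = w ∧ ‖G w - w‖ ≤ 1 / 8)
    (hend : x (n0 + 1) = G (x n0))
    (him : ∀ t ∈ Icc n0 (n0 + 1), ∀ i : ℕ, c.M1 hq + 3 < (G^[i] (x t)).im) :
    ∀ i : ℕ, ∀ t ∈ Icc n0 (n0 + 1), z (t + i) = c.W N (G^[i] (x t)) := by
  have hR : 4 ≤ c.R := c.R_ge
  have hM1 := c.M1_ge hq
  have hcont : ∀ i : ℕ, ContinuousOn (fun t => G^[i] (x t)) (Icc n0 (n0 + 1)) := by
    intro i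
    induction i with
    | zero => simpa using hxc
    | succ i ih =>
      have : (fun t => G^[i + 1] (x t)) = fun t => G (G^[i] (x t)) := by
        funext t
        rw [Function.iterate_succ_apply']
      rw [this]
      exact hGc.comp ih fun t ht => by
        change c.M1 hq + 2 < (G^[i] (x t)).im
        linarith [him t ht i]
  intro i
  induction i with
  | zero =>
    intro t ht
    simp [hx t ht]
  | succ i ih =>
    have hBc : ContinuousOn (fun t => c.W N (G^[i + 1] (x t))) (Icc n0 (n0 + 1)) :=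
      ((c.diff N hN0).continuousOn).comp (hcont (i + 1)) fun t ht =>
        top_mem_Wd (by linarith) le_rfl (by linarith [him t ht (i + 1)])
    have hAc : ContinuousOn (fun t : ℝ => z (t + i + 1)) (Icc n0 (n0 + 1)) := by
      refine hz.comp (by fun_prop) fun t ht => ?_
      change n0 ≤ t + i + 1
      have := ht.1
      have hi : (0 : ℝ) ≤ i := Nat.cast_nonneg i
      linarith
    have hmain : ∀ t ∈ Icc n0 (n0 + 1), (fun t : ℝ => z (t + i + 1)) t = (fun t => c.W N (G^[i + 1] (x t))) t := by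
      refine unique_lift (hN_diff p q s e N) hAc hBc ?_ ?_ ?_
      · intro t ht
        have hi : (0 : ℝ) ≤ i := Nat.cast_nonneg i
        have h1 : hN p q s e N (z (t + i + 1)) = z (t + i) := hzh (t + i) (by linarith [ht.1])
        have h2 : hN p q s e N (c.W N (G^[i + 1] (x t))) = c.W N (G^[i] (x t)) := by
          rw [HN_W hq hs c hN0 (by linarith [him t ht (i + 1)]), Function.iterate_succ_apply',
            (hG (G^[i] (x t)) (by linarith [him t ht i])).1]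
        change hN p q s e N (z (t + i + 1)) = hN p q s e N (c.W N (G^[i + 1] (x t)))
        rw [h1, h2]
        exact ih t ht
      · intro t ht
        exact deriv_hN_ne hq hs c hN0 (him t ht (i + 1))
      · have h1 := ih (n0 + 1) ⟨by linarith, le_rfl⟩
        rw [hend] at h1
        rw [Function.iterate_succ_apply, ← h1]
        congr 1
        ring
    intro t ht
    have := hmain t ht
    simp only at this
    rw [← this]
    congr 1
    push_cast
    ring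

private theorem T8_u (hq : 0 < q) (H : Horn) (Hq : H.q = q) (a w θ : ℂ) (k : ℤ) :
    H.u a (w + θ + k * q) = H.u a w * Complex.exp (-(2 * Real.pi * Complex.I * θ / q)) := by
  have hq0 : (q : ℂ) ≠ 0 := by exact_mod_cast hq.ne'
  unfold Horn.u
  rw [Hq]
  have h1 : Complex.exp (-(2 * Real.pi * Complex.I * (w + θ + k * q) / ((q : ℝ) : ℂ))) =
      Complex.exp (-(2 * Real.pi * Complex.I * w / ((q : ℝ) : ℂ))) *
        Complex.exp (-(2 * Real.pi * Complex.I * θ / q)) := by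
    have h2 : -(2 * Real.pi * Complex.I * (w + θ + k * q) / ((q : ℝ) : ℂ)) =
        (-(2 * Real.pi * Complex.I * w / ((q : ℝ) : ℂ)) + -(2 * Real.pi * Complex.I * θ / q)) +
          ((-k : ℤ) : ℂ) * (2 * Real.pi * Complex.I) := by
      push_cast
      field_simp
      ring
    rw [h2, Complex.exp_add, Complex.exp_int_mul_two_pi_mul_I, mul_one, Complex.exp_add]
  rw [h1]
  ring

private theorem T8_hu {u u' : ℂ} (h : |u.im| ≤ -u.re) (hu : ‖u' - u‖ ≤ ‖u‖ / 100) :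
    |u'.im| ≤ -(11 / 10) * u'.re := by
  have hR : 0 ≤ -u.re := (abs_nonneg _).trans h
  have hn : ‖u‖ ≤ 2 * -u.re := by
    have h1 := Complex.norm_le_abs_re_add_abs_im u
    have h2 : |u.re| = -u.re := abs_of_nonpos (by linarith)
    linarith
  have h1 : |(u' - u).im| ≤ ‖u‖ / 100 := (Complex.abs_im_le_norm _).trans hu
  have h2 : |(u' - u).re| ≤ ‖u‖ / 100 := (Complex.abs_re_le_norm _).trans hu
  rw [Complex.sub_im] at h1
  rw [Complex.sub_re] at h2
  have h3 := abs_le.1 h1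
  have h4 := abs_le.1 h2
  have h5 := abs_le.1 h
  rw [abs_le]
  constructor <;> nlinarith [h3.1, h3.2, h4.1, h4.2, h5.1, h5.2]

theorem top_final_thm (hp : 0 < p) (hpq : p < q) (hs : q * s = p * e + 1) (c : Chart p q s e) (F : Fat c) (H : Horn)
    (Hq : H.q = q) (mem_D : ∀ w, w ∈ H.D ↔ F.pr 0 w ∈ F.B) (E_eq : ∀ w ∈ H.D, H.E w = F.phi (F.pr 0 w))
    (hlav : TendstoLocallyUniformlyOn (fun N z => hN p q s e N z) (fun z => F.pr 0 (F.phi z)) atTop F.B) :
    ∀ a : ℂ, a ≠ 0 → H.IsCoeff a → ∃ M1 : ℝ, ∀ (n0 : ℝ) (σ : ℝ → ℂ),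
    ContinuousOn σ (Icc n0 (n0 + 1)) →
    (∀ t ∈ Icc n0 (n0 + 1), M1 < (σ t).im ∧ |(H.u a (σ t)).im| ≤ -(H.u a (σ t)).re) →
    ∀ r : ℝ, 0 < r → ∃ m0 : ℕ, ∀ m ≥ m0, ∃ ε : ℝ, 0 < ε ∧ ∀ᶠ N in atTop, ∀ z : ℝ → ℂ,
      ContinuousOn z (Ici n0) → (∀ t ≥ n0, hN p q s e N (z (t + 1)) = z t) →
      (∀ t ≥ n0, z t ≠ 0) → (∀ t ∈ Icc n0 (n0 + 1), ‖z t - F.pr m (σ t)‖ ≤ ε) →
      ∀ t ≥ n0, ‖z t‖ ≤ r := by
  intro a ha hco
  have hq : 0 < q := hp.trans hpq
  have hq1 : (1 : ℝ) ≤ q := by exact_mod_cast hq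
  have hR : 4 ≤ c.R := c.R_ge
  have hM1 := c.M1_ge hq
  obtain ⟨M3, hM3, hQ⟩ := QN_lim hp hpq hs c F H Hq mem_D E_eq hlav hco
    (show 0 < ‖a‖ / 16 by have := norm_pos_iff.2 ha; positivity)
  obtain ⟨M4, hM4⟩ := u_step (e := e) hq c H Hq ha
  set M5 : ℝ := max (max M3 M4) (c.M1 hq + 3) with hM5
  have h53 : M3 ≤ M5 := (le_max_left _ _).trans (le_max_left _ _)
  have h54 : M4 ≤ M5 := (le_max_right _ _).trans (le_max_left _ _)
  have h51 : c.M1 hq + 3 ≤ M5 := le_max_right _ _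
  obtain ⟨M1', hstart⟩ := T8_start hp hpq hs c F (show (0 : ℝ) < 1 / 2000 by norm_num) (M5 + q + 2)
  refine ⟨M1', ?_⟩
  intro n0 σ hσ hσM r hr
  obtain ⟨b, hb⟩ := isCompact_Icc.exists_bound_of_continuousOn hσ
  have hb0 : 0 ≤ b := (norm_nonneg _).trans (hb n0 ⟨le_rfl, by linarith⟩)
  obtain ⟨r1, hr1, hr10, hr1r⟩ := T8_rpow c.C hr hq c.R
  obtain ⟨m0, hm0⟩ := exists_nat_ge (r1 + b + q + 1)
  refine ⟨m0, ?_⟩
  intro m hm
  have hm' : r1 + b + q + 1 ≤ (m : ℝ) := hm0.trans (by exact_mod_cast hm)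
  obtain ⟨ε, hε, hev⟩ := hstart n0 σ hσ (fun t ht => (hσM t ht).1) m
  refine ⟨ε, hε, ?_⟩
  -- `N` large
  obtain ⟨N1, hN1⟩ := exists_nat_ge (2 * m + 2 * b + 4)
  filter_upwards [hev, hQ, eventually_ge_atTop c.N0, eventually_ge_atTop N1] with N hNx hNQ hN0 hNN1
  intro z hz hzh hz0 hzσ
  have hnN : (N : ℝ) ≤ qN q e N := by
    have : N ≤ qN q e N := by
      unfold qN
      nlinarith
    exact_mod_cast this
  have hn : 2 * m + 2 * b + 4 ≤ (qN q e N : ℝ) := by
    have : (N1 : ℝ) ≤ N := by exact_mod_cast hNN1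
    linarith
  have hn0 : (0 : ℝ) < qN q e N := by
    have : (0 : ℝ) ≤ m := Nat.cast_nonneg m
    linarith
  have hqn : (qN q e N : ℝ) ≤ q * qN q e N := by nlinarith
  -- the curve `x`
  have hex : ∀ t : ℝ, ∃ x : ℂ, t ∈ Icc n0 (n0 + 1) → c.W N x = z t ∧
      ‖x - (σ t - m + (-1 - m * p) * qN q e N)‖ ≤ 1 / 2000 ∧ M5 + q + 2 ≤ x.im := by
    intro t
    by_cases ht : t ∈ Icc n0 (n0 + 1)
    · obtain ⟨x, h1, h2, h3⟩ := hNx t ht (z t) (hzσ t ht)
      exact ⟨x, fun _ => ⟨h1, h2, h3⟩⟩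
    · exact ⟨0, fun h => absurd h ht⟩
  choose x hx using hex
  set x1 : ℝ := -m + (-1 - m * p) * qN q e N with hx1
  have hre : ∀ t ∈ Icc n0 (n0 + 1), |(x t).re - x1| ≤ b + 1 := by
    intro t ht
    have h1 := (hx t ht).2.1
    have h2 : x t - (σ t - m + (-1 - m * p) * qN q e N) = x t - (x1 : ℂ) - σ t := by
      rw [hx1]
      push_cast
      ring
    rw [h2] at h1
    have h3 : |(x t - (x1 : ℂ) - σ t).re| ≤ 1 / 2000 := (Complex.abs_re_le_norm _).trans h1
    rw [Complex.sub_re, Complex.sub_re, Complex.ofReal_re] at h3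
    have h4 : |(σ t).re| ≤ b := (Complex.abs_re_le_norm _).trans (hb t ht)
    have h5 := abs_le.1 h3
    have h6 := abs_le.1 h4
    rw [abs_le]
    constructor <;> linarith [h5.1, h5.2, h6.1, h6.2]
  have hxim : ∀ t ∈ Icc n0 (n0 + 1), M5 + q + 2 ≤ (x t).im := fun t ht => (hx t ht).2.2
  have hxW : ∀ t ∈ Icc n0 (n0 + 1), c.W N (x t) = z t := fun t ht => (hx t ht).1
  have hxc : ContinuousOn x (Icc n0 (n0 + 1)) := by
    refine T8_cont hq c hN0 (x1 := x1) (b := b + 2) ?_ (hz.mono Icc_subset_Ici_self) hxW ?_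
    · have : (0 : ℝ) ≤ m := Nat.cast_nonneg m
      have h1 : (2 : ℝ) * (b + 2) ≤ 2 * m + 2 * b + 4 := by linarith
      have hq2 : (2 : ℝ) ≤ q := by
        have : 2 ≤ q := by omega
        exact_mod_cast this
      nlinarith
    · intro t ht
      exact ⟨by linarith [hre t ht], by linarith [hxim t ht]⟩
  obtain ⟨hGinj, G, hGc, hG⟩ := HN_inv hq c hN0
  have hstep : ∀ w : ℂ, M5 ≤ w.im → ‖uN H a q e N (HN c N w) - uN H a q e N w - 1‖ ≤ 1 / 8 :=
    fun w hw => hM4 N w (h54.trans hw) (hNQ w (h53.trans hw))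
  have hclose : ∀ w : ℂ, c.M1 hq ≤ w.im → ‖HN c N w - w‖ ≤ 1 / 8 :=
    fun w hw => (HN_est hq c hN0 le_rfl hw).trans (c.TT_le hq _ le_rfl)
  have hu : ∀ t ∈ Icc n0 (n0 + 1), |(uN H a q e N (x t)).im| ≤ -(11 / 10) * (uN H a q e N (x t)).re := by
    intro t ht
    set θ : ℂ := x t - (σ t - m + (-1 - m * p) * qN q e N) with hθ
    have hθn : ‖θ‖ ≤ 1 / 2000 := (hx t ht).2.1
    have hpn : (q : ℂ) * pN p s N = p * qN q e N + 1 := by exact_mod_cast q_pN hs N
    have h1 : x t + qN q e N = σ t + θ + ((-(m * pN p s N : ℤ) : ℤ) : ℂ) * q := by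
      rw [hθ]
      push_cast
      linear_combination (m : ℂ) * hpn
    have h2 : uN H a q e N (x t) = H.u a (σ t) * Complex.exp (-(2 * Real.pi * Complex.I * θ / q)) := by
      unfold uN
      rw [h1]
      exact T8_u hq H Hq a (σ t) θ _
    refine T8_hu (hσM t ht).2 ?_
    rw [h2]
    have h3 : H.u a (σ t) * Complex.exp (-(2 * Real.pi * Complex.I * θ / q)) - H.u a (σ t) =
        H.u a (σ t) * (Complex.exp (-(2 * Real.pi * Complex.I * θ / q)) - 1) := by ring
    rw [h3, norm_mul]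
    have h4 : ‖-(2 * Real.pi * Complex.I * θ / q)‖ ≤ 1 / 200 := by
      rw [norm_neg, norm_div, norm_mul, norm_mul, norm_mul, Complex.norm_I, Complex.norm_real,
        Complex.norm_natCast]
      simp only [Complex.norm_ofNat, Real.norm_eq_abs, abs_of_pos Real.pi_pos, mul_one]
      rw [div_le_iff₀ (by linarith)]
      have h5 : 2 * Real.pi * ‖θ‖ ≤ 2 * 4 * (1 / 2000) := by
        have := Real.pi_lt_four
        gcongr
      calc 2 * Real.pi * ‖θ‖ ≤ 2 * 4 * (1 / 2000) := h5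
        _ ≤ 1 / 200 * 1 := by norm_num
        _ ≤ 1 / 200 * (q : ℝ) := by gcongr
    have h5 : ‖Complex.exp (-(2 * Real.pi * Complex.I * θ / q)) - 1‖ ≤ 1 / 100 := by
      refine (Complex.norm_exp_sub_one_le (by linarith)).trans ?_
      linarith
    calc ‖H.u a (σ t)‖ * ‖Complex.exp (-(2 * Real.pi * Complex.I * θ / q)) - 1‖ ≤
        ‖H.u a (σ t)‖ * (1 / 100) := by gcongr
      _ = ‖H.u a (σ t)‖ / 100 := by ring
  have horb : ∀ t ∈ Icc n0 (n0 + 1), ∀ i : ℕ, (x t).im - q ≤ (G^[i] (x t)).im ∧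
      |(G^[i] (x t)).re - (x t).re| ≤ q := by
    intro t ht
    exact T8_orbit hq c H Hq ha h51 hstep hG (by linarith [hxim t ht]) (hu t ht)
  have him : ∀ t ∈ Icc n0 (n0 + 1), ∀ i : ℕ, c.M1 hq + 3 < (G^[i] (x t)).im := by
    intro t ht i
    linarith [(horb t ht i).1, hxim t ht]
  -- the end point
  have hL : n0 ∈ Icc n0 (n0 + 1) := ⟨le_rfl, by linarith⟩
  have hU : n0 + 1 ∈ Icc n0 (n0 + 1) := ⟨by linarith, le_rfl⟩
  have hHx : HN c N (x (n0 + 1)) = x n0 := by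
    have h1 := hclose (x (n0 + 1)) (by linarith [hxim _ hU])
    have h2 : c.W N (HN c N (x (n0 + 1))) = c.W N (x n0) := by
      rw [← HN_W hq hs c hN0 (by linarith [hxim _ hU]), hxW _ hU, hxW _ hL]
      exact hzh n0 le_rfl
    have h3 : |(HN c N (x (n0 + 1)) - x (n0 + 1)).im| ≤ 1 / 8 := (Complex.abs_im_le_norm _).trans h1
    rw [Complex.sub_im] at h3
    have h4 : |(HN c N (x (n0 + 1)) - x (n0 + 1)).re| ≤ 1 / 8 := (Complex.abs_re_le_norm _).trans h1
    rw [Complex.sub_re] at h4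
    have hm1 : HN c N (x (n0 + 1)) ∈ Wd (qN q e N) c.R :=
      top_mem_Wd (by linarith) le_rfl (by linarith [(abs_le.1 h3).1, hxim _ hU])
    have hm2 : x n0 ∈ Wd (qN q e N) c.R := top_mem_Wd (by linarith) le_rfl (by linarith [hxim _ hL])
    obtain ⟨k, hk⟩ := c.inj N hN0 _ hm1 _ hm2 h2
    have hrek : (x n0).re - (HN c N (x (n0 + 1))).re = k * (q * qN q e N) := by
      have : x n0 - HN c N (x (n0 + 1)) = ((k * (q * qN q e N) : ℝ) : ℂ) := by
        rw [hk]
        push_cast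
        ring
      rw [← Complex.sub_re, this, Complex.ofReal_re]
    have h5 : |(k : ℝ) * (q * qN q e N)| < q * qN q e N := by
      rw [← hrek]
      have a1 := abs_le.1 h4
      have a2 := abs_le.1 (hre _ hL)
      have a3 := abs_le.1 (hre _ hU)
      have hm0' : (0 : ℝ) ≤ m := Nat.cast_nonneg m
      rw [abs_lt]
      constructor <;> linarith [a1.1, a1.2, a2.1, a2.2, a3.1, a3.2]
    have hqn0 : (0 : ℝ) < q * qN q e N := lt_of_lt_of_le hn0 hqn
    have hk0 : k = 0 := by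
      rw [abs_mul, abs_of_pos hqn0] at h5
      have h6 : |(k : ℝ)| < 1 := by
        by_contra hcon
        push Not at hcon
        nlinarith
      have h7 : |k| < 1 := by exact_mod_cast h6
      exact Int.abs_lt_one_iff.1 h7
    rw [hk, hk0]
    simp
  have hend : x (n0 + 1) = G (x n0) := by
    have h1 := hG (x n0) (by linarith [hxim _ hL])
    have h2 : |(G (x n0) - x n0).im| ≤ 1 / 8 := (Complex.abs_im_le_norm _).trans h1.2
    rw [Complex.sub_im] at h2
    refine hGinj ?_ ?_ ?_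
    · change c.M1 hq + 2 < (x (n0 + 1)).im
      linarith [hxim _ hU]
    · change c.M1 hq + 2 < (G (x n0)).im
      linarith [(abs_le.1 h2).1, hxim _ hL]
    · rw [hHx, h1.1]
  have hlift := T8_lift hq hs c hN0 hz hzh hxc hxW hGc hG hend him
  -- conclusion
  intro t ht
  set i : ℕ := ⌊t - n0⌋₊ with hi
  have hi1 : (i : ℝ) ≤ t - n0 := Nat.floor_le (by linarith)
  have hi2 : t - n0 < i + 1 := Nat.lt_floor_add_one _
  have htI : t - i ∈ Icc n0 (n0 + 1) := ⟨by linarith, by linarith⟩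
  have h1 : z t = c.W N (G^[i] (x (t - i))) := by
    rw [← hlift i (t - i) htI, sub_add_cancel]
  rw [h1]
  set w : ℂ := G^[i] (x (t - i)) with hw
  have hwim := him _ htI i
  have hwre : |w.re - x1| ≤ b + 1 + q := by
    have a1 := abs_le.1 (horb _ htI i).2
    have a2 := abs_le.1 (hre _ htI)
    rw [abs_le]
    constructor <;> linarith [a1.1, a1.2, a2.1, a2.2]
  have hwW : w ∈ Wd (qN q e N) c.R := top_mem_Wd (by linarith) le_rfl (by linarith)
  have hdist : ∀ k : ℤ, r1 ≤ ‖w - k * qN q e N‖ := by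
    intro k
    have a0 : |(w - k * qN q e N).re| ≤ ‖w - k * qN q e N‖ := Complex.abs_re_le_norm _
    have a1 : (w - k * qN q e N).re = w.re - k * qN q e N := by
      rw [Complex.sub_re]
      congr 1
      rw [← Complex.ofReal_intCast, ← Complex.ofReal_natCast, ← Complex.ofReal_mul, Complex.ofReal_re]
    rw [a1] at a0
    refine le_trans ?_ a0
    set J : ℤ := -1 - m * p with hJ
    have hx1' : x1 = -m + J * qN q e N := by
      rw [hx1, hJ]
      push_cast
      ring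
    have a2 := abs_le.1 hwre
    rw [hx1'] at a2
    rcases lt_trichotomy k J with hk | hk | hk
    · -- the hole is left of `J n`
      have h3 : (k : ℝ) + 1 ≤ J := by exact_mod_cast hk
      have h4 : (k : ℝ) * qN q e N + qN q e N ≤ J * qN q e N := by nlinarith
      refine le_trans ?_ (le_abs_self _)
      linarith [a2.1]
    · rw [← hk] at a2
      refine le_trans ?_ (neg_le_abs _)
      linarith [a2.2]
    · have h3 : (J : ℝ) + 1 ≤ k := by exact_mod_cast hk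
      have h4 : (J : ℝ) * qN q e N + qN q e N ≤ k * qN q e N := by nlinarith
      refine le_trans ?_ (neg_le_abs _)
      have hm0' : (0 : ℝ) ≤ m := Nat.cast_nonneg m
      linarith [a2.2]
  exact (c.small N hN0 w hwW r1 hr1 hdist).trans hr1r

end Pool.Agent.CR
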